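import Pool.Agent.H.MP_b23ae3_co.asy.Base
import Pool.Agent.H.MP_b23ae3_co.Game

set_option autoImplicit false

open Finset

namespace Pool.Agent.H.MP_b23ae3_co.Asy

variable {m : ℕ}

/-! ### M11 Haven.lean : the game
-/

/-- the cube as a graph on the vectors over the field with two elements -/
def havenG (m : ℕ) : SimpleGraph (Cube m) where
  Adj x y := ∃ i, y = x + e i
  symm := ⟨fun x y ⟨i, h⟩ => ⟨i, by rw [h, add_e_add_e]⟩⟩
  loopless := ⟨fun x ⟨i, h⟩ => e_ne_zero i (by simpa using h.symm)⟩

theorem haven_ham {x y : Cube m} : hammingDist x y = 1 ↔ ∃ i, y = x + e i := by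
  have h01 : ∀ a b : ZMod 2, a ≠ b → b = a + 1 := by decide
  constructor
  · intro h
    unfold hammingDist at h
    obtain ⟨i, hi⟩ := Finset.card_eq_one.1 h
    refine ⟨i, funext fun j => ?_⟩
    rw [Pi.add_apply]
    unfold e
    by_cases hj : j = i
    · subst hj
      rw [Pi.single_eq_same]
      have : j ∈ univ.filter (fun i => x i ≠ y i) := by rw [hi]; exact Finset.mem_singleton_self _
      exact h01 _ _ (Finset.mem_filter.1 this).2
    · rw [Pi.single_eq_of_ne hj, add_zero]
      by_contra hne
      have : j ∈ univ.filter (fun i => x i ≠ y i) :=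
        Finset.mem_filter.2 ⟨Finset.mem_univ _, fun hh => hne hh.symm⟩
      rw [hi] at this
      exact hj (Finset.mem_singleton.1 this)
  · rintro ⟨i, rfl⟩
    unfold hammingDist
    rw [Finset.card_eq_one]
    refine ⟨i, ?_⟩
    ext j
    rw [Finset.mem_filter, Finset.mem_singleton, Pi.add_apply]
    unfold e
    constructor
    · rintro ⟨_, h⟩
      by_contra hj
      rw [Pi.single_eq_of_ne hj, add_zero] at h
      exact h rfl
    · rintro rfl
      rw [Pi.single_eq_same]
      have : ∀ a : ZMod 2, a ≠ a + 1 := by decide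
      exact ⟨Finset.mem_univ _, this _⟩

/-- two-element equivalence -/
def havenE : Bool ≃ ZMod 2 where
  toFun b := if b then 1 else 0
  invFun a := decide (a = 1)
  left_inv := by decide
  right_inv := by decide

/-- the two models of the cube are isomorphic -/
def havenIso (m : ℕ) : hypercube m ≃g havenG m where
  toEquiv := Equiv.arrowCongr (Equiv.refl _) havenE
  map_rel_iff' := by
    intro x y
    show (∃ i, _ = _) ↔ hammingDist x y = 1
    rw [← haven_ham]
    have h1 : hammingDist (fun i => havenE (x i)) (fun i => havenE (y i)) = hammingDist x y :=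
      hammingDist_comp (fun _ => havenE) (fun _ => havenE.injective)
    rw [← h1]
    rfl

/-- number of cops on a vertex -/
def havenN {k : ℕ} (C : Fin k → Cube m) (v : Cube m) : ℕ := (univ.filter (fun i => C i = v)).card

theorem haven_sum {k : ℕ} (C : Fin k → Cube m) : ∑ v, havenN C v = k := by
  unfold havenN
  have h := Finset.card_eq_sum_card_fiberwise (s := (univ : Finset (Fin k)))
    (t := (univ : Finset (Cube m))) (f := C) (fun x _ => Finset.mem_coe.2 (Finset.mem_univ _))
  rw [Finset.card_univ, Fintype.card_fin] at h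
  exact h.symm

theorem haven_near {k : ℕ} {C C' : Fin k → Cube m} (hmove : CopMove (havenG m) C C') (i : Fin k) :
    Near (C' i) (C i) := by
  rcases hmove i with h | ⟨j, h⟩
  · exact Or.inl h.symm
  · exact Or.inr ⟨j, by rw [h, add_e_add_e]⟩

open Classical in
theorem haven_large {k : ℕ} {C C' : Fin k → Cube m} (hmove : CopMove (havenG m) C C')
    (v : Cube m) (hv : ∀ S : Finset (Cube m), v ∈ S → ¬ Threat (havenN C) S)
    (hv' : ∀ i, C' i ≠ v) :
    2 ^ m < 2 * (univ.filter (fun u => RobberMove (havenG m) C' v u)).card := by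
  by_contra hc
  push Not at hc
  refine hv (univ.filter (fun u => RobberMove (havenG m) C' v u)) ?_ ⟨hc, ?_⟩
  · exact Finset.mem_filter.2 ⟨Finset.mem_univ _, RobberMove.refl _ _ _ hv'⟩
  · have hb : ∀ x ∈ bd (univ.filter (fun u => RobberMove (havenG m) C' v u)), ∃ j, C' j = x := by
      intro x hx
      rw [mem_bd] at hx
      obtain ⟨h1, i, h2⟩ := hx
      rw [Finset.mem_filter] at h1 h2
      by_contra hne
      push Not at hne
      exact h1 ⟨Finset.mem_univ _, h2.2.step (r'' := x) ⟨i, by rw [add_e_add_e]⟩ hne⟩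
    rcases isEmpty_or_nonempty (Fin k) with hemp | hne
    · have hbe : bd (univ.filter (fun u => RobberMove (havenG m) C' v u)) = ∅ := by
        rw [Finset.eq_empty_iff_forall_notMem]
        intro x hx
        obtain ⟨j, _⟩ := hb x hx
        exact hemp.elim j
      refine ⟨id, fun x _ => Or.inl rfl, fun w => ?_⟩
      rw [hbe]
      simp
    choose! g hg using hb
    refine ⟨fun x => C (g x), ?_, ?_⟩
    · intro x hx
      have h1 := haven_near hmove (g x)
      rw [hg x hx] at h1
      exact h1
    · intro w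
      unfold havenN
      refine Finset.card_le_card_of_injOn g ?_ ?_
      · intro x hx
        have hx' := Finset.mem_filter.1 (Finset.mem_coe.1 hx)
        exact Finset.mem_coe.2 (Finset.mem_filter.2 ⟨Finset.mem_univ _, hx'.2⟩)
      · intro x hx y hy hxy
        have hx' := (Finset.mem_filter.1 (Finset.mem_coe.1 hx)).1
        have hy' := (Finset.mem_filter.1 (Finset.mem_coe.1 hy)).1
        rw [← hg x hx', ← hg y hy', hxy]

theorem haven_far {k : ℕ} {C C' : Fin k → Cube m} (hmove : CopMove (havenG m) C C')
    {v : Cube m} (hv : jn (havenN C) v = 0) (i : Fin k) : C' i ≠ v := by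
  intro h
  unfold jn at hv
  rw [Finset.sum_eq_zero_iff] at hv
  have h1 := hv (C i) (Finset.mem_univ _)
  have h2 : Near (C i) v := by
    have := (haven_near hmove i).symm'
    rw [h] at this
    exact this
  rw [if_pos h2] at h1
  unfold havenN at h1
  rw [Finset.card_eq_zero] at h1
  have h3 : i ∈ univ.filter (fun j => C j = C i) := Finset.mem_filter.2 ⟨Finset.mem_univ _, rfl⟩
  rw [h1] at h3
  exact absurd h3 (Finset.notMem_empty _)

theorem static_to_game (hm : 0 < m) (k : ℕ)
    (h : ∀ n : Cube m → ℕ, ∑ v, n v = k →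
      ∃ z, jn n z = 0 ∧ ∀ S : Finset (Cube m), z ∈ S → ¬ Threat n S)
    (σ : CopStrategy (hypercube m) k) : ¬ Wins σ := by
  classical
  intro hw
  obtain ⟨σ', hσ'⟩ := wins_of_iso (havenIso m) ⟨σ, hw⟩
  refine not_wins_of_safe (G := havenG m)
    (fun C v => jn (havenN C) v = 0 ∧ ∀ S : Finset (Cube m), v ∈ S → ¬ Threat (havenN C) S)
    (fun C => h _ (haven_sum C)) ?_ σ' hσ'
  rintro C C' v ⟨hv1, hv2⟩ hmove
  have hfar := haven_far hmove hv1
  refine ⟨hfar, ?_⟩
  obtain ⟨v', hv1', hv2'⟩ := h _ (haven_sum C')
  refine ⟨v', ?_, hv1', hv2'⟩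
  have h1 := haven_large hmove v hv2 hfar
  have h2 := haven_large (CopMove.refl (havenG m) C') v' hv2'
    (haven_far (CopMove.refl (havenG m) C') hv1')
  have hinter : ((univ.filter (fun u => RobberMove (havenG m) C' v u)) ∩
      (univ.filter (fun u => RobberMove (havenG m) C' v' u))).Nonempty := by
    rw [Finset.nonempty_iff_ne_empty]
    intro he
    have h3 := Finset.card_union_of_disjoint (Finset.disjoint_iff_inter_eq_empty.2 he)
    have h4 := Finset.card_le_univ ((univ.filter (fun u => RobberMove (havenG m) C' v u)) ∪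
      (univ.filter (fun u => RobberMove (havenG m) C' v' u)))
    rw [Fintype.card_fun, ZMod.card, Fintype.card_fin] at h4
    omega
  obtain ⟨u, hu⟩ := hinter
  rw [Finset.mem_inter, Finset.mem_filter, Finset.mem_filter] at hu
  exact hu.1.2.trans hu.2.2.symm

end Pool.Agent.H.MP_b23ae3_co.Asy
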