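import Pool.Agent.H.MP_b23ae3_co.asy.Base

set_option autoImplicit false

open Finset

namespace Pool.Agent.H.MP_b23ae3_co.Asy

variable {m : ℕ}

/-! ### M3 Maximal.lean : reversed martingale maximal inequality
Proof: fix a level `l > 0`; `q N = 1{P^N g ≥ l}`, `q n = 1` where `P^n g ≥ l`, else `P (q (n+1))`.
Then `q n ≥ P (q (n+1))` with equality where `P^n g < l`, so `∑ q n * (P^n g - l) ≥
∑ P (q (n+1)) * (P^n g - l) = ∑ q (n+1) * (P^(n+1) g - l) ≥ 0` and `l * ∑ q 0 ≤ ∑ g`.
Also `q 0 ≥ P^n 1{P^n g ≥ l}`.  With `l = 2^k`: `v ≤ 1 + ∑_{k ≤ κ} 2^k 1{v ≥ 2^k}` for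
`0 ≤ v < 2^(κ+1)`, apply `P^n` to `v = P^n g`; `U = 1 + ∑_{k ≤ κ} 2^k q^{(k)} 0`.
-/

/-- the value of the stopping game: `mq l r h` is the largest probability of being stopped at a
level at least `l` in at most `r` steps -/
noncomputable def mq (l : ℝ) : ℕ → (Cube m → ℝ) → Cube m → ℝ
  | 0, h => fun x => if l ≤ h x then 1 else 0
  | r + 1, h => fun x => if l ≤ h x then 1 else P (mq l r (P h)) x

theorem mq_nonneg (l : ℝ) (r : ℕ) (h : Cube m → ℝ) (x : Cube m) : 0 ≤ mq l r h x := by
  induction r generalizing h x with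
  | zero =>
    unfold mq
    split_ifs <;> norm_num
  | succ r ih =>
    unfold mq
    split_ifs
    · norm_num
    · exact P_nonneg (fun y => ih (P h) y) x

theorem mq_le_one (hm : 0 < m) (l : ℝ) (r : ℕ) (h : Cube m → ℝ) (x : Cube m) :
    mq l r h x ≤ 1 := by
  induction r generalizing h x with
  | zero =>
    unfold mq
    split_ifs <;> norm_num
  | succ r ih =>
    unfold mq
    split_ifs
    · norm_num
    · have h1 := P_mono (f := mq l r (P h)) (g := fun _ => (1 : ℝ)) (fun y => ih (P h) y) x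
      rw [P_const hm] at h1
      exact h1

theorem P_mq_le_one (hm : 0 < m) (l : ℝ) (r : ℕ) (h : Cube m → ℝ) (x : Cube m) :
    P (mq l r h) x ≤ 1 := by
  have h1 := P_mono (f := mq l r h) (g := fun _ => (1 : ℝ)) (fun y => mq_le_one hm l r h y) x
  rw [P_const hm] at h1
  exact h1

theorem mq_sum (hm : 0 < m) (l : ℝ) (r : ℕ) (h : Cube m → ℝ) :
    0 ≤ ∑ x, mq l r h x * (h x - l) := by
  induction r generalizing h with
  | zero =>
    refine Finset.sum_nonneg fun x _ => ?_
    unfold mq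
    split_ifs with h1
    · linarith
    · simp
  | succ r ih =>
    have h1 : ∑ x, P (mq l r (P h)) x * (h x - l) ≤ ∑ x, mq l (r + 1) h x * (h x - l) := by
      refine Finset.sum_le_sum fun x _ => ?_
      show _ ≤ (if l ≤ h x then 1 else P (mq l r (P h)) x) * (h x - l)
      split_ifs with h2
      · exact mul_le_mul_of_nonneg_right (P_mq_le_one hm l r (P h) x) (by linarith)
      · exact le_rfl
    refine le_trans ?_ h1
    have h3 : ∑ x, P (mq l r (P h)) x * (h x - l) =
        ∑ x, mq l r (P h) x * P (fun y => h y - l) x :=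
      (sum_mul_P (mq l r (P h)) (fun y => h y - l)).symm
    rw [h3]
    have h4 : P (fun y => h y - l) = fun y => P h y - l := by
      rw [P_sub h (fun _ => l), P_const hm]
    rw [h4]
    exact ih (P h)

theorem mq_weak (hm : 0 < m) (l : ℝ) (r : ℕ) (h : Cube m → ℝ) (hh : ∀ x, 0 ≤ h x) :
    l * ∑ x, mq l r h x ≤ ∑ x, h x := by
  have h1 := mq_sum hm l r h
  have h2 : ∑ x, mq l r h x * (h x - l) = ∑ x, mq l r h x * h x - l * ∑ x, mq l r h x := by
    rw [Finset.mul_sum, ← Finset.sum_sub_distrib]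
    exact Finset.sum_congr rfl fun x _ => by ring
  have h3 : ∑ x, mq l r h x * h x ≤ ∑ x, h x := by
    refine Finset.sum_le_sum fun x _ => ?_
    have := mul_le_mul_of_nonneg_right (mq_le_one hm l r h x) (hh x)
    linarith
  linarith

theorem mq_ge (hm : 0 < m) (l : ℝ) (n r : ℕ) (hn : n ≤ r) (h : Cube m → ℝ) (x : Cube m) :
    (P^[n] (fun y => if l ≤ (P^[n] h) y then (1 : ℝ) else 0)) x ≤ mq l r h x := by
  induction n generalizing r h x with
  | zero =>
    cases r with
    | zero =>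
      simp only [Function.iterate_zero, id_eq]
      show _ ≤ (if l ≤ h x then (1 : ℝ) else 0)
      split_ifs <;> norm_num
    | succ r =>
      simp only [Function.iterate_zero, id_eq]
      show _ ≤ (if l ≤ h x then 1 else P (mq l r (P h)) x)
      split_ifs
      · exact le_rfl
      · exact P_nonneg (fun y => mq_nonneg l r (P h) y) x
  | succ n ih =>
    obtain ⟨r', rfl⟩ : ∃ r', r = r' + 1 := ⟨r - 1, by omega⟩
    have h1 : (P^[n + 1] (fun y => if l ≤ (P^[n + 1] h) y then (1 : ℝ) else 0)) x ≤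
        P (mq l r' (P h)) x := by
      rw [Function.iterate_succ_apply']
      refine P_mono (fun y => ?_) x
      have := ih r' (by omega) (P h) y
      simp only [Function.iterate_succ_apply]
      exact this
    refine h1.trans ?_
    show _ ≤ (if l ≤ h x then 1 else P (mq l r' (P h)) x)
    split_ifs
    · exact P_mq_le_one hm l r' (P h) x
    · exact le_rfl

/-- dyadic decomposition -/
theorem dyadic (κ : ℕ) (v : ℝ) (hv : v < 2 ^ (κ + 1)) :
    v ≤ 1 + ∑ k ∈ Finset.range (κ + 1), (2 : ℝ) ^ k * (if (2 : ℝ) ^ k ≤ v then 1 else 0) := by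
  induction κ with
  | zero =>
    simp only [zero_add, pow_one] at hv
    rw [zero_add, Finset.sum_range_one, pow_zero]
    split_ifs with h
    · linarith
    · linarith [not_le.1 h]
  | succ κ ih =>
    rw [Finset.sum_range_succ]
    by_cases h : (2 : ℝ) ^ (κ + 1) ≤ v
    · have h1 : ∀ k ∈ Finset.range (κ + 1), (2 : ℝ) ^ k * (if (2 : ℝ) ^ k ≤ v then 1 else 0) =
          2 ^ k := by
        intro k hk
        have : (2 : ℝ) ^ k ≤ v :=
          le_trans (pow_le_pow_right₀ (by norm_num) (le_of_lt (Finset.mem_range.1 hk))) h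
        rw [if_pos this, mul_one]
      rw [Finset.sum_congr rfl h1, if_pos h]
      have h2 : ∑ k ∈ Finset.range (κ + 1), (2 : ℝ) ^ k = 2 ^ (κ + 1) - 1 := by
        rw [geom_sum_eq (by norm_num)]
        norm_num
      rw [h2]
      have h3 : (2 : ℝ) ^ (κ + 1 + 1) = 2 ^ (κ + 1) + 2 ^ (κ + 1) := by ring
      linarith
    · rw [if_neg h]
      have := ih (not_le.1 h)
      linarith

theorem maximal (hm : 0 < m) (g : Cube m → ℝ) (hg : ∀ x, 0 ≤ g x) (κ : ℕ)
    (hB : ∀ x, g x < 2 ^ (κ + 1)) (N : ℕ) :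
    ∃ U : Cube m → ℝ, (∀ n ≤ N, ∀ z, (P^[2 * n] g) z ≤ U z) ∧
      ∑ z, U z ≤ 2 ^ m + (κ + 1) * ∑ z, g z := by
  refine ⟨fun z => 1 + ∑ k ∈ Finset.range (κ + 1), (2 : ℝ) ^ k * mq ((2 : ℝ) ^ k) N g z, ?_, ?_⟩
  · intro n hn z
    have hlt : ∀ t : ℕ, ∀ x, (P^[t] g) x < 2 ^ (κ + 1) := by
      intro t
      induction t with
      | zero => simpa using hB
      | succ t ih =>
        intro x
        rw [Function.iterate_succ_apply']
        show (∑ i, (P^[t] g) (x + e i)) / m < _
        have hm' : (0 : ℝ) < m := by exact_mod_cast hm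
        rw [div_lt_iff₀ hm']
        have h1 : ∑ i : Fin m, (P^[t] g) (x + e i) < ∑ _i : Fin m, (2 : ℝ) ^ (κ + 1) := by
          refine Finset.sum_lt_sum_of_nonempty ?_ fun i _ => ih _
          exact ⟨⟨0, hm⟩, Finset.mem_univ _⟩
        rw [Finset.sum_const, Finset.card_univ, Fintype.card_fin, nsmul_eq_mul] at h1
        linarith
    have h1 : (P^[2 * n] g) z = (P^[n] (P^[n] g)) z := by
      rw [two_mul, Function.iterate_add_apply]
    rw [h1]
    have h2 := Pit_mono (f := P^[n] g) (g := fun y => 1 + ∑ k ∈ Finset.range (κ + 1),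
      (2 : ℝ) ^ k * (if (2 : ℝ) ^ k ≤ (P^[n] g) y then 1 else 0))
      (fun y => dyadic κ _ (hlt n y)) n z
    refine h2.trans ?_
    rw [Pit_add (fun _ => (1 : ℝ)), Pit_const hm, Pit_sum]
    simp only [Pit_smul]
    have h3 : ∀ k ∈ Finset.range (κ + 1),
        (2 : ℝ) ^ k * (P^[n] (fun y => if (2 : ℝ) ^ k ≤ (P^[n] g) y then (1 : ℝ) else 0)) z ≤
        (2 : ℝ) ^ k * mq ((2 : ℝ) ^ k) N g z := by
      intro k _
      exact mul_le_mul_of_nonneg_left (mq_ge hm _ n N hn g z) (by positivity)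
    have h4 := Finset.sum_le_sum h3
    linarith
  · rw [Finset.sum_add_distrib, Finset.sum_comm]
    have h1 : ∑ _z : Cube m, (1 : ℝ) = 2 ^ m := by
      rw [Finset.sum_const, Finset.card_univ, Fintype.card_fun, ZMod.card, Fintype.card_fin]
      simp
    rw [h1]
    have h2 : ∀ k ∈ Finset.range (κ + 1),
        ∑ z, (2 : ℝ) ^ k * mq ((2 : ℝ) ^ k) N g z ≤ ∑ z, g z := by
      intro k _
      rw [← Finset.mul_sum]
      exact mq_weak hm _ N g hg
    have h3 := Finset.sum_le_sum h2
    rw [Finset.sum_const, Finset.card_range, nsmul_eq_mul] at h3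
    push_cast at h3
    linarith

end Pool.Agent.H.MP_b23ae3_co.Asy
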