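import Pool.Agent.H.MP_b23ae3_co.asy.Base

set_option autoImplicit false

open Finset

namespace Pool.Agent.H.MP_b23ae3_co.Asy

variable {m : ℕ}

/-! ### M1 Principle.lean : the sharp ergodic principle
Proof: `f - mean f = g - P g` for some `g` (the range of `1 - P` is the space of functions of sum
zero: its kernel is the constants, count dimensions).  Take `z` a minimum
of `g`; `ν := dl z - μ + P μ ≥ 0` has total mass 1, so
`∑ μ (f - mean f) = ∑ (μ - P μ) g = g z - ∑ ν g ≤ 0`, hence `0 ≤ ∑ μ f ≤ mean f * ∑ μ`.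
-/

/-- invariance under all unit vectors implies constancy -/
theorem const_of_shift {g : Cube m → ℝ} (h : ∀ x i, g (x + e i) = g x) (x : Cube m) :
    g x = g 0 := by
  have key : ∀ s : Finset (Fin m), g (∑ i ∈ s, e i) = g 0 := by
    intro s
    induction s using Finset.induction_on with
    | empty => simp
    | insert a s ha ih => rw [Finset.sum_insert ha, add_comm, h, ih]
  have hx : x = ∑ i ∈ univ.filter (fun i => x i ≠ 0), (e i : Cube m) := by
    funext j
    rw [Finset.sum_apply]
    unfold e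
    simp only [Pi.single_apply]
    have h2 : ∀ a : ZMod 2, a ≠ 0 → a = 1 := by decide
    by_cases hj : x j = 0
    · rw [hj, Finset.sum_eq_zero]
      intro i hi
      rw [if_neg]
      rintro rfl
      exact (Finset.mem_filter.1 hi).2 hj
    · rw [Finset.sum_eq_single j]
      · rw [if_pos rfl]; exact h2 _ hj
      · intro b _ hb; rw [if_neg (fun h => hb h.symm)]
      · intro hj'
        exact absurd (Finset.mem_filter.2 ⟨Finset.mem_univ j, hj⟩) hj'
  rw [hx]
  exact key _

/-- fixed points of `P` are constant -/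
theorem const_of_P (hm : 0 < m) {g : Cube m → ℝ} (h : ∀ x, P g x = g x) (x : Cube m) :
    g x = g 0 := by
  have hm0 : (m : ℝ) ≠ 0 := by exact_mod_cast hm.ne'
  have h1 : ∑ x, ∑ i : Fin m, (g x - g (x + e i)) ^ 2 = 0 := by
    have e1 : ∀ x, ∑ i : Fin m, (g x - g (x + e i)) ^ 2
        = m * (g x * g x) - 2 * m * (g x * P g x) + ∑ i : Fin m, g (x + e i) ^ 2 := by
      intro x
      have e2 : ∀ i : Fin m, (g x - g (x + e i)) ^ 2
          = g x * g x - 2 * (g x * g (x + e i)) + g (x + e i) ^ 2 := fun i => by ring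
      simp only [e2, Finset.sum_add_distrib, Finset.sum_sub_distrib, Finset.sum_const,
        Finset.card_univ, Fintype.card_fin, nsmul_eq_mul, ← Finset.mul_sum]
      have e3 : ∑ i : Fin m, g (x + e i) = m * P g x := by
        unfold P; field_simp
      rw [e3]; ring
    simp only [e1, Finset.sum_add_distrib, Finset.sum_sub_distrib]
    rw [Finset.sum_comm (s := univ) (t := univ) (f := fun x i => g (x + e i) ^ 2)]
    have e4 : ∀ i : Fin m, ∑ x, g (x + e i) ^ 2 = ∑ x, g x * g x := by
      intro i
      rw [sum_shift (fun x => g x ^ 2) i]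
      exact Finset.sum_congr rfl fun x _ => by ring
    simp only [e4, Finset.sum_const, Finset.card_univ, Fintype.card_fin, nsmul_eq_mul, h]
    rw [← Finset.mul_sum, ← Finset.mul_sum]
    ring
  apply const_of_shift
  intro x i
  have h2 : ∀ x ∈ (univ : Finset (Cube m)), 0 ≤ ∑ i : Fin m, (g x - g (x + e i)) ^ 2 :=
    fun x _ => Finset.sum_nonneg fun i _ => sq_nonneg _
  have h3 := (Finset.sum_eq_zero_iff_of_nonneg h2).1 h1 x (Finset.mem_univ _)
  have h4 := (Finset.sum_eq_zero_iff_of_nonneg (fun i _ => sq_nonneg _)).1 h3 i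
    (Finset.mem_univ _)
  have h5 := pow_eq_zero_iff (two_ne_zero) |>.1 h4
  linarith

/-- `P` as a linear map -/
noncomputable def Plin (m : ℕ) : (Cube m → ℝ) →ₗ[ℝ] (Cube m → ℝ) where
  toFun f := P f
  map_add' f g := P_add f g
  map_smul' c f := P_smul c f

/-- the sum as a linear form -/
noncomputable def Slin (m : ℕ) : (Cube m → ℝ) →ₗ[ℝ] ℝ where
  toFun f := ∑ x, f x
  map_add' f g := by simp [Finset.sum_add_distrib]
  map_smul' c f := by simp [Finset.mul_sum]

theorem exists_poisson (hm : 0 < m) (f : Cube m → ℝ) (hf : ∑ x, f x = 0) :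
    ∃ g : Cube m → ℝ, ∀ x, g x - P g x = f x := by
  have hrange : LinearMap.range (LinearMap.id - Plin m) ≤ LinearMap.ker (Slin m) := by
    rintro _ ⟨g, rfl⟩
    rw [LinearMap.mem_ker]
    show ∑ x, (g x - P g x) = 0
    rw [Finset.sum_sub_distrib, sum_P hm, sub_self]
  have hker : LinearMap.ker (LinearMap.id - Plin m) ≤
      Submodule.span ℝ {(fun _ => (1 : ℝ) : Cube m → ℝ)} := by
    intro g hg
    rw [LinearMap.mem_ker] at hg
    have h1 : ∀ x, P g x = g x := by
      intro x
      have h2 := congrFun hg x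
      have h3 : g x - P g x = 0 := h2
      linarith
    rw [Submodule.mem_span_singleton]
    refine ⟨g 0, ?_⟩
    funext x
    show g 0 * 1 = g x
    rw [mul_one, const_of_P hm h1 x]
  have hk1 : Module.finrank ℝ (LinearMap.ker (LinearMap.id - Plin m)) ≤ 1 := by
    refine (Submodule.finrank_mono hker).trans ?_
    exact (finrank_span_le_card _).trans (by simp)
  have hr1 := LinearMap.finrank_range_add_finrank_ker (LinearMap.id - Plin m)
  have hr2 := LinearMap.finrank_range_add_finrank_ker (Slin m)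
  have hs : Module.finrank ℝ (LinearMap.range (Slin m)) = 1 := by
    have : LinearMap.range (Slin m) = ⊤ := by
      rw [LinearMap.range_eq_top]
      intro c
      refine ⟨fun x => if x = 0 then c else 0, ?_⟩
      show ∑ x : Cube m, (if x = 0 then c else 0) = c
      simp
    rw [this, finrank_top, Module.finrank_self]
  have heq : LinearMap.range (LinearMap.id - Plin m) = LinearMap.ker (Slin m) := by
    apply Submodule.eq_of_le_of_finrank_le hrange
    omega
  have hmem : f ∈ LinearMap.range (LinearMap.id - Plin m) := by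
    rw [heq, LinearMap.mem_ker]; exact hf
  obtain ⟨g, hg⟩ := hmem
  exact ⟨g, fun x => congrFun hg x⟩

theorem principle (hm : 0 < m) (f : Cube m → ℝ)
    (h : ∀ z, ∃ μ : Cube m → ℝ, (∀ x, 0 ≤ μ x) ∧ (∀ x, μ x ≤ dl z x + P μ x) ∧
      0 < ∑ x, μ x ∧ 0 ≤ ∑ x, μ x * f x) : 0 ≤ ∑ x, f x := by
  set N : ℝ := (Fintype.card (Cube m) : ℝ) with hN
  have hN0 : 0 < N := by
    rw [hN]; exact_mod_cast Fintype.card_pos
  set c : ℝ := (∑ x, f x) / N with hc
  obtain ⟨g, hg⟩ := exists_poisson hm (fun x => f x - c) (by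
    rw [Finset.sum_sub_distrib, Finset.sum_const, Finset.card_univ, nsmul_eq_mul, hc]
    field_simp
    ring)
  obtain ⟨z, -, hz⟩ := Finset.exists_min_image (univ : Finset (Cube m)) g ⟨0, Finset.mem_univ _⟩
  obtain ⟨μ, h0, h1, h2, h3⟩ := h z
  have e1 : ∑ x, μ x * (f x - c) = ∑ x, (μ x - P μ x) * g x := by
    have : ∀ x, μ x * (f x - c) = μ x * g x - μ x * P g x := by
      intro x; rw [← hg x]; ring
    simp only [this, Finset.sum_sub_distrib, sum_mul_P, sub_mul]
  have e2 : ∑ x, (dl z x - μ x + P μ x) = 1 := by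
    rw [Finset.sum_add_distrib, Finset.sum_sub_distrib, sum_P hm]
    simp [dl]
  have e3 : ∑ x, dl z x * g x = g z := by simp [dl]
  have e4 : g z ≤ ∑ x, (dl z x - μ x + P μ x) * g x := by
    calc g z = ∑ x, (dl z x - μ x + P μ x) * g z := by rw [← Finset.sum_mul, e2, one_mul]
      _ ≤ ∑ x, (dl z x - μ x + P μ x) * g x := by
        apply Finset.sum_le_sum
        intro x hx
        apply mul_le_mul_of_nonneg_left (hz x hx)
        have := h1 x
        linarith
  have e5 : ∑ x, (dl z x - μ x + P μ x) * g x = g z - ∑ x, (μ x - P μ x) * g x := by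
    rw [← e3, ← Finset.sum_sub_distrib]
    exact Finset.sum_congr rfl fun x _ => by ring
  have e6 : ∑ x, μ x * (f x - c) = ∑ x, μ x * f x - (∑ x, μ x) * c := by
    rw [Finset.sum_mul, ← Finset.sum_sub_distrib]
    exact Finset.sum_congr rfl fun x _ => by ring
  have e7 : 0 ≤ (∑ x, μ x) * c := by linarith
  have e8 : 0 ≤ c := by
    by_contra hneg
    push Not at hneg
    nlinarith [mul_pos h2 (neg_pos.2 hneg)]
  have e9 : ∑ x, f x = c * N := by rw [hc]; field_simp
  rw [e9]
  positivity

end Pool.Agent.H.MP_b23ae3_co.Asy
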