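import Pool.Agent.H.MP_b23ae3_co.asy.Base

set_option autoImplicit false

open Finset

namespace Pool.Agent.H.MP_b23ae3_co.Asy

variable {m : ℕ}

/-! ### M5 Escape.lean : the distance from the start is of order `min t m`
Proof: `φ x = m - 2 * hammingDist z x`, `P φ = (1 - 2/m) φ`, `P (φ^2) = (1 - 4/m) φ^2 + 4`.
So `M_t = (P^t φ) z = m (1-2/m)^t` and `V_t = (P^t φ^2) z - M_t^2 ≤ min (4 t) m` (induction).
`(1-2/m)^t ≤ 1/(1+2t/m)` gives `m - M_t ≥ (2/3) min t m`.  Chebyshev.
-/

/-- the sign of agreement in the coordinate `i` -/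
def escape_sg (z x : Cube m) (i : Fin m) : ℝ := if x i = z i then 1 else -1

/-- the sum of the signs of agreement -/
noncomputable def escape_phi (z x : Cube m) : ℝ := ∑ i, escape_sg z x i

theorem escape_sg_sq (z x : Cube m) (i : Fin m) : escape_sg z x i ^ 2 = 1 := by
  unfold escape_sg; split_ifs <;> norm_num

theorem escape_phi_eq (z x : Cube m) : escape_phi z x = (m : ℝ) - 2 * hammingDist z x := by
  have h1 : ∀ i, escape_sg z x i = 1 - 2 * (if z i ≠ x i then (1 : ℝ) else 0) := by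
    intro i
    unfold escape_sg
    by_cases h : x i = z i
    · rw [if_pos h, if_neg (by simpa using h.symm)]; ring
    · rw [if_neg h, if_pos (fun h' => h h'.symm)]; ring
  unfold escape_phi hammingDist
  simp only [h1]
  rw [Finset.sum_sub_distrib, ← Finset.mul_sum, Finset.sum_boole]
  simp

theorem escape_phi_self (z : Cube m) : escape_phi z z = m := by
  rw [escape_phi_eq, hammingDist_self]; simp

theorem escape_phi_add (z x : Cube m) (i : Fin m) :
    escape_phi z (x + e i) = escape_phi z x - 2 * escape_sg z x i := by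
  have h1 : ∀ j, escape_sg z (x + e i) j
      = escape_sg z x j - (if j = i then 2 * escape_sg z x i else 0) := by
    intro j
    by_cases h : j = i
    · subst h
      rw [if_pos rfl]
      have h2 : (x + e j) j = x j + 1 := by
        simp [e]
      have h3 : ∀ a b : ZMod 2, (a + 1 = b) ↔ ¬ (a = b) := by decide
      unfold escape_sg
      rw [h2]
      by_cases h4 : x j = z j
      · rw [if_pos h4, if_neg (by rw [h3]; exact fun h => h h4)]; ring
      · rw [if_neg h4, if_pos ((h3 _ _).2 h4)]; ring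
    · rw [if_neg h, sub_zero]
      have h2 : (x + e i) j = x j := by
        simp [e, Pi.single_eq_of_ne h]
      unfold escape_sg
      rw [h2]
  unfold escape_phi
  simp only [h1]
  rw [Finset.sum_sub_distrib, Finset.sum_ite_eq']
  simp

theorem escape_P_phi (hm : 0 < m) (z : Cube m) :
    P (escape_phi z) = fun x => (1 - 2 / (m : ℝ)) * escape_phi z x := by
  have hm0 : (m : ℝ) ≠ 0 := by exact_mod_cast hm.ne'
  funext x
  unfold P
  simp only [escape_phi_add]
  rw [Finset.sum_sub_distrib, ← Finset.mul_sum]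
  have h1 : ∑ i, escape_sg z x i = escape_phi z x := rfl
  rw [h1]
  simp only [Finset.sum_const, Finset.card_univ, Fintype.card_fin, nsmul_eq_mul]
  field_simp

theorem escape_P_sq (hm : 0 < m) (z : Cube m) :
    P (fun x => escape_phi z x ^ 2) = fun x => (1 - 4 / (m : ℝ)) * escape_phi z x ^ 2 + 4 := by
  have hm0 : (m : ℝ) ≠ 0 := by exact_mod_cast hm.ne'
  funext x
  unfold P
  simp only [escape_phi_add]
  have h1 : ∀ i, (escape_phi z x - 2 * escape_sg z x i) ^ 2
      = escape_phi z x ^ 2 + 4 - 4 * escape_phi z x * escape_sg z x i := by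
    intro i
    have := escape_sg_sq z x i
    nlinarith
  simp only [h1]
  rw [Finset.sum_sub_distrib, ← Finset.mul_sum]
  have h2 : ∑ i, escape_sg z x i = escape_phi z x := rfl
  rw [h2]
  simp only [Finset.sum_const, Finset.card_univ, Fintype.card_fin, nsmul_eq_mul]
  field_simp
  ring

theorem escape_it_phi (hm : 0 < m) (z : Cube m) (t : ℕ) :
    P^[t] (escape_phi z) = fun x => (1 - 2 / (m : ℝ)) ^ t * escape_phi z x := by
  induction t with
  | zero => funext x; simp
  | succ t ih =>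
    rw [Function.iterate_succ_apply', ih, P_smul, escape_P_phi hm]
    funext x
    rw [pow_succ]; ring

theorem escape_it_sq (hm : 0 < m) (z : Cube m) (t : ℕ) (x : Cube m) :
    (P^[t + 1] (fun x => escape_phi z x ^ 2)) x
      = (1 - 4 / (m : ℝ)) * (P^[t] (fun x => escape_phi z x ^ 2)) x + 4 := by
  rw [Function.iterate_succ_apply, escape_P_sq hm, Pit_add (fun x => (1 - 4 / (m : ℝ)) *
    escape_phi z x ^ 2) (fun _ => 4), Pit_smul, Pit_const hm]

/-- the variance -/
theorem escape_var (hm : 4 ≤ m) (z : Cube m) (t : ℕ) :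
    0 ≤ (P^[t] (fun x => escape_phi z x ^ 2)) z - (m * (1 - 2 / (m : ℝ)) ^ t) ^ 2 ∧
    (P^[t] (fun x => escape_phi z x ^ 2)) z - (m * (1 - 2 / (m : ℝ)) ^ t) ^ 2 ≤ 4 * t ∧
    (P^[t] (fun x => escape_phi z x ^ 2)) z - (m * (1 - 2 / (m : ℝ)) ^ t) ^ 2 ≤ m := by
  have hmr : (4 : ℝ) ≤ m := by exact_mod_cast hm
  have hm0 : (0 : ℝ) < m := by linarith
  induction t with
  | zero =>
    simp only [Function.iterate_zero, id_eq, pow_zero, mul_one, escape_phi_self, sub_self,
      Nat.cast_zero, mul_zero, le_refl, true_and]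
    exact hm0.le
  | succ t ih =>
    obtain ⟨ih1, ih2, ih3⟩ := ih
    rw [escape_it_sq (by omega)]
    set s := (P^[t] (fun x => escape_phi z x ^ 2)) z with hs
    set q := (1 - 2 / (m : ℝ)) ^ t with hq
    have hq0 : 0 ≤ q := pow_nonneg (by
      rw [sub_nonneg, div_le_one hm0]; linarith) t
    have hq1 : q ≤ 1 := pow_le_one₀ (by
      rw [sub_nonneg, div_le_one hm0]; linarith) (by
      rw [sub_le_self_iff]; positivity)
    have e1 : (1 - 4 / (m : ℝ)) * s + 4 - (m * (1 - 2 / (m : ℝ)) ^ (t + 1)) ^ 2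
        = (1 - 4 / (m : ℝ)) * (s - (m * q) ^ 2) + 4 * (1 - q ^ 2) := by
      rw [pow_succ (1 - 2 / (m : ℝ)) t, ← hq]
      field_simp
      ring
    rw [e1]
    have h4 : 0 ≤ 1 - 4 / (m : ℝ) := by rw [sub_nonneg, div_le_one hm0]; exact hmr
    have h5 : q ^ 2 ≤ 1 := pow_le_one₀ hq0 hq1
    have h6 : 0 ≤ q ^ 2 := by positivity
    have h7 : 0 ≤ 4 / (m : ℝ) := by positivity
    refine ⟨?_, ?_, ?_⟩
    · have := mul_nonneg h4 ih1
      linarith
    · have h8 : (1 - 4 / (m : ℝ)) * (s - (m * q) ^ 2) ≤ 1 * (s - (m * q) ^ 2) :=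
        mul_le_mul_of_nonneg_right (by linarith) ih1
      push_cast
      linarith
    · have h8 : (1 - 4 / (m : ℝ)) * (s - (m * q) ^ 2) ≤ (1 - 4 / (m : ℝ)) * m :=
        mul_le_mul_of_nonneg_left ih3 h4
      have h9 : (1 - 4 / (m : ℝ)) * m = m - 4 := by field_simp
      linarith

theorem escape_mean (hm : 2 ≤ m) (t : ℕ) (ht : 1 ≤ t) :
    (m : ℝ) * (1 - 2 / (m : ℝ)) ^ t ≤ m - 2 / 3 * ((min t m : ℕ) : ℝ) := by
  have hmr : (2 : ℝ) ≤ m := by exact_mod_cast hm
  have hm0 : (0 : ℝ) < m := by linarith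
  have htr : (1 : ℝ) ≤ t := by exact_mod_cast ht
  have h1 : 1 + (t : ℝ) * (2 / m) ≤ (1 + 2 / (m : ℝ)) ^ t :=
    one_add_mul_le_pow (by
      have : 0 ≤ 2 / (m : ℝ) := by positivity
      linarith) t
  have h2 : 0 ≤ 1 - 2 / (m : ℝ) := by rw [sub_nonneg, div_le_one hm0]; exact hmr
  have h3 : (1 - 2 / (m : ℝ)) ^ t * (1 + (t : ℝ) * (2 / m)) ≤ 1 := by
    calc (1 - 2 / (m : ℝ)) ^ t * (1 + (t : ℝ) * (2 / m))
        ≤ (1 - 2 / (m : ℝ)) ^ t * (1 + 2 / (m : ℝ)) ^ t :=
          mul_le_mul_of_nonneg_left h1 (pow_nonneg h2 t)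
      _ = ((1 - 2 / (m : ℝ)) * (1 + 2 / (m : ℝ))) ^ t := (mul_pow _ _ _).symm
      _ ≤ 1 := pow_le_one₀ (mul_nonneg h2 (by positivity)) (by
          have : 0 ≤ (2 / (m : ℝ)) ^ 2 := by positivity
          nlinarith)
  have h4 : (1 - 2 / (m : ℝ)) ^ t * (m + 2 * t) ≤ m := by
    have e1 : (1 - 2 / (m : ℝ)) ^ t * (m + 2 * t)
        = m * ((1 - 2 / (m : ℝ)) ^ t * (1 + (t : ℝ) * (2 / m))) := by
      field_simp
    rw [e1]
    calc (m : ℝ) * ((1 - 2 / (m : ℝ)) ^ t * (1 + (t : ℝ) * (2 / m))) ≤ m * 1 :=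
          mul_le_mul_of_nonneg_left h3 hm0.le
      _ = m := mul_one _
  have h5 : (m : ℝ) * (1 - 2 / (m : ℝ)) ^ t ≤ m * m / (m + 2 * t) := by
    rw [le_div_iff₀ (by positivity)]
    calc (m : ℝ) * (1 - 2 / (m : ℝ)) ^ t * (m + 2 * t)
        = m * ((1 - 2 / (m : ℝ)) ^ t * (m + 2 * t)) := by ring
      _ ≤ m * m := mul_le_mul_of_nonneg_left h4 hm0.le
  refine h5.trans ?_
  rw [div_le_iff₀ (by positivity)]
  rcases le_total t m with h | h
  · rw [min_eq_left h]
    have hr : (t : ℝ) ≤ m := by exact_mod_cast h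
    nlinarith
  · rw [min_eq_right h]
    have hr : (m : ℝ) ≤ t := by exact_mod_cast h
    nlinarith

theorem escape (hm : 2 ≤ m) {t : ℕ} (ht : 1 ≤ t) (z : Cube m) :
    (P^[t] (fun x => if min (hammingDist z x : ℝ) ((m : ℝ) - hammingDist z x)
      < (min t m : ℕ) / 8 then (1 : ℝ) else 0)) z ≤ 32 / (min t m : ℕ) := by
  have hmr : (2 : ℝ) ≤ m := by exact_mod_cast hm
  have hm0 : (0 : ℝ) < m := by linarith
  have hmu : 1 ≤ min t m := by omega
  by_cases hsmall : min t m ≤ 32
  · have h1 : (P^[t] (fun x => if min (hammingDist z x : ℝ) ((m : ℝ) - hammingDist z x)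
        < (min t m : ℕ) / 8 then (1 : ℝ) else 0)) z ≤ (P^[t] (fun _ => (1 : ℝ))) z := by
      apply Pit_mono
      intro x
      split_ifs <;> norm_num
    rw [Pit_const (by omega)] at h1
    refine h1.trans ?_
    have h2 : ((min t m : ℕ) : ℝ) ≤ 32 := by exact_mod_cast hsmall
    have h3 : (0 : ℝ) < ((min t m : ℕ) : ℝ) := by exact_mod_cast hmu
    rw [le_div_iff₀ h3]
    linarith
  · push Not at hsmall
    have hm4 : 4 ≤ m := by omega
    set μ : ℝ := ((min t m : ℕ) : ℝ) with hμ
    have hμ0 : 0 < μ := by rw [hμ]; exact_mod_cast (by omega : 0 < min t m)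
    have hμm : μ ≤ m := by
      rw [hμ]; exact_mod_cast min_le_right t m
    set M : ℝ := m * (1 - 2 / (m : ℝ)) ^ t with hM
    have hM0 : 0 ≤ M := mul_nonneg hm0.le (pow_nonneg (by
      rw [sub_nonneg, div_le_one hm0]; exact hmr) t)
    have hmean : M ≤ m - 2 / 3 * μ := escape_mean hm t ht
    obtain ⟨v1, v2, v3⟩ := escape_var hm4 z t
    -- Chebyshev
    have hpt : ∀ x, (if min (hammingDist z x : ℝ) ((m : ℝ) - hammingDist z x)
        < μ / 8 then (1 : ℝ) else 0)
        ≤ (144 / (25 * μ ^ 2)) * (escape_phi z x ^ 2 + ((-2 * M) * escape_phi z x + M ^ 2)) := by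
      intro x
      have hphi := escape_phi_eq z x
      have e1 : escape_phi z x ^ 2 + ((-2 * M) * escape_phi z x + M ^ 2)
          = (escape_phi z x - M) ^ 2 := by ring
      rw [e1]
      by_cases h : min (hammingDist z x : ℝ) ((m : ℝ) - hammingDist z x) < μ / 8
      · rw [if_pos h]
        have h2 : (5 / 12 * μ) ^ 2 ≤ (escape_phi z x - M) ^ 2 := by
          rcases min_lt_iff.1 h with h | h
          · exact pow_le_pow_left₀ (by positivity) (by linarith) 2
          · have e2 : (escape_phi z x - M) ^ 2 = (M - escape_phi z x) ^ 2 := by ring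
            rw [e2]
            exact pow_le_pow_left₀ (by positivity) (by linarith) 2
        have h3 : (0 : ℝ) < 25 * μ ^ 2 := by positivity
        rw [div_mul_eq_mul_div, le_div_iff₀ h3]
        nlinarith
      · rw [if_neg h]
        positivity
    refine (Pit_mono hpt t z).trans ?_
    rw [Pit_smul, Pit_add (fun x => escape_phi z x ^ 2) (fun x => (-2 * M) * escape_phi z x + M ^ 2),
      Pit_add (fun x => (-2 * M) * escape_phi z x) (fun _ => M ^ 2), Pit_smul,
      Pit_const (by omega), escape_it_phi (by omega)]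
    simp only [escape_phi_self]
    have hV : (P^[t] (fun x => escape_phi z x ^ 2)) z - M ^ 2 ≤ 4 * μ := by
      rcases le_total t m with h | h
      · have : μ = t := by rw [hμ, min_eq_left h]
        rw [this]; exact v2
      · have : μ = m := by rw [hμ, min_eq_right h]
        rw [this]; linarith
    have e2 : (P^[t] (fun x => escape_phi z x ^ 2)) z
        + (-2 * M * ((1 - 2 / (m : ℝ)) ^ t * m) + M ^ 2)
        = (P^[t] (fun x => escape_phi z x ^ 2)) z - M ^ 2 := by
      rw [hM]; ring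
    rw [e2]
    calc 144 / (25 * μ ^ 2) * ((P^[t] (fun x => escape_phi z x ^ 2)) z - M ^ 2)
        ≤ 144 / (25 * μ ^ 2) * (4 * μ) := mul_le_mul_of_nonneg_left hV (by positivity)
      _ = (576 / 25) / μ := by field_simp; ring
      _ ≤ 32 / μ := div_le_div_of_nonneg_right (by norm_num) hμ0.le

end Pool.Agent.H.MP_b23ae3_co.Asy
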