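import Pool.Agent.H.MP_b23ae3_co.asy.Base

set_option autoImplicit false

open Finset

namespace Pool.Agent.H.MP_b23ae3_co.Asy

variable {m : ℕ}

/-! ### M4 JLower.lean : many cops are seen when the walk is in the boundary
Proof: the kernel `P^[t] (dl z) w` depends only on `hammingDist z w` (induction on `t`).
If `c x = x + e l` is farther from `z` than `x` (distance `a+1`), it has `a + 1` neighbours at
distance `a`, if it is nearer it has `m - a + 1` such neighbours (kernel at time `t`);
if `c x = x` use time `t + 1`: each neighbour `w` of `x` has kernel at least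
`(a+1)/m` (up) or `(m-a+1)/m` (down) times the kernel of `x` at time `t`, in all
`2a(m-a)/m ≥ min a (m-a)`.
-/

theorem jlow_dist_add (z x : Cube m) (i : Fin m) :
    hammingDist z (x + e i) = if z i = x i then hammingDist z x + 1 else hammingDist z x - 1 := by
  have h2 : ∀ a b : ZMod 2, a ≠ b → a = b + 1 := by decide
  have h3 : ∀ a : ZMod 2, a ≠ a + 1 := by decide
  unfold hammingDist
  have hne : ∀ j, j ≠ i → (x + e i) j = x j := by
    intro j hj
    rw [Pi.add_apply]
    unfold e
    rw [Pi.single_eq_of_ne hj, add_zero]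
  have hi : (x + e i) i = x i + 1 := by
    rw [Pi.add_apply]
    unfold e
    rw [Pi.single_eq_same]
  split_ifs with h
  · have h4 : univ.filter (fun j => z j ≠ (x + e i) j) =
        insert i (univ.filter (fun j => z j ≠ x j)) := by
      ext j
      rw [Finset.mem_filter, Finset.mem_insert, Finset.mem_filter]
      by_cases hj : j = i
      · subst hj
        rw [hi, h]
        simp [h3 (x j)]
      · rw [hne j hj]
        simp [hj]
    rw [h4, Finset.card_insert_of_notMem]
    rw [Finset.mem_filter]
    exact fun hh => hh.2 h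
  · have h4 : univ.filter (fun j => z j ≠ (x + e i) j) =
        (univ.filter (fun j => z j ≠ x j)).erase i := by
      ext j
      rw [Finset.mem_filter, Finset.mem_erase, Finset.mem_filter]
      by_cases hj : j = i
      · subst hj
        rw [hi]
        simp [← h2 (z j) (x j) h]
      · rw [hne j hj]
        simp [hj]
    rw [h4, Finset.card_erase_of_mem]
    exact Finset.mem_filter.2 ⟨Finset.mem_univ _, h⟩

theorem jlow_dist_le (z x : Cube m) : hammingDist z x ≤ m := by
  have := hammingDist_le_card_fintype (x := z) (y := x)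
  rwa [Fintype.card_fin] at this

theorem jlow_sum_nb (g : ℕ → ℝ) (z x : Cube m) :
    ∑ i, g (hammingDist z (x + e i)) =
      ((m - hammingDist z x : ℕ) : ℝ) * g (hammingDist z x + 1)
        + (hammingDist z x : ℝ) * g (hammingDist z x - 1) := by
  have h1 : ∀ i : Fin m, g (hammingDist z (x + e i)) =
      if z i = x i then g (hammingDist z x + 1) else g (hammingDist z x - 1) := by
    intro i
    rw [jlow_dist_add]
    split_ifs <;> rfl
  rw [Finset.sum_congr rfl fun i _ => h1 i, Finset.sum_ite, Finset.sum_const, Finset.sum_const,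
    nsmul_eq_mul, nsmul_eq_mul]
  have h2 : (univ.filter (fun i => ¬ z i = x i)).card = hammingDist z x := rfl
  have h3 : (univ.filter (fun i => z i = x i)).card = m - hammingDist z x := by
    have h4 := Finset.card_filter_add_card_filter_not (s := (univ : Finset (Fin m)))
      (fun i => z i = x i)
    rw [Finset.card_univ, Fintype.card_fin, h2] at h4
    omega
  rw [h2, h3]

/-- the heat kernel at distance `a` -/
noncomputable def kap (m : ℕ) : ℕ → ℕ → ℝ
  | 0, a => if a = 0 then 1 else 0
  | t + 1, a => (((m - a : ℕ) : ℝ) * kap m t (a + 1) + (a : ℝ) * kap m t (a - 1)) / m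

theorem kap_nonneg (t : ℕ) : ∀ a, 0 ≤ kap m t a := by
  induction t with
  | zero => intro a; unfold kap; split_ifs <;> norm_num
  | succ t ih =>
    intro a
    unfold kap
    have h1 := ih (a + 1)
    have h2 := ih (a - 1)
    positivity

theorem kap_kernel (t : ℕ) (z w : Cube m) : (P^[t] (dl z)) w = kap m t (hammingDist z w) := by
  induction t generalizing w with
  | zero =>
    show (if w = z then (1 : ℝ) else 0) = if hammingDist z w = 0 then 1 else 0
    by_cases h : w = z
    · rw [if_pos h, if_pos]
      rw [h]; exact hammingDist_self z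
    · rw [if_neg h, if_neg]
      intro h2
      exact h (hammingDist_eq_zero.1 h2).symm
  | succ t ih =>
    rw [Function.iterate_succ_apply']
    show (∑ i, (P^[t] (dl z)) (w + e i)) / m = _
    simp only [ih]
    rw [jlow_sum_nb (kap m t) z w]
    rfl

theorem jlow_near_sum (F : Cube m → ℝ) (y : Cube m) :
    ∑ w, (if Near y w then F w else 0) = F y + ∑ i, F (y + e i) := by
  have h1 : ∀ w, (if Near y w then F w else 0) =
      (if w = y then F w else 0) + ∑ i, (if w = y + e i then F w else 0) := by
    intro w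
    by_cases h : w = y
    · rw [if_pos (show Near y w from Or.inl h), if_pos h, Finset.sum_eq_zero, add_zero]
      intro i _
      rw [if_neg]
      rw [h]
      intro h2
      exact e_ne_zero i (by simpa using h2.symm)
    · by_cases h2 : ∃ i, w = y + e i
      · obtain ⟨i, hi⟩ := h2
        rw [if_pos (show Near y w from Or.inr ⟨i, hi⟩), if_neg h, zero_add, Finset.sum_eq_single i]
        · rw [if_pos hi]
        · intro j _ hj
          rw [if_neg]
          intro h3
          rw [hi] at h3
          exact hj (e_injective (add_left_cancel h3)).symm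
        · intro h3; exact absurd (Finset.mem_univ i) h3
      · rw [if_neg (by rintro (h3 | h3); exacts [h h3, h2 h3]), if_neg h, zero_add,
          Finset.sum_eq_zero]
        intro i _
        rw [if_neg]
        intro h3
        exact h2 ⟨i, h3⟩
  simp only [h1, Finset.sum_add_distrib]
  rw [Finset.sum_comm]
  simp only [Finset.sum_ite_eq', Finset.sum_ite_eq, Finset.mem_univ, if_true]

/-- the inequality for one guard -/
theorem jlow_one (hm : 0 < m) (t : ℕ) (z x y : Cube m) (hxy : Near x y) :
    kap m t (hammingDist z x) * min (hammingDist z x : ℝ) ((m : ℝ) - hammingDist z x) ≤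
      ∑ w, (if Near y w then kap m t (hammingDist z w) + kap m (t + 1) (hammingDist z w)
        else 0) := by
  have hm' : (0 : ℝ) < m := by exact_mod_cast hm
  rw [jlow_near_sum (fun w => kap m t (hammingDist z w) + kap m (t + 1) (hammingDist z w)) y]
  rw [Finset.sum_add_distrib, jlow_sum_nb (kap m t) z y, jlow_sum_nb (kap m (t + 1)) z y]
  have ha := jlow_dist_le z x
  have hb := jlow_dist_le z y
  have k0 := kap_nonneg (m := m) t
  have k1 := kap_nonneg (m := m) (t + 1)
  rcases hxy with h | ⟨l, h⟩
  · -- the guard stands on the vertex itself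
    subst h
    obtain ⟨a, haa⟩ : ∃ a, a = hammingDist z y := ⟨_, rfl⟩
    rw [← haa] at ha hb ⊢
    have hcast : ((m - a : ℕ) : ℝ) = (m : ℝ) - a := by rw [Nat.cast_sub ha]
    have har : (a : ℝ) ≤ m := by exact_mod_cast ha
    have ha0 : (0 : ℝ) ≤ a := Nat.cast_nonneg _
    have h1 : ((a : ℝ) + 1) * kap m t a / m ≤ kap m (t + 1) (a + 1) := by
      show _ ≤ (((m - (a + 1) : ℕ) : ℝ) * kap m t (a + 1 + 1)
        + ((a + 1 : ℕ) : ℝ) * kap m t (a + 1 - 1)) / m
      apply div_le_div_of_nonneg_right _ hm'.le
      have h3 := mul_nonneg (Nat.cast_nonneg (α := ℝ) (m - (a + 1))) (k0 (a + 1 + 1))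
      have h4 : a + 1 - 1 = a := by omega
      rw [h4]
      push_cast
      linarith
    have h2 : (a : ℝ) * (((m : ℝ) - a) * kap m t a / m) ≤ (a : ℝ) * kap m (t + 1) (a - 1) := by
      rcases Nat.eq_zero_or_pos a with h0 | h0
      · rw [h0]; simp
      · apply mul_le_mul_of_nonneg_left _ ha0
        show _ ≤ (((m - (a - 1) : ℕ) : ℝ) * kap m t (a - 1 + 1)
          + ((a - 1 : ℕ) : ℝ) * kap m t (a - 1 - 1)) / m
        apply div_le_div_of_nonneg_right _ hm'.le
        have h3 := mul_nonneg (Nat.cast_nonneg (α := ℝ) (a - 1)) (k0 (a - 1 - 1))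
        have h4 : a - 1 + 1 = a := by omega
        rw [h4]
        have h5 : (m : ℝ) - a ≤ ((m - (a - 1) : ℕ) : ℝ) := by
          rw [← hcast]
          exact_mod_cast (by omega : m - a ≤ m - (a - 1))
        have h6 := mul_le_mul_of_nonneg_right h5 (k0 a)
        linarith
    have h3 : ((m : ℝ) - a) * (((a : ℝ) + 1) * kap m t a / m) ≤
        ((m : ℝ) - a) * kap m (t + 1) (a + 1) :=
      mul_le_mul_of_nonneg_left h1 (by linarith)
    have h4 : kap m t a * min (a : ℝ) ((m : ℝ) - a) ≤
        ((m : ℝ) - a) * (((a : ℝ) + 1) * kap m t a / m)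
          + (a : ℝ) * (((m : ℝ) - a) * kap m t a / m) := by
      have h5 : ((m : ℝ) - a) * (((a : ℝ) + 1) * kap m t a / m)
          + (a : ℝ) * (((m : ℝ) - a) * kap m t a / m) =
          (((m : ℝ) - a) * (2 * a + 1) * kap m t a) / m := by
        field_simp
        ring
      rw [h5, le_div_iff₀ hm']
      have h6 : min (a : ℝ) ((m : ℝ) - a) * m ≤ ((m : ℝ) - a) * (2 * a + 1) := by
        rcases le_total (a : ℝ) ((m : ℝ) - a) with h7 | h7
        · rw [min_eq_left h7]; nlinarith
        · rw [min_eq_right h7]; nlinarith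
      have h7 := mul_le_mul_of_nonneg_left h6 (k0 a)
      nlinarith
    rw [hcast]
    have p1 := k0 a
    have p2 := k1 a
    have p3 := mul_nonneg (sub_nonneg.2 har) (k0 (a + 1))
    have p4 := mul_nonneg ha0 (k0 (a - 1))
    linarith
  · -- the guard stands on a neighbour
    obtain ⟨a, haa⟩ : ∃ a, a = hammingDist z x := ⟨_, rfl⟩
    obtain ⟨b, hbb⟩ : ∃ b, b = hammingDist z y := ⟨_, rfl⟩
    have hab : b = if z l = x l then a + 1 else a - 1 := by
      rw [hbb, haa, h]
      exact jlow_dist_add z x l
    have hpos : ¬ z l = x l → 1 ≤ a := by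
      intro hne
      rw [haa]
      have : l ∈ univ.filter (fun i => z i ≠ x i) :=
        Finset.mem_filter.2 ⟨Finset.mem_univ _, hne⟩
      exact Finset.card_pos.2 ⟨l, this⟩
    rw [← haa] at ha ⊢
    rw [← hbb] at hb ⊢
    have har : (a : ℝ) ≤ m := by exact_mod_cast ha
    have ha0 : (0 : ℝ) ≤ a := Nat.cast_nonneg _
    have p1 := k0 b
    have p2 := k1 b
    have p3 := mul_nonneg (Nat.cast_nonneg (α := ℝ) (m - b)) (k0 (b + 1))
    have p4 := mul_nonneg (Nat.cast_nonneg (α := ℝ) b) (k0 (b - 1))
    have p5 := mul_nonneg (Nat.cast_nonneg (α := ℝ) (m - b)) (k1 (b + 1))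
    have p6 := mul_nonneg (Nat.cast_nonneg (α := ℝ) b) (k1 (b - 1))
    split_ifs at hab with hz
    · have h1 : b - 1 = a := by omega
      rw [h1] at p4 p6 ⊢
      have h2 : kap m t a * min (a : ℝ) ((m : ℝ) - a) ≤ (b : ℝ) * kap m t a := by
        rw [mul_comm]
        apply mul_le_mul_of_nonneg_right _ (k0 a)
        refine (min_le_left _ _).trans ?_
        exact_mod_cast (by omega : a ≤ b)
      linarith
    · have h0 := hpos hz
      have h1 : b + 1 = a := by omega
      rw [h1] at p3 p5 ⊢
      have h2 : kap m t a * min (a : ℝ) ((m : ℝ) - a) ≤ ((m - b : ℕ) : ℝ) * kap m t a := by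
        rw [mul_comm]
        apply mul_le_mul_of_nonneg_right _ (k0 a)
        refine (min_le_right _ _).trans ?_
        rw [← Nat.cast_sub ha]
        exact_mod_cast (by omega : m - a ≤ m - b)
      linarith

theorem J_lower (hm : 0 < m) (t : ℕ) (z : Cube m) (S : Finset (Cube m)) (c : Cube m → Cube m)
    (hc : ∀ x ∈ bd S, Near x (c x)) (jj : Cube m → ℝ)
    (hj : ∀ w, (∑ x ∈ bd S, if Near (c x) w then (1 : ℝ) else 0) ≤ jj w) :
    (P^[t] (fun x => if x ∈ bd S then
      min (hammingDist z x : ℝ) ((m : ℝ) - hammingDist z x) else 0)) z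
      ≤ (P^[t] jj) z + (P^[t + 1] jj) z := by
  rw [Pit_eq_sum _ t z, Pit_eq_sum jj t z, Pit_eq_sum jj (t + 1) z]
  simp only [kap_kernel]
  have h1 : ∑ w, kap m t (hammingDist z w) * (if w ∈ bd S then
      min (hammingDist z w : ℝ) ((m : ℝ) - hammingDist z w) else 0) =
      ∑ x ∈ bd S, kap m t (hammingDist z x) *
        min (hammingDist z x : ℝ) ((m : ℝ) - hammingDist z x) := by
    simp only [mul_ite, mul_zero]
    rw [← Finset.sum_filter]
    congr 1
    ext x
    simp
  rw [h1, ← Finset.sum_add_distrib]
  have h2 : ∑ x ∈ bd S, kap m t (hammingDist z x) *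
      min (hammingDist z x : ℝ) ((m : ℝ) - hammingDist z x) ≤
      ∑ x ∈ bd S, ∑ w, (if Near (c x) w then kap m t (hammingDist z w)
        + kap m (t + 1) (hammingDist z w) else 0) :=
    Finset.sum_le_sum fun x hx => jlow_one hm t z x (c x) (hc x hx)
  refine h2.trans ?_
  rw [Finset.sum_comm]
  refine Finset.sum_le_sum fun w _ => ?_
  have h3 : ∑ x ∈ bd S, (if Near (c x) w then kap m t (hammingDist z w)
      + kap m (t + 1) (hammingDist z w) else 0) =
      (kap m t (hammingDist z w) + kap m (t + 1) (hammingDist z w)) *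
        ∑ x ∈ bd S, (if Near (c x) w then (1 : ℝ) else 0) := by
    rw [Finset.mul_sum]
    refine Finset.sum_congr rfl fun x _ => ?_
    split_ifs <;> ring
  rw [h3, ← add_mul]
  exact mul_le_mul_of_nonneg_left (hj w) (add_nonneg (kap_nonneg _ _) (kap_nonneg _ _))

end Pool.Agent.H.MP_b23ae3_co.Asy
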