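import Pool.Agent.H.MP_b23ae3_co.asy.Base
import Pool.Agent.H.MP_b23ae3_co.asy.JLower
import Pool.Agent.H.MP_b23ae3_co.asy.Escape

set_option autoImplicit false

open Finset

namespace Pool.Agent.H.MP_b23ae3_co.Asy

variable {m : ℕ}

/-! ### M5b Pt.lean : from M4 and M5
-/

theorem p_bound (hm : 2 ≤ m) {t : ℕ} (ht : 1 ≤ t) (z : Cube m) (S : Finset (Cube m))
    (c : Cube m → Cube m) (hc : ∀ x ∈ bd S, Near x (c x)) (jj : Cube m → ℝ)
    (hj : ∀ w, (∑ x ∈ bd S, if Near (c x) w then (1 : ℝ) else 0) ≤ jj w) (L : ℝ) (hL : 1 ≤ L)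
    (h1 : (P^[t] jj) z ≤ L) (h2 : (P^[t + 1] jj) z ≤ L) :
    (P^[t] (ind (bd S))) z ≤ 48 * L / (min t m : ℕ) := by
  have hesc := escape hm ht z
  have hJ := J_lower (by omega) t z S c hc jj hj
  set μ : ℝ := ((min t m : ℕ) : ℝ) with hμ
  have hμ0 : 0 < μ := by rw [hμ]; exact_mod_cast (by omega : 0 < min t m)
  have hpt : ∀ x, ind (bd S) x
      ≤ (if min (hammingDist z x : ℝ) ((m : ℝ) - hammingDist z x) < μ / 8 then (1 : ℝ) else 0)
        + (8 / μ) * (if x ∈ bd S then
          min (hammingDist z x : ℝ) ((m : ℝ) - hammingDist z x) else 0) := by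
    intro x
    have hd : (hammingDist z x : ℝ) ≤ m := by
      have := hammingDist_le_card_fintype (x := z) (y := x)
      rw [Fintype.card_fin] at this
      exact_mod_cast this
    have hmin : 0 ≤ min (hammingDist z x : ℝ) ((m : ℝ) - hammingDist z x) :=
      le_min (Nat.cast_nonneg _) (by linarith)
    unfold ind
    by_cases hx : x ∈ bd S
    · rw [if_pos hx, if_pos hx]
      by_cases h : min (hammingDist z x : ℝ) ((m : ℝ) - hammingDist z x) < μ / 8
      · rw [if_pos h]
        have : 0 ≤ 8 / μ * min (hammingDist z x : ℝ) ((m : ℝ) - hammingDist z x) :=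
          mul_nonneg (by positivity) hmin
        linarith
      · rw [if_neg h]
        push Not at h
        have h3 : 8 / μ * (μ / 8) ≤ 8 / μ * min (hammingDist z x : ℝ)
          ((m : ℝ) - hammingDist z x) := mul_le_mul_of_nonneg_left h (by positivity)
        have h4 : 8 / μ * (μ / 8) = 1 := by field_simp
        linarith
    · rw [if_neg hx, if_neg hx]
      split_ifs <;> norm_num
  refine (Pit_mono hpt t z).trans ?_
  rw [Pit_add, Pit_smul]
  have h3 : 8 / μ * (P^[t] (fun x => if x ∈ bd S then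
      min (hammingDist z x : ℝ) ((m : ℝ) - hammingDist z x) else 0)) z ≤ 8 / μ * (2 * L) :=
    mul_le_mul_of_nonneg_left (by linarith) (by positivity)
  have h4 : 48 * L / μ = 32 * L / μ + 8 / μ * (2 * L) := by field_simp; ring
  have h5 : 32 / μ ≤ 32 * L / μ := div_le_div_of_nonneg_right (by linarith) hμ0.le
  rw [h4]
  exact add_le_add (hesc.trans h5) h3

end Pool.Agent.H.MP_b23ae3_co.Asy
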