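import Pool.Agent.H.MP_b23ae3_co.asy.Base

set_option autoImplicit false

open Finset

namespace Pool.Agent.H.MP_b23ae3_co.Asy

variable {m : ℕ}

/-! ### M2 Sharp.lean : insertion inequality for one threatened set
-/

theorem sharp_al_nonneg (A : Finset (Cube m)) (z : Cube m) (t : ℕ) :
    ∀ w, 0 ≤ al A z t w := by
  induction t with
  | zero => intro w; simp only [al, dl]; split_ifs <;> norm_num
  | succ t ih =>
    intro w
    simp only [al]
    split_ifs
    · exact P_nonneg ih w
    · exact le_refl _

theorem sharp_al_succ {A : Finset (Cube m)} {z w : Cube m} {t : ℕ} (hw : w ∈ A) :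
    al A z (t + 1) w = P (al A z t) w := by
  simp only [al, hw, if_true]

theorem sharp_al_zero_of_not_mem {A : Finset (Cube m)} {z w : Cube m} (hz : z ∈ A) {t : ℕ}
    (hw : w ∉ A) : al A z t w = 0 := by
  cases t with
  | zero =>
    simp only [al, dl]
    rw [if_neg]
    rintro rfl
    exact hw hz
  | succ t => simp only [al, hw, if_false]

/-- expected length of the current run in `S` -/
noncomputable def sharpR (S : Finset (Cube m)) (a : ℕ → Cube m → ℝ) : ℕ → Cube m → ℝ
  | 0 => fun y => if y ∈ S then a 0 y else 0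
  | t + 1 => fun y => if y ∈ S then a (t + 1) y + P (sharpR S a t) y else 0

/-- the same, with the direction `l` not used since the beginning -/
noncomputable def sharpL (S : Finset (Cube m)) (a : ℕ → Cube m → ℝ) (l : Fin m) :
    ℕ → Cube m → ℝ
  | 0 => fun y => if y ∈ S then a 0 y else 0
  | t + 1 => fun y => if y ∈ S then
      a (t + 1) y + (∑ i ∈ univ.erase l, sharpL S a l t (y + e i)) / m else 0

theorem sharpR_not_mem {S : Finset (Cube m)} {a : ℕ → Cube m → ℝ} {t : ℕ} {y : Cube m}
    (hy : y ∉ S) : sharpR S a t y = 0 := by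
  cases t <;> simp only [sharpR, hy, if_false]

theorem sharpL_not_mem {S : Finset (Cube m)} {a : ℕ → Cube m → ℝ} {l : Fin m} {t : ℕ}
    {y : Cube m} (hy : y ∉ S) : sharpL S a l t y = 0 := by
  cases t <;> simp only [sharpL, hy, if_false]

theorem sharpR_nonneg {S : Finset (Cube m)} {a : ℕ → Cube m → ℝ} (ha : ∀ t w, 0 ≤ a t w)
    (t : ℕ) : ∀ y, 0 ≤ sharpR S a t y := by
  induction t with
  | zero => intro y; simp only [sharpR]; split_ifs <;> simp [ha]
  | succ t ih =>
    intro y
    simp only [sharpR]
    split_ifs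
    · exact add_nonneg (ha _ _) (P_nonneg ih y)
    · exact le_refl _

theorem sharpR_le (S : Finset (Cube m)) (z : Cube m) (t : ℕ) :
    ∀ y, sharpR S (al (S ∪ bd S) z) t y ≤ (t + 1) * al (S ∪ bd S) z t y := by
  induction t with
  | zero =>
    intro y
    simp only [sharpR]
    split_ifs
    · simp
    · have := sharp_al_nonneg (S ∪ bd S) z 0 y
      simpa using this
  | succ t ih =>
    intro y
    by_cases hy : y ∈ S
    · simp only [sharpR, hy, if_true]
      have h1 := P_mono ih y
      rw [P_smul] at h1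
      rw [sharp_al_succ (mem_union_left _ hy)]
      push_cast
      linarith
    · rw [sharpR_not_mem hy]
      have := sharp_al_nonneg (S ∪ bd S) z (t + 1) y
      positivity

theorem sharpL_insert (S : Finset (Cube m)) (z : Cube m) (l : Fin m) (t : ℕ) :
    ∀ y ∈ S, sharpL S (al (S ∪ bd S) z) l t y / m ≤ al (S ∪ bd S) z (t + 1) (y + e l) := by
  induction t with
  | zero =>
    intro y hy
    rw [sharp_al_succ (add_e_mem hy l)]
    simp only [sharpL, hy, if_true, P]
    apply div_le_div_of_nonneg_right _ (Nat.cast_nonneg _)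
    have h := Finset.single_le_sum (f := fun i => al (S ∪ bd S) z 0 (y + e l + e i))
      (fun i _ => sharp_al_nonneg _ _ _ _) (mem_univ l)
    simp only [add_e_add_e] at h
    exact h
  | succ t ih =>
    intro y hy
    rw [sharp_al_succ (add_e_mem hy l)]
    simp only [sharpL, hy, if_true, P]
    apply div_le_div_of_nonneg_right _ (Nat.cast_nonneg _)
    rw [← Finset.add_sum_erase _ _ (mem_univ l), add_e_add_e, Finset.sum_div]
    gcongr with i hi
    have e1 : y + e l + e i = y + e i + e l := by ring
    rw [e1]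
    by_cases h : y + e i ∈ S
    · exact ih _ h
    · rw [sharpL_not_mem h, zero_div]
      exact sharp_al_nonneg _ _ _ _

/-- the previous time -/
noncomputable def sharpB (a : ℕ → Cube m → ℝ) : ℕ → Cube m → ℝ
  | 0 => fun _ => 0
  | t + 1 => a t

theorem sharp_delete (S : Finset (Cube m)) (z : Cube m) (l : Fin m) (t : ℕ) :
    ∀ y ∈ S, sharpR S (al (S ∪ bd S) z) t y ≤ sharpL S (al (S ∪ bd S) z) l t y
      + (t : ℝ) ^ 2 / m * sharpB (al (S ∪ bd S) z) t (y + e l) := by
  have hm0 : (0 : ℝ) ≤ m := Nat.cast_nonneg _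
  induction t with
  | zero => intro y hy; simp [sharpR, sharpL, sharpB]
  | succ t ih =>
    intro y hy
    have hB : ∀ w, 0 ≤ sharpB (al (S ∪ bd S) z) t w := by
      intro w
      cases t with
      | zero => exact le_refl _
      | succ t => exact sharp_al_nonneg _ _ _ _
    simp only [sharpR, sharpL, hy, if_true, P]
    rw [← Finset.add_sum_erase _ _ (mem_univ l)]
    have h1 : sharpR S (al (S ∪ bd S) z) t (y + e l)
        ≤ (t + 1) * al (S ∪ bd S) z t (y + e l) := sharpR_le S z t _
    have h2 : ∑ i ∈ univ.erase l, sharpR S (al (S ∪ bd S) z) t (y + e i)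
        ≤ ∑ i ∈ univ.erase l, (sharpL S (al (S ∪ bd S) z) l t (y + e i)
          + (t : ℝ) ^ 2 / m * sharpB (al (S ∪ bd S) z) t (y + e l + e i)) := by
      apply Finset.sum_le_sum
      intro i _
      have e1 : y + e l + e i = y + e i + e l := by ring
      rw [e1]
      by_cases h : y + e i ∈ S
      · exact ih _ h
      · rw [sharpR_not_mem h, sharpL_not_mem h, zero_add]
        exact mul_nonneg (by positivity) (hB _)
    have h3 : (t : ℝ) ^ 2 / m * ((∑ i ∈ univ.erase l,
        sharpB (al (S ∪ bd S) z) t (y + e l + e i)) / m)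
        ≤ (t : ℝ) ^ 2 / m * al (S ∪ bd S) z t (y + e l) := by
      cases t with
      | zero => simp
      | succ t =>
        apply mul_le_mul_of_nonneg_left _ (by positivity)
        rw [sharp_al_succ (add_e_mem hy l)]
        simp only [sharpB, P]
        apply div_le_div_of_nonneg_right _ hm0
        exact Finset.sum_le_sum_of_subset_of_nonneg (erase_subset _ _)
          fun i _ _ => sharp_al_nonneg _ _ _ _
    rw [Finset.sum_add_distrib, ← Finset.mul_sum] at h2
    have ha := sharp_al_nonneg (S ∪ bd S) z t (y + e l)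
    show al (S ∪ bd S) z (t + 1) y + _ ≤ al (S ∪ bd S) z (t + 1) y + _
      + ((t + 1 : ℕ) : ℝ) ^ 2 / m * al (S ∪ bd S) z t (y + e l)
    have h4 : (sharpR S (al (S ∪ bd S) z) t (y + e l)
        + ∑ i ∈ univ.erase l, sharpR S (al (S ∪ bd S) z) t (y + e i)) / m
        ≤ ((t + 1) * al (S ∪ bd S) z t (y + e l)
          + (∑ i ∈ univ.erase l, sharpL S (al (S ∪ bd S) z) l t (y + e i)
          + (t : ℝ) ^ 2 / m * ∑ i ∈ univ.erase l,
            sharpB (al (S ∪ bd S) z) t (y + e l + e i))) / m :=
      div_le_div_of_nonneg_right (add_le_add h1 h2) hm0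
    have h5 : ((t + 1) * al (S ∪ bd S) z t (y + e l)
          + (∑ i ∈ univ.erase l, sharpL S (al (S ∪ bd S) z) l t (y + e i)
          + (t : ℝ) ^ 2 / m * ∑ i ∈ univ.erase l,
            sharpB (al (S ∪ bd S) z) t (y + e l + e i))) / m
        = (∑ i ∈ univ.erase l, sharpL S (al (S ∪ bd S) z) l t (y + e i)) / m
          + (t + 1) / m * al (S ∪ bd S) z t (y + e l)
          + (t : ℝ) ^ 2 / m * ((∑ i ∈ univ.erase l,
            sharpB (al (S ∪ bd S) z) t (y + e l + e i)) / m) := by ring
    have h6 : ((t + 1 : ℕ) : ℝ) ^ 2 / m * al (S ∪ bd S) z t (y + e l)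
        = (t : ℝ) ^ 2 / m * al (S ∪ bd S) z t (y + e l)
          + (t + 1) / m * al (S ∪ bd S) z t (y + e l)
          + t / m * al (S ∪ bd S) z t (y + e l) := by
      push_cast; ring
    have h7 : 0 ≤ (t : ℝ) / m * al (S ∪ bd S) z t (y + e l) := by positivity
    rw [h5] at h4
    rw [h6]
    linarith

/-- mass of the closed neighbourhood -/
noncomputable def sharpN (a : Cube m → ℝ) (v : Cube m) : ℝ := a v + ∑ i, a (v + e i)

theorem sharpN_eq (a : Cube m → ℝ) (v : Cube m) :
    ∑ w, (if Near v w then a w else 0) = sharpN a v := by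
  rw [← Finset.sum_filter]
  have h : univ.filter (fun w => Near v w) = insert v (univ.image (fun i => v + e i)) := by
    ext w
    simp only [mem_filter, mem_univ, true_and, mem_insert, mem_image, Near]
    constructor
    · rintro (h | ⟨i, h⟩)
      · exact Or.inl h
      · exact Or.inr ⟨i, h.symm⟩
    · rintro (h | ⟨i, h⟩)
      · exact Or.inl h
      · exact Or.inr ⟨i, h.symm⟩
  rw [h, Finset.sum_insert, Finset.sum_image]
  · rfl
  · intro i _ j _ hij
    exact e_injective (add_left_cancel hij)
  · simp only [mem_image, mem_univ, true_and, not_exists]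
    intro i hi
    exact e_ne_zero i (by simpa using hi)

theorem sharp_step (S : Finset (Cube m)) (z : Cube m) {x : Cube m}
    {v : Cube m} (hv : Near x v) (t : ℕ) :
    P (sharpR S (al (S ∪ bd S) z) t) x ≤
      (sharpN (al (S ∪ bd S) z (t + 1)) v - al (S ∪ bd S) z (t + 1) x)
      + (t : ℝ) ^ 2 / m / m * sharpN (sharpB (al (S ∪ bd S) z) t) v
      + (t + 1) / m * sharpN (al (S ∪ bd S) z t) v := by
  have hm0 : (0 : ℝ) ≤ m := Nat.cast_nonneg _
  have hB : ∀ w, 0 ≤ sharpB (al (S ∪ bd S) z) t w := by
    intro w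
    cases t with
    | zero => exact le_refl _
    | succ t => exact sharp_al_nonneg _ _ _ _
  have hBN : 0 ≤ sharpN (sharpB (al (S ∪ bd S) z) t) v :=
    add_nonneg (hB _) (Finset.sum_nonneg fun i _ => hB _)
  rcases hv with rfl | ⟨l, rfl⟩
  · have h1 : P (sharpR S (al (S ∪ bd S) z) t) v
        ≤ (t + 1) / m * sharpN (al (S ∪ bd S) z t) v := by
      simp only [P, sharpN]
      have h2 : ∑ i, sharpR S (al (S ∪ bd S) z) t (v + e i)
          ≤ (t + 1) * ∑ i, al (S ∪ bd S) z t (v + e i) := by
        rw [Finset.mul_sum]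
        exact Finset.sum_le_sum fun i _ => sharpR_le S z t _
      have h3 := sharp_al_nonneg (S ∪ bd S) z t v
      calc (∑ i, sharpR S (al (S ∪ bd S) z) t (v + e i)) / m
          ≤ ((t + 1) * ∑ i, al (S ∪ bd S) z t (v + e i)) / m :=
            div_le_div_of_nonneg_right h2 hm0
        _ = (t + 1) / m * ∑ i, al (S ∪ bd S) z t (v + e i) := by ring
        _ ≤ (t + 1) / m * (al (S ∪ bd S) z t v + ∑ i, al (S ∪ bd S) z t (v + e i)) := by
            apply mul_le_mul_of_nonneg_left _ (by positivity)
            linarith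
    have h4 : 0 ≤ sharpN (al (S ∪ bd S) z (t + 1)) v - al (S ∪ bd S) z (t + 1) v := by
      simp only [sharpN]
      have : 0 ≤ ∑ i, al (S ∪ bd S) z (t + 1) (v + e i) :=
        Finset.sum_nonneg fun i _ => sharp_al_nonneg _ _ _ _
      linarith
    have h5 : 0 ≤ (t : ℝ) ^ 2 / m / m * sharpN (sharpB (al (S ∪ bd S) z) t) v :=
      mul_nonneg (by positivity) hBN
    linarith
  · -- the guard is `x + e l`
    have h1 : P (sharpR S (al (S ∪ bd S) z) t) x
        = sharpR S (al (S ∪ bd S) z) t (x + e l) / m
          + ∑ i ∈ univ.erase l, sharpR S (al (S ∪ bd S) z) t (x + e i) / m := by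
      simp only [P]
      rw [← Finset.add_sum_erase _ _ (mem_univ l), add_div, Finset.sum_div]
    have h2 : sharpR S (al (S ∪ bd S) z) t (x + e l) / m
        ≤ (t + 1) / m * sharpN (al (S ∪ bd S) z t) (x + e l) := by
      have h3 := sharpR_le S z t (x + e l)
      have h4 : 0 ≤ ∑ i, al (S ∪ bd S) z t (x + e l + e i) :=
        Finset.sum_nonneg fun i _ => sharp_al_nonneg _ _ _ _
      calc sharpR S (al (S ∪ bd S) z) t (x + e l) / m
          ≤ ((t + 1) * al (S ∪ bd S) z t (x + e l)) / m := div_le_div_of_nonneg_right h3 hm0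
        _ = (t + 1) / m * al (S ∪ bd S) z t (x + e l) := by ring
        _ ≤ _ := by
            apply mul_le_mul_of_nonneg_left _ (by positivity)
            simp only [sharpN]
            linarith
    have h3 : ∑ i ∈ univ.erase l, sharpR S (al (S ∪ bd S) z) t (x + e i) / m
        ≤ ∑ i ∈ univ.erase l, (al (S ∪ bd S) z (t + 1) (x + e l + e i)
          + (t : ℝ) ^ 2 / m / m * sharpB (al (S ∪ bd S) z) t (x + e l + e i)) := by
      apply Finset.sum_le_sum
      intro i _
      have e1 : x + e l + e i = x + e i + e l := by ring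
      rw [e1]
      by_cases h : x + e i ∈ S
      · have h4 := sharp_delete S z l t _ h
        have h5 := sharpL_insert S z l t _ h
        have h6 := div_le_div_of_nonneg_right h4 hm0
        rw [add_div] at h6
        have h7 : (t : ℝ) ^ 2 / m * sharpB (al (S ∪ bd S) z) t (x + e i + e l) / m
            = (t : ℝ) ^ 2 / m / m * sharpB (al (S ∪ bd S) z) t (x + e i + e l) := by ring
        rw [h7] at h6
        linarith
      · rw [sharpR_not_mem h, zero_div]
        exact add_nonneg (sharp_al_nonneg _ _ _ _) (mul_nonneg (by positivity) (hB _))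
    rw [Finset.sum_add_distrib, ← Finset.mul_sum] at h3
    have h4 : ∑ i ∈ univ.erase l, al (S ∪ bd S) z (t + 1) (x + e l + e i)
        ≤ sharpN (al (S ∪ bd S) z (t + 1)) (x + e l) - al (S ∪ bd S) z (t + 1) x := by
      simp only [sharpN]
      rw [← Finset.add_sum_erase _ _ (mem_univ l), add_e_add_e]
      have := sharp_al_nonneg (S ∪ bd S) z (t + 1) (x + e l)
      linarith
    have h5 : (t : ℝ) ^ 2 / m / m * ∑ i ∈ univ.erase l,
          sharpB (al (S ∪ bd S) z) t (x + e l + e i)
        ≤ (t : ℝ) ^ 2 / m / m * sharpN (sharpB (al (S ∪ bd S) z) t) (x + e l) := by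
      apply mul_le_mul_of_nonneg_left _ (by positivity)
      simp only [sharpN]
      have h6 := Finset.sum_le_sum_of_subset_of_nonneg
        (f := fun i => sharpB (al (S ∪ bd S) z) t (x + e l + e i))
        (erase_subset l univ) fun i _ _ => hB _
      have := hB (x + e l)
      linarith
    rw [h1]
    linarith

/-- balance of the runs -/
theorem sharp_balance (hm : 0 < m) (S : Finset (Cube m)) (z : Cube m) (K : ℕ) :
    ∑ t ∈ range (K + 1), ∑ w ∈ S, al (S ∪ bd S) z t w
      = ∑ t ∈ range K, ∑ x ∈ bd S, P (sharpR S (al (S ∪ bd S) z) t) x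
        + ∑ y, sharpR S (al (S ∪ bd S) z) K y := by
  induction K with
  | zero =>
    simp only [zero_add, range_one, sum_singleton, range_zero, sum_empty, sharpR]
    rw [← Finset.sum_filter]
    simp
  | succ K ih =>
    rw [Finset.sum_range_succ, ih, Finset.sum_range_succ (n := K)]
    have h1 : ∑ y, sharpR S (al (S ∪ bd S) z) (K + 1) y
        = ∑ y ∈ S, al (S ∪ bd S) z (K + 1) y
          + ∑ y ∈ S, P (sharpR S (al (S ∪ bd S) z) K) y := by
      simp only [sharpR]
      rw [← Finset.sum_filter, ← Finset.sum_add_distrib]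
      simp
    have h2 : ∑ y, P (sharpR S (al (S ∪ bd S) z) K) y
        = ∑ y ∈ S, P (sharpR S (al (S ∪ bd S) z) K) y
          + ∑ x ∈ bd S, P (sharpR S (al (S ∪ bd S) z) K) x := by
      rw [← Finset.sum_union]
      · symm
        apply Finset.sum_subset (subset_univ _)
        intro x _ hx
        simp only [P]
        rw [Finset.sum_eq_zero, zero_div]
        intro i _
        apply sharpR_not_mem
        intro h
        apply hx
        have := add_e_mem h i
        rwa [add_e_add_e] at this
      · rw [Finset.disjoint_left]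
        intro x h3 h4
        exact (mem_bd.1 h4).1 h3
    rw [sum_P hm] at h2
    rw [h1]
    linarith

theorem sharp (hm : 0 < m) {K : ℕ} (hK : K ≤ m) (S : Finset (Cube m)) {z : Cube m} (hz : z ∈ S)
    (c : Cube m → Cube m) (hc : ∀ x ∈ bd S, Near x (c x)) :
    ∑ t ∈ range (K + 1), ∑ w, al (S ∪ bd S) z t w ≤
      (1 + 2 * K / m) * (∑ t ∈ range (K + 1), ∑ x ∈ bd S, ∑ w,
        if Near (c x) w then al (S ∪ bd S) z t w else 0)
      + (K + 1) * ∑ w ∈ S, al (S ∪ bd S) z K w := by
  have hm0 : (0 : ℝ) < m := by exact_mod_cast hm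
  have hdis : Disjoint S (bd S) := by
    rw [Finset.disjoint_left]
    intro x h3 h4
    exact (mem_bd.1 h4).1 h3
  have hzA : z ∈ S ∪ bd S := mem_union_left _ hz
  have htot : ∀ t, ∑ w, al (S ∪ bd S) z t w
      = ∑ w ∈ S, al (S ∪ bd S) z t w + ∑ w ∈ bd S, al (S ∪ bd S) z t w := by
    intro t
    rw [← Finset.sum_union hdis]
    symm
    apply Finset.sum_subset (subset_univ _)
    intro x _ hx
    exact sharp_al_zero_of_not_mem hzA hx
  simp only [htot, sharpN_eq, Finset.sum_add_distrib]
  rw [sharp_balance hm]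
  have hNn : ∀ t v, 0 ≤ sharpN (al (S ∪ bd S) z t) v := fun t v =>
    add_nonneg (sharp_al_nonneg _ _ _ _) (Finset.sum_nonneg fun i _ => sharp_al_nonneg _ _ _ _)
  have hlast : ∑ y, sharpR S (al (S ∪ bd S) z) K y
      ≤ (K + 1) * ∑ w ∈ S, al (S ∪ bd S) z K w := by
    rw [Finset.mul_sum]
    have h1 : ∑ y, sharpR S (al (S ∪ bd S) z) K y
        = ∑ y ∈ S, sharpR S (al (S ∪ bd S) z) K y := by
      symm
      apply Finset.sum_subset (subset_univ _)
      intro x _ hx
      exact sharpR_not_mem hx
    rw [h1]
    exact Finset.sum_le_sum fun y _ => sharpR_le S z K y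
  -- the main sum
  have hx : ∀ x ∈ bd S, ∑ t ∈ range K, P (sharpR S (al (S ∪ bd S) z) t) x
      + ∑ t ∈ range (K + 1), al (S ∪ bd S) z t x
      ≤ (1 + 2 * K / m) * ∑ t ∈ range (K + 1), sharpN (al (S ∪ bd S) z t) (c x) := by
    intro x hxb
    have hx0 : al (S ∪ bd S) z 0 x = 0 := by
      simp only [al, dl]
      rw [if_neg]
      rintro rfl
      exact (mem_bd.1 hxb).1 hz
    set G := ∑ t ∈ range (K + 1), sharpN (al (S ∪ bd S) z t) (c x) with hG
    have h1 : ∑ t ∈ range K, P (sharpR S (al (S ∪ bd S) z) t) x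
        ≤ ∑ t ∈ range K, ((sharpN (al (S ∪ bd S) z (t + 1)) (c x)
            - al (S ∪ bd S) z (t + 1) x)
          + (t : ℝ) ^ 2 / m / m * sharpN (sharpB (al (S ∪ bd S) z) t) (c x)
          + (t + 1) / m * sharpN (al (S ∪ bd S) z t) (c x)) :=
      Finset.sum_le_sum fun t _ => sharp_step S z (hc x hxb) t
    rw [Finset.sum_add_distrib, Finset.sum_add_distrib, Finset.sum_sub_distrib] at h1
    have h2 : ∑ t ∈ range K, sharpN (al (S ∪ bd S) z (t + 1)) (c x) ≤ G := by
      rw [hG, Finset.sum_range_succ']
      have := hNn 0 (c x)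
      linarith
    have h3 : ∑ t ∈ range (K + 1), al (S ∪ bd S) z t x
        = ∑ t ∈ range K, al (S ∪ bd S) z (t + 1) x := by
      rw [Finset.sum_range_succ', hx0, add_zero]
    have hKm : (K : ℝ) / m ≤ 1 := by
      rw [div_le_one hm0]
      exact_mod_cast hK
    have h4 : ∑ t ∈ range K, (t + 1) / m * sharpN (al (S ∪ bd S) z t) (c x)
        ≤ K / m * G := by
      calc ∑ t ∈ range K, ((t : ℝ) + 1) / m * sharpN (al (S ∪ bd S) z t) (c x)
          ≤ ∑ t ∈ range K, (K : ℝ) / m * sharpN (al (S ∪ bd S) z t) (c x) := by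
            apply Finset.sum_le_sum
            intro t ht
            apply mul_le_mul_of_nonneg_right _ (hNn _ _)
            apply div_le_div_of_nonneg_right _ hm0.le
            have := Finset.mem_range.1 ht
            exact_mod_cast this
        _ = (K : ℝ) / m * ∑ t ∈ range K, sharpN (al (S ∪ bd S) z t) (c x) := by
            rw [Finset.mul_sum]
        _ ≤ K / m * G := by
            apply mul_le_mul_of_nonneg_left _ (by positivity)
            rw [hG, Finset.sum_range_succ]
            have := hNn K (c x)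
            linarith
    have h5 : ∑ t ∈ range K, (t : ℝ) ^ 2 / m / m * sharpN (sharpB (al (S ∪ bd S) z) t) (c x)
        ≤ K / m * G := by
      calc ∑ t ∈ range K, (t : ℝ) ^ 2 / m / m * sharpN (sharpB (al (S ∪ bd S) z) t) (c x)
          ≤ ∑ t ∈ range K, (K : ℝ) / m * sharpN (sharpB (al (S ∪ bd S) z) t) (c x) := by
            apply Finset.sum_le_sum
            intro t ht
            have hBn : 0 ≤ sharpN (sharpB (al (S ∪ bd S) z) t) (c x) := by
              cases t with
              | zero => simp [sharpN, sharpB]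
              | succ t => exact hNn t _
            apply mul_le_mul_of_nonneg_right _ hBn
            have h6 : (t : ℝ) ≤ K := by
              have := Finset.mem_range.1 ht
              exact_mod_cast this.le
            have h7 : (t : ℝ) / m ≤ K / m := div_le_div_of_nonneg_right h6 hm0.le
            have h8 : (t : ℝ) ^ 2 / m / m = (t / m) * (t / m) := by ring
            have h9 : 0 ≤ (t : ℝ) / m := by positivity
            rw [h8]
            calc (t : ℝ) / m * (t / m) ≤ (K / m) * 1 :=
                  mul_le_mul h7 (h7.trans hKm) h9 (by positivity)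
              _ = K / m := mul_one _
        _ = (K : ℝ) / m * ∑ t ∈ range K, sharpN (sharpB (al (S ∪ bd S) z) t) (c x) := by
            rw [Finset.mul_sum]
        _ ≤ K / m * G := by
            apply mul_le_mul_of_nonneg_left _ (by positivity)
            cases K with
            | zero =>
              simp only [range_zero, sum_empty]
              exact Finset.sum_nonneg fun t _ => hNn _ _
            | succ K =>
              rw [Finset.sum_range_succ', hG, Finset.sum_range_succ, Finset.sum_range_succ]
              have h10 := hNn K (c x)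
              have h11 := hNn (K + 1) (c x)
              have h12 : sharpN (sharpB (al (S ∪ bd S) z) 0) (c x) = 0 := by
                simp [sharpN, sharpB]
              rw [h12]
              simp only [sharpB]
              linarith
    have h6 : (1 + 2 * (K : ℝ) / m) * G = G + K / m * G + K / m * G := by ring
    rw [h6, h3]
    linarith
  have hsum := Finset.sum_le_sum hx
  rw [Finset.sum_add_distrib, ← Finset.mul_sum] at hsum
  rw [Finset.sum_comm (s := range K), Finset.sum_comm (s := range (K + 1)) (t := bd S),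
    Finset.sum_comm (s := range (K + 1)) (t := bd S)]
  linarith

end Pool.Agent.H.MP_b23ae3_co.Asy
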