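import Pool.Agent.H.MP_b23ae3_co.asy.Base

set_option autoImplicit false

open Finset

namespace Pool.Agent.H.MP_b23ae3_co.Asy

variable {m : ℕ}

/-! ### M6 IsoSeq.lean : isoperimetry in a product space
Proof by induction on `t` (split off the first coordinate).  `x_i` = density of the section `B_i`,
`q ω = (1/m) #{i' : ω ∈ B_i'}`; for `(i,ω) ∉ B`: `h_B (i,ω) = h_{B_i} ω + q ω`.
`E √(a²+b²) ≥ √((E a)² + (E b)²)`.  With `α_{i'} = (x_{i'} - x_i)^+`, Cauchy-Schwarz gives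
`√(q ω) ≥ (∑ α_{i'} 1{ω ∈ B_{i'}}) / √(m ∑ α²)`, so `E[√q ; ω ∉ B_i] ≥ √(∑ α² / m)`.
So `E[√h ; ∉ B] ≥ (1/m) ∑_i √(ψ(x_i)² + d_i)`, `ψ(x) = 4/5 x (1-x) ≤ 1/5`,
`d_i = (1/m) ∑ α² ≤ 1`, and `√(ψ²+d) ≥ ψ + 4/5 d`; finally
`(1/m) ∑ ψ(x_i) + 4/5 (1/m²) ∑_{i,i'} ((x_{i'}-x_i)^+)² = 4/5 x̄ (1 - x̄)`.
-/

/-- Minkowski in the plane -/
theorem isoseq_mink {ι : Type*} (s : Finset ι) (a b : ι → ℝ) :
    Real.sqrt ((∑ i ∈ s, a i) ^ 2 + (∑ i ∈ s, b i) ^ 2) ≤
      ∑ i ∈ s, Real.sqrt (a i ^ 2 + b i ^ 2) := by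
  obtain ⟨A, hA⟩ : ∃ A : ℝ, A = ∑ i ∈ s, a i := ⟨_, rfl⟩
  obtain ⟨B, hB⟩ : ∃ B : ℝ, B = ∑ i ∈ s, b i := ⟨_, rfl⟩
  rw [← hA, ← hB]
  obtain ⟨N, hN⟩ : ∃ N : ℝ, N = Real.sqrt (A ^ 2 + B ^ 2) := ⟨_, rfl⟩
  rw [← hN]
  have hN0 : 0 ≤ N := by
    rw [hN]
    exact Real.sqrt_nonneg _
  have hN2 : N ^ 2 = A ^ 2 + B ^ 2 := by
    rw [hN]
    exact Real.sq_sqrt (by positivity)
  rcases hN0.eq_or_lt with h0 | h0
  · rw [← h0]
    exact sum_nonneg fun i _ => Real.sqrt_nonneg _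
  · have h1 : ∀ i ∈ s, a i * A + b i * B ≤ Real.sqrt (a i ^ 2 + b i ^ 2) * N := by
      intro i _
      rw [hN, ← Real.sqrt_mul (by positivity)]
      apply Real.le_sqrt_of_sq_le
      nlinarith [sq_nonneg (a i * B - b i * A)]
    have h2 := sum_le_sum h1
    rw [sum_add_distrib, ← sum_mul, ← sum_mul, ← sum_mul, ← hA, ← hB] at h2
    have h3 : N * N ≤ (∑ i ∈ s, Real.sqrt (a i ^ 2 + b i ^ 2)) * N := by
      have e1 : A * A + B * B = N * N := by
        rw [← sq N, hN2]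
        ring
      linarith
    exact le_of_mul_le_mul_right h3 h0

/-- the combination of the two directions -/
theorem isoseq_comb {M SA SB T ψ d : ℝ} (hM : 0 ≤ M) (hψ : 0 ≤ ψ) (hψ1 : ψ ≤ 1 / 5)
    (hd : 0 ≤ d) (hd1 : d ≤ 1) (hA : M * ψ ≤ SA) (hB : M * Real.sqrt d ≤ SB)
    (hT : Real.sqrt (SA ^ 2 + SB ^ 2) ≤ T) : M * (ψ + 4 / 5 * d) ≤ T := by
  refine le_trans ?_ hT
  apply Real.le_sqrt_of_sq_le
  have h1 : (M * ψ) ^ 2 ≤ SA ^ 2 := pow_le_pow_left₀ (by positivity) hA 2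
  have h2 : (M * Real.sqrt d) ^ 2 ≤ SB ^ 2 := pow_le_pow_left₀ (by positivity) hB 2
  have h3 : (M * Real.sqrt d) ^ 2 = M ^ 2 * d := by
    rw [mul_pow, Real.sq_sqrt hd]
  have h4 : (ψ + 4 / 5 * d) ^ 2 ≤ ψ ^ 2 + d := by
    nlinarith [mul_nonneg hd (sub_nonneg.2 hψ1), mul_nonneg hd (sub_nonneg.2 hd1)]
  have h5 : M ^ 2 * (ψ + 4 / 5 * d) ^ 2 ≤ M ^ 2 * (ψ ^ 2 + d) :=
    mul_le_mul_of_nonneg_left h4 (by positivity)
  rw [h3] at h2
  have e1 : (M * (ψ + 4 / 5 * d)) ^ 2 = M ^ 2 * (ψ + 4 / 5 * d) ^ 2 := by ring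
  have e2 : (M * ψ) ^ 2 = M ^ 2 * ψ ^ 2 := by ring
  rw [e1]
  rw [e2] at h1
  linarith

/-- the direction of the first coordinate: `C i` are the sections -/
theorem isoseq_first {Ω : Type*} [Fintype Ω] [DecidableEq Ω] (hm : 0 < m) (C : Fin m → Finset Ω)
    (M : ℝ) (x : Fin m → ℝ) (hx : ∀ i, ((C i).card : ℝ) = M * x i) (i : Fin m) :
    M * Real.sqrt ((∑ j, (max (x j - x i) 0) ^ 2) / m) ≤
      ∑ ω ∈ univ.filter (fun ω => ω ∉ C i),
        Real.sqrt (((univ.filter (fun j => ω ∈ C j)).card : ℝ) / m) := by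
  obtain ⟨α, hα⟩ : ∃ α : Fin m → ℝ, α = fun j => max (x j - x i) 0 := ⟨_, rfl⟩
  have hα0 : ∀ j, 0 ≤ α j := fun j => by
    rw [hα]
    exact le_max_right _ _
  have hα1 : ∀ j, α j * (x j - x i) = α j ^ 2 := fun j => by
    rw [hα]
    show max (x j - x i) 0 * (x j - x i) = (max (x j - x i) 0) ^ 2
    rcases le_total (x j - x i) 0 with h | h
    · rw [max_eq_right h]
      ring
    · rw [max_eq_left h]
      ring
  have hgoal : (∑ j, (max (x j - x i) 0) ^ 2) = ∑ j, α j ^ 2 := by rw [hα]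
  rw [hgoal]
  obtain ⟨S, hS⟩ : ∃ S : ℝ, S = ∑ j, α j ^ 2 := ⟨_, rfl⟩
  rw [← hS]
  have hS0 : 0 ≤ S := by
    rw [hS]
    exact sum_nonneg fun j _ => sq_nonneg _
  have hmR : (0 : ℝ) < m := by exact_mod_cast hm
  rcases hS0.eq_or_lt with h0 | h0
  · rw [← h0, zero_div, Real.sqrt_zero, mul_zero]
    exact sum_nonneg fun ω _ => Real.sqrt_nonneg _
  -- Cauchy-Schwarz at one point
  have hcs : ∀ ω : Ω, ∑ j, α j * (if ω ∈ C j then 1 else 0) ≤
      Real.sqrt (m * S) * Real.sqrt (((univ.filter (fun j => ω ∈ C j)).card : ℝ) / m) := by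
    intro ω
    rw [← Real.sqrt_mul (by positivity)]
    apply Real.le_sqrt_of_sq_le
    have h1 := sum_mul_sq_le_sq_mul_sq univ α (fun j => if ω ∈ C j then (1 : ℝ) else 0)
    refine h1.trans (le_of_eq ?_)
    have h2 : ∑ j : Fin m, (if ω ∈ C j then (1 : ℝ) else 0) ^ 2 =
        ((univ.filter (fun j => ω ∈ C j)).card : ℝ) := by
      rw [← sum_boole]
      refine sum_congr rfl fun j _ => ?_
      split <;> norm_num
    rw [h2, ← hS]
    field_simp
  have hsum : ∑ ω ∈ univ.filter (fun ω => ω ∉ C i), ∑ j, α j * (if ω ∈ C j then (1 : ℝ) else 0) ≤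
      Real.sqrt (m * S) * ∑ ω ∈ univ.filter (fun ω => ω ∉ C i),
        Real.sqrt (((univ.filter (fun j => ω ∈ C j)).card : ℝ) / m) := by
    rw [mul_sum]
    exact sum_le_sum fun ω _ => hcs ω
  have hlow : M * S ≤ ∑ ω ∈ univ.filter (fun ω => ω ∉ C i),
      ∑ j, α j * (if ω ∈ C j then (1 : ℝ) else 0) := by
    rw [sum_comm, hS, mul_sum]
    refine sum_le_sum fun j _ => ?_
    rw [← mul_sum, ← hα1 j]
    have h1 : ∑ ω ∈ univ.filter (fun ω => ω ∉ C i), (if ω ∈ C j then (1 : ℝ) else 0) =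
        ((C j \ C i).card : ℝ) := by
      rw [sum_boole]
      congr 2
      ext ω
      simp only [mem_filter, mem_univ, true_and, mem_sdiff]
      exact and_comm
    rw [h1]
    have h2 : ((C j).card : ℝ) - (C i).card ≤ ((C j \ C i).card : ℝ) := by
      have h3 := le_card_sdiff (C i) (C j)
      have h4 : (C j).card ≤ (C j \ C i).card + (C i).card := by omega
      have h5 : ((C j).card : ℝ) ≤ ((C j \ C i).card : ℝ) + (C i).card := by exact_mod_cast h4
      linarith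
    rw [hx, hx] at h2
    calc M * (α j * (x j - x i)) = α j * (M * x j - M * x i) := by ring
      _ ≤ α j * ((C j \ C i).card : ℝ) := mul_le_mul_of_nonneg_left h2 (hα0 j)
  have hmS : 0 < Real.sqrt (m * S) := Real.sqrt_pos.2 (by positivity)
  have h1 : Real.sqrt (m * S) * (M * Real.sqrt (S / m)) = M * S := by
    have h2 : Real.sqrt (m * S) * Real.sqrt (S / m) = S := by
      rw [← Real.sqrt_mul (by positivity)]
      have h3 : m * S * (S / m) = S ^ 2 := by
        field_simp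
      rw [h3, Real.sqrt_sq hS0]
    calc Real.sqrt (m * S) * (M * Real.sqrt (S / m)) =
          M * (Real.sqrt (m * S) * Real.sqrt (S / m)) := by ring
      _ = M * S := by rw [h2]
  refine le_of_mul_le_mul_left ?_ hmS
  rw [h1]
  exact hlow.trans hsum

/-- the final identity -/
theorem isoseq_alg (hm : 0 < m) (x : Fin m → ℝ) :
    ∑ i, (4 / 5 * x i * (1 - x i) + 4 / 5 * ((∑ j, (max (x j - x i) 0) ^ 2) / m)) =
      m * (4 / 5 * ((∑ i, x i) / m) * (1 - (∑ i, x i) / m)) := by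
  have hmR : (m : ℝ) ≠ 0 := by exact_mod_cast hm.ne'
  have h1 : ∑ i, ∑ j, (max (x j - x i) 0) ^ 2 = m * ∑ i, x i ^ 2 - (∑ i, x i) ^ 2 := by
    have h2 : ∑ i, ∑ j, (max (x j - x i) 0) ^ 2 = ∑ i, ∑ j, (max (x i - x j) 0) ^ 2 := sum_comm
    have h3 : ∀ i j : Fin m, (max (x j - x i) 0) ^ 2 + (max (x i - x j) 0) ^ 2 =
        x i ^ 2 + x j ^ 2 - 2 * (x i * x j) := by
      intro i j
      rcases le_total (x j) (x i) with h | h
      · rw [max_eq_right (by linarith), max_eq_left (by linarith)]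
        ring
      · rw [max_eq_left (by linarith), max_eq_right (by linarith)]
        ring
    have h4 : ∑ i, ∑ j, (max (x j - x i) 0) ^ 2 + ∑ i, ∑ j, (max (x i - x j) 0) ^ 2 =
        2 * (m * ∑ i, x i ^ 2 - (∑ i, x i) ^ 2) := by
      rw [← sum_add_distrib]
      have h5 : ∀ i, ∑ j, (max (x j - x i) 0) ^ 2 + ∑ j, (max (x i - x j) 0) ^ 2 =
          m * x i ^ 2 + ∑ j, x j ^ 2 - 2 * (x i * ∑ j, x j) := by
        intro i
        rw [← sum_add_distrib, sum_congr rfl fun j _ => h3 i j, sum_sub_distrib, sum_add_distrib,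
          sum_const, card_univ, Fintype.card_fin, nsmul_eq_mul, ← mul_sum, ← mul_sum]
      rw [sum_congr rfl fun i _ => h5 i, sum_sub_distrib, sum_add_distrib, ← mul_sum, sum_const,
        card_univ, Fintype.card_fin, nsmul_eq_mul, ← mul_sum, ← sum_mul]
      ring
    rw [← h2] at h4
    linarith
  have h6 : ∑ i, (4 / 5 * x i * (1 - x i) + 4 / 5 * ((∑ j, (max (x j - x i) 0) ^ 2) / m)) =
      4 / 5 * (∑ i, x i - ∑ i, x i ^ 2) + 4 / 5 * ((∑ i, ∑ j, (max (x j - x i) 0) ^ 2) / m) := by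
    rw [sum_add_distrib, ← mul_sum, ← sum_div, ← sum_sub_distrib, mul_sum (a := (4 / 5 : ℝ))]
    congr 1
    exact sum_congr rfl fun i _ => by ring
  rw [h6, h1]
  field_simp
  ring

/-- `h` for a product -/
theorem isoseq_cons {t : ℕ} (B : Finset (Fin (t + 1) → Fin m)) (i : Fin m) (ω : Fin t → Fin m) :
    (∑ r : Fin (t + 1), ((univ.filter (fun j : Fin m =>
        Function.update (Fin.cons i ω : Fin (t + 1) → Fin m) r j ∈ B)).card : ℝ)) / m =
      (∑ r : Fin t, ((univ.filter (fun j : Fin m => Function.update ω r j ∈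
        univ.filter (fun ω' : Fin t → Fin m => (Fin.cons i ω' : Fin (t + 1) → Fin m) ∈ B))).card : ℝ)) / m +
      ((univ.filter (fun j : Fin m => ω ∈
        univ.filter (fun ω' : Fin t → Fin m => (Fin.cons j ω' : Fin (t + 1) → Fin m) ∈ B))).card : ℝ) / m := by
  rw [Fin.sum_univ_succ, ← add_div, add_comm]
  congr 2
  · refine sum_congr rfl fun r _ => ?_
    congr 2
    ext j
    simp only [mem_filter, mem_univ, true_and, Fin.cons_update]
  · congr 2
    ext j
    simp only [mem_filter, mem_univ, true_and, Fin.update_cons_zero]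

theorem iso_seq (hm : 0 < m) (t : ℕ) (B : Finset (Fin t → Fin m)) :
    (4 / 5 : ℝ) * (B.card / (m : ℝ) ^ t) * (1 - B.card / (m : ℝ) ^ t) ≤
      (∑ ω ∈ univ.filter (fun ω => ω ∉ B), Real.sqrt ((∑ r : Fin t,
        ((univ.filter (fun i : Fin m => Function.update ω r i ∈ B)).card : ℝ)) / m))
        / (m : ℝ) ^ t := by
  have hmR : (0 : ℝ) < m := by exact_mod_cast hm
  induction t with
  | zero =>
    refine le_trans (le_of_eq ?_) (div_nonneg (sum_nonneg fun ω _ => Real.sqrt_nonneg _)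
      (by positivity))
    have h1 : B.card ≤ 1 := by
      refine (card_le_univ B).trans (le_of_eq ?_)
      simp
    have h2 : B.card = 0 ∨ B.card = 1 := by omega
    rcases h2 with h2 | h2
    · rw [h2]
      norm_num
    · rw [h2]
      norm_num
  | succ t ih =>
    obtain ⟨C, hC⟩ : ∃ C : Fin m → Finset (Fin t → Fin m), C = fun i =>
      univ.filter (fun ω : Fin t → Fin m => (Fin.cons i ω : Fin (t + 1) → Fin m) ∈ B) := ⟨_, rfl⟩
    obtain ⟨M, hM⟩ : ∃ M : ℝ, M = (m : ℝ) ^ t := ⟨_, rfl⟩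
    have hM0 : 0 < M := by
      rw [hM]
      positivity
    obtain ⟨x, hx⟩ : ∃ x : Fin m → ℝ, x = fun i => ((C i).card : ℝ) / M := ⟨_, rfl⟩
    have hxc : ∀ i, ((C i).card : ℝ) = M * x i := fun i => by
      rw [hx]
      show ((C i).card : ℝ) = M * (((C i).card : ℝ) / M)
      field_simp
    have hx0 : ∀ i, 0 ≤ x i := fun i => by
      rw [hx]
      show 0 ≤ ((C i).card : ℝ) / M
      positivity
    have hx1 : ∀ i, x i ≤ 1 := fun i => by
      rw [hx]
      show ((C i).card : ℝ) / M ≤ 1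
      rw [div_le_one hM0, hM]
      have h1 : (C i).card ≤ m ^ t := by
        refine (card_le_univ (C i)).trans (le_of_eq ?_)
        simp
      exact_mod_cast h1
    -- the sum over `B`
    have hcard : (B.card : ℝ) = ∑ i, ((C i).card : ℝ) := by
      have h1 : (B.card : ℝ) = ∑ ω : Fin (t + 1) → Fin m, if ω ∈ B then (1 : ℝ) else 0 := by
        rw [sum_boole]
        congr 2
        ext ω
        simp
      rw [h1, ← (Fin.consEquiv (fun _ : Fin (t + 1) => Fin m)).sum_comp, Fintype.sum_prod_type]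
      refine sum_congr rfl fun i _ => ?_
      rw [hC, ← sum_boole]
      rfl
    have hxbar : (B.card : ℝ) / (m : ℝ) ^ (t + 1) = (∑ i, x i) / m := by
      have h1 : ∑ i, x i = (B.card : ℝ) / M := by
        rw [hcard, sum_div, hx]
      rw [h1, pow_succ, ← hM, div_div]
    -- one section
    have hsec : ∀ i, M * (4 / 5 * x i * (1 - x i) +
        4 / 5 * ((∑ j, (max (x j - x i) 0) ^ 2) / m)) ≤
        ∑ ω ∈ univ.filter (fun ω => ω ∉ C i), Real.sqrt ((∑ r : Fin (t + 1),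
          ((univ.filter (fun j : Fin m =>
            Function.update (Fin.cons i ω : Fin (t + 1) → Fin m) r j ∈ B)).card : ℝ)) / m) := by
      intro i
      have h1 := ih (C i)
      rw [← hM, hxc i, mul_div_cancel_left₀ _ hM0.ne', le_div_iff₀ hM0] at h1
      have h2 := isoseq_first hm C M x hxc i
      have h3 := isoseq_mink (univ.filter (fun ω => ω ∉ C i))
        (fun ω => Real.sqrt ((∑ r : Fin t,
          ((univ.filter (fun j : Fin m => Function.update ω r j ∈ C i)).card : ℝ)) / m))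
        (fun ω => Real.sqrt (((univ.filter (fun j => ω ∈ C j)).card : ℝ) / m))
      refine isoseq_comb (SA := ∑ ω ∈ univ.filter (fun ω => ω ∉ C i), Real.sqrt ((∑ r : Fin t,
          ((univ.filter (fun j : Fin m => Function.update ω r j ∈ C i)).card : ℝ)) / m))
        (SB := ∑ ω ∈ univ.filter (fun ω => ω ∉ C i),
          Real.sqrt (((univ.filter (fun j => ω ∈ C j)).card : ℝ) / m))
        hM0.le ?_ ?_ ?_ ?_ (by linarith) h2 ?_
      · have := hx0 i
        have := hx1 i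
        have : 0 ≤ x i * (1 - x i) := mul_nonneg (hx0 i) (by linarith)
        linarith
      · nlinarith [sq_nonneg (x i - 1 / 2)]
      · exact div_nonneg (sum_nonneg fun j _ => sq_nonneg _) hmR.le
      · rw [div_le_one hmR]
        calc ∑ j, (max (x j - x i) 0) ^ 2 ≤ ∑ _j : Fin m, (1 : ℝ) := by
              refine sum_le_sum fun j _ => ?_
              have h4 : max (x j - x i) 0 ≤ 1 := max_le (by linarith [hx1 j, hx0 i]) zero_le_one
              have h5 : 0 ≤ max (x j - x i) 0 := le_max_right _ _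
              exact pow_le_one₀ h5 h4
          _ = m := by simp
      · refine h3.trans (le_of_eq ?_)
        refine sum_congr rfl fun ω _ => ?_
        rw [isoseq_cons B i ω, Real.sq_sqrt (div_nonneg (sum_nonneg fun _ _ => Nat.cast_nonneg _)
          (Nat.cast_nonneg _)), Real.sq_sqrt (div_nonneg (Nat.cast_nonneg _) (Nat.cast_nonneg _)),
          hC]
    -- the sum over all points
    have htot : ∑ ω ∈ univ.filter (fun ω : Fin (t + 1) → Fin m => ω ∉ B),
        Real.sqrt ((∑ r : Fin (t + 1),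
          ((univ.filter (fun i : Fin m => Function.update ω r i ∈ B)).card : ℝ)) / m) =
        ∑ i, ∑ ω ∈ univ.filter (fun ω => ω ∉ C i), Real.sqrt ((∑ r : Fin (t + 1),
          ((univ.filter (fun j : Fin m =>
            Function.update (Fin.cons i ω : Fin (t + 1) → Fin m) r j ∈ B)).card : ℝ)) / m) := by
      rw [sum_filter, ← (Fin.consEquiv (fun _ : Fin (t + 1) => Fin m)).sum_comp,
        Fintype.sum_prod_type]
      refine sum_congr rfl fun i _ => ?_
      rw [sum_filter]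
      refine sum_congr rfl fun ω _ => ?_
      have h1 : (ω ∉ C i) ↔ ((Fin.consEquiv (fun _ : Fin (t + 1) => Fin m)) (i, ω) ∉ B) := by
        rw [hC]
        simp [Fin.consEquiv]
      by_cases h2 : ω ∉ C i
      · rw [if_pos h2, if_pos (h1.1 h2)]
        rfl
      · rw [if_neg h2, if_neg fun h3 => h2 (h1.2 h3)]
    rw [htot, hxbar, le_div_iff₀ (by positivity)]
    have h1 := sum_le_sum fun i (_ : i ∈ univ) => hsec i
    rw [← mul_sum, isoseq_alg hm x] at h1
    refine le_trans (le_of_eq ?_) h1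
    rw [pow_succ, ← hM]
    ring

end Pool.Agent.H.MP_b23ae3_co.Asy
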