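import Pool.Agent.H.MP_b23ae3_co.asy.Base
import Pool.Agent.H.MP_b23ae3_co.asy.IsoSeq

set_option autoImplicit false

open Finset

namespace Pool.Agent.H.MP_b23ae3_co.Asy

variable {m : ℕ}

/-! ### M6b IsoCube.lean : isoperimetry for the walk on the cube, from `iso_seq`
Proof: `B = {ω : z + ∑ e (ω r) ∈ S}`.  For `ω ∉ B`, `Y = z + ∑ e (ω r)`:
if `Y ∈ bd S` then `h ≤ t`; if not, `Y + e (ω r) + e i ∈ S` forces `Y + e (ω r) ∈ bd S` and
`Y + e i ∈ bd S`, so `h ≤ n₁ u`, `n₁ = #{r : Y + e (ω r) ∈ bd S}`, `u = (1/m) #{i : Y + e i ∈ bd S}`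
and `√(n₁ u) ≤ (n₁/√t + √t u)/2`; `E n₁ = t p_{t-1}`, `E u = p_{t+1}`.
-/

/-- the endpoint of the path with one direction changed -/
theorem isocube_update {t : ℕ} (z : Cube m) (ω : Fin t → Fin m) (r : Fin t) (i : Fin m) :
    z + ∑ s, e (Function.update ω r i s) = z + ∑ s, e (ω s) + e (ω r) + e i := by
  rw [← Finset.add_sum_erase univ (fun s => e (Function.update ω r i s)) (mem_univ r),
    ← Finset.add_sum_erase univ (fun s => (e (ω s) : Cube m)) (mem_univ r)]
  have h1 : ∑ s ∈ univ.erase r, (e (Function.update ω r i s) : Cube m)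
      = ∑ s ∈ univ.erase r, e (ω s) := by
    refine Finset.sum_congr rfl fun s hs => ?_
    rw [Function.update_of_ne (Finset.ne_of_mem_erase hs)]
  rw [h1, Function.update_self]
  have h2 : z + (e (ω r) + ∑ s ∈ univ.erase r, e (ω s)) + e (ω r) + e i
      = z + ∑ s ∈ univ.erase r, e (ω s) + (e (ω r) + e (ω r)) + e i := by abel
  rw [h2, e_add_e]
  abel

/-- removing one step of the walk -/
theorem isocube_remove {t : ℕ} (f : Cube m → ℝ) (z : Cube m) (r : Fin (t + 1)) (hm : 0 < m) :
    (∑ ω : Fin (t + 1) → Fin m, f (z + ∑ s, e (ω s) + e (ω r))) / (m : ℝ) ^ (t + 1)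
      = (P^[t] f) z := by
  rw [Pit_eq_seq]
  have hm' : (m : ℝ) ≠ 0 := by exact_mod_cast hm.ne'
  rw [← (Fin.insertNthEquiv (fun _ : Fin (t + 1) => Fin m) r).sum_comp, Fintype.sum_prod_type]
  have h1 : ∀ (i : Fin m) (ω : Fin t → Fin m),
      f (z + ∑ s, e ((Fin.insertNthEquiv (fun _ : Fin (t + 1) => Fin m) r) (i, ω) s)
        + e ((Fin.insertNthEquiv (fun _ : Fin (t + 1) => Fin m) r) (i, ω) r))
      = f (z + ∑ s, e (ω s)) := by
    intro i ω
    congr 1
    rw [Fin.sum_univ_succAbove _ r]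
    simp only [Fin.insertNthEquiv_apply, Fin.insertNth_apply_same, Fin.insertNth_apply_succAbove]
    have h2 : z + (e i + ∑ s, e (ω s)) + e i = z + ∑ s, e (ω s) + (e i + e i) := by abel
    rw [h2, e_add_e, add_zero]
  simp only [h1]
  rw [Finset.sum_const, Finset.card_univ, Fintype.card_fin, nsmul_eq_mul, pow_succ,
    mul_comm ((m : ℝ) ^ t), mul_div_mul_left _ _ hm']

theorem iso_cube (hm : 0 < m) {t : ℕ} (ht : 1 ≤ t) (z : Cube m) (S : Finset (Cube m)) :
    (4 / 5 : ℝ) * (P^[t] (ind S)) z * (1 - (P^[t] (ind S)) z) ≤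
      Real.sqrt t * ((P^[t] (ind (bd S))) z
        + ((P^[t - 1] (ind (bd S))) z + (P^[t + 1] (ind (bd S))) z) / 2) := by
  classical
  have hm0 : (0 : ℝ) < m := by exact_mod_cast hm
  have ht0 : (0 : ℝ) < t := by exact_mod_cast ht
  have hst : 0 < Real.sqrt t := Real.sqrt_pos.2 ht0
  have hmt : (0 : ℝ) < (m : ℝ) ^ t := by positivity
  set Y : (Fin t → Fin m) → Cube m := fun ω => z + ∑ s, e (ω s) with hY
  set B : Finset (Fin t → Fin m) := univ.filter (fun ω => Y ω ∈ S) with hB
  have hD : (B.card : ℝ) / (m : ℝ) ^ t = (P^[t] (ind S)) z := by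
    rw [Pit_eq_seq]
    congr 1
    rw [hB, Finset.card_filter]
    push_cast
    rfl
  have key := iso_seq hm t B
  rw [hD] at key
  refine key.trans ?_
  -- pointwise bound
  have hpt : ∀ ω : Fin t → Fin m, ω ∉ B → Real.sqrt ((∑ r : Fin t,
        ((univ.filter (fun i : Fin m => Function.update ω r i ∈ B)).card : ℝ)) / m)
      ≤ Real.sqrt t * ind (bd S) (Y ω) + ((∑ r : Fin t, ind (bd S) (Y ω + e (ω r))) / Real.sqrt t
        + Real.sqrt t * P (ind (bd S)) (Y ω)) / 2 := by
    intro ω hω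
    have hω' : Y ω ∉ S := fun h => hω (by rw [hB]; exact mem_filter.2 ⟨mem_univ _, h⟩)
    have hupd : ∀ r i, Function.update ω r i ∈ B ↔ Y ω + e (ω r) + e i ∈ S := by
      intro r i
      rw [hB, mem_filter, hY]
      simp only [mem_univ, true_and]
      rw [isocube_update]
    have hn : 0 ≤ ∑ r : Fin t, ind (bd S) (Y ω + e (ω r)) :=
      Finset.sum_nonneg fun r _ => by unfold ind; split_ifs <;> norm_num
    have hu : 0 ≤ P (ind (bd S)) (Y ω) :=
      P_nonneg (fun x => by unfold ind; split_ifs <;> norm_num) _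
    by_cases hb : Y ω ∈ bd S
    · have h1 : (∑ r : Fin t,
          ((univ.filter (fun i : Fin m => Function.update ω r i ∈ B)).card : ℝ)) / m ≤ t := by
        rw [div_le_iff₀ hm0]
        calc (∑ r : Fin t, ((univ.filter (fun i : Fin m => Function.update ω r i ∈ B)).card : ℝ))
            ≤ ∑ r : Fin t, (m : ℝ) := by
              refine Finset.sum_le_sum fun r _ => ?_
              have := Finset.card_filter_le (univ : Finset (Fin m))
                (fun i : Fin m => Function.update ω r i ∈ B)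
              rw [Finset.card_univ, Fintype.card_fin] at this
              exact_mod_cast this
          _ = t * m := by simp
      have h2 : ind (bd S) (Y ω) = 1 := by unfold ind; rw [if_pos hb]
      rw [h2, mul_one]
      have h3 : 0 ≤ ((∑ r : Fin t, ind (bd S) (Y ω + e (ω r))) / Real.sqrt t
        + Real.sqrt t * P (ind (bd S)) (Y ω)) / 2 := by positivity
      have h4 := Real.sqrt_le_sqrt h1
      linarith
    · have hnb : ∀ i : Fin m, Y ω + e i ∉ S := by
        intro i hi
        exact hb (mem_bd.2 ⟨hω', i, hi⟩)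
      have h1 : (∑ r : Fin t,
          ((univ.filter (fun i : Fin m => Function.update ω r i ∈ B)).card : ℝ)) / m
          ≤ (∑ r : Fin t, ind (bd S) (Y ω + e (ω r))) * P (ind (bd S)) (Y ω) := by
        rw [div_le_iff₀ hm0, Finset.sum_mul, Finset.sum_mul]
        refine Finset.sum_le_sum fun r _ => ?_
        have h5 : P (ind (bd S)) (Y ω) * m = ∑ i, ind (bd S) (Y ω + e i) := by
          unfold P
          field_simp
        rw [mul_assoc, h5, Finset.card_filter]
        push_cast
        rw [Finset.mul_sum]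
        refine Finset.sum_le_sum fun i _ => ?_
        by_cases hi : Function.update ω r i ∈ B
        · rw [if_pos hi]
          have h6 := (hupd r i).1 hi
          have h7 : Y ω + e (ω r) ∈ bd S := mem_bd.2 ⟨hnb _, i, h6⟩
          have h8 : Y ω + e i ∈ bd S := by
            refine mem_bd.2 ⟨hnb _, ω r, ?_⟩
            rw [add_right_comm]
            exact h6
          unfold ind
          rw [if_pos h7, if_pos h8]
          norm_num
        · rw [if_neg hi]
          unfold ind
          split_ifs <;> norm_num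
      have h2 : ind (bd S) (Y ω) = 0 := by unfold ind; rw [if_neg hb]
      rw [h2, mul_zero, zero_add]
      refine (Real.sqrt_le_sqrt h1).trans ?_
      rw [Real.sqrt_mul hn]
      set a := ∑ r : Fin t, ind (bd S) (Y ω + e (ω r)) with ha
      set b := P (ind (bd S)) (Y ω) with hb'
      have h3 : Real.sqrt a * Real.sqrt a = a := Real.mul_self_sqrt hn
      have h4 : Real.sqrt b * Real.sqrt b = b := Real.mul_self_sqrt hu
      set s := Real.sqrt t with hs
      set q := Real.sqrt s with hq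
      have hq0 : 0 < q := Real.sqrt_pos.2 hst
      have h5 : q * q = s := Real.mul_self_sqrt hst.le
      have h6 : a / s = (Real.sqrt a / q) * (Real.sqrt a / q) := by
        rw [div_mul_div_comm, h3, h5]
      have h7 : s * b = (q * Real.sqrt b) * (q * Real.sqrt b) := by
        rw [← h5]
        nlinarith [h4]
      have h8 : Real.sqrt a * Real.sqrt b = (Real.sqrt a / q) * (q * Real.sqrt b) := by
        field_simp
      rw [h6, h7, h8]
      nlinarith [sq_nonneg (Real.sqrt a / q - q * Real.sqrt b)]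
  -- sum over all sequences
  have hnn : ∀ ω : Fin t → Fin m, 0 ≤ Real.sqrt t * ind (bd S) (Y ω)
      + ((∑ r : Fin t, ind (bd S) (Y ω + e (ω r))) / Real.sqrt t
        + Real.sqrt t * P (ind (bd S)) (Y ω)) / 2 := by
    intro ω
    have h0 : 0 ≤ ind (bd S) (Y ω) := by unfold ind; split_ifs <;> norm_num
    have hn : 0 ≤ ∑ r : Fin t, ind (bd S) (Y ω + e (ω r)) :=
      Finset.sum_nonneg fun r _ => by unfold ind; split_ifs <;> norm_num
    have hu : 0 ≤ P (ind (bd S)) (Y ω) :=
      P_nonneg (fun x => by unfold ind; split_ifs <;> norm_num) _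
    positivity
  have hsum : (∑ ω ∈ univ.filter (fun ω => ω ∉ B), Real.sqrt ((∑ r : Fin t,
        ((univ.filter (fun i : Fin m => Function.update ω r i ∈ B)).card : ℝ)) / m))
      ≤ ∑ ω : Fin t → Fin m, (Real.sqrt t * ind (bd S) (Y ω)
      + ((∑ r : Fin t, ind (bd S) (Y ω + e (ω r))) / Real.sqrt t
        + Real.sqrt t * P (ind (bd S)) (Y ω)) / 2) := by
    refine (Finset.sum_le_sum fun ω hω => hpt ω (mem_filter.1 hω).2).trans ?_
    exact Finset.sum_le_sum_of_subset_of_nonneg (filter_subset _ _) fun ω _ _ => hnn ω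
  refine (div_le_div_of_nonneg_right hsum hmt.le).trans (le_of_eq ?_)
  -- compute the expectations
  have e1 : (∑ ω : Fin t → Fin m, ind (bd S) (Y ω)) / (m : ℝ) ^ t = (P^[t] (ind (bd S))) z := by
    rw [Pit_eq_seq]
  have e2 : (∑ ω : Fin t → Fin m, P (ind (bd S)) (Y ω)) / (m : ℝ) ^ t
      = (P^[t + 1] (ind (bd S))) z := by
    rw [Function.iterate_succ_apply, Pit_eq_seq]
  have e3 : (∑ ω : Fin t → Fin m, ∑ r : Fin t, ind (bd S) (Y ω + e (ω r))) / (m : ℝ) ^ t
      = t * (P^[t - 1] (ind (bd S))) z := by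
    obtain ⟨u, rfl⟩ : ∃ u, t = u + 1 := ⟨t - 1, by omega⟩
    rw [Finset.sum_comm, Finset.sum_div]
    have h1 : ∀ r : Fin (u + 1), (∑ ω : Fin (u + 1) → Fin m, ind (bd S) (Y ω + e (ω r)))
        / (m : ℝ) ^ (u + 1) = (P^[u] (ind (bd S))) z := fun r => isocube_remove _ z r hm
    simp only [h1]
    rw [Finset.sum_const, Finset.card_univ, Fintype.card_fin, nsmul_eq_mul, Nat.add_sub_cancel]
  have hsplit : (∑ ω : Fin t → Fin m, (Real.sqrt t * ind (bd S) (Y ω)
      + ((∑ r : Fin t, ind (bd S) (Y ω + e (ω r))) / Real.sqrt t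
        + Real.sqrt t * P (ind (bd S)) (Y ω)) / 2)) / (m : ℝ) ^ t
      = Real.sqrt t * ((∑ ω : Fin t → Fin m, ind (bd S) (Y ω)) / (m : ℝ) ^ t)
        + (((∑ ω : Fin t → Fin m, ∑ r : Fin t, ind (bd S) (Y ω + e (ω r))) / (m : ℝ) ^ t)
            / Real.sqrt t
          + Real.sqrt t * ((∑ ω : Fin t → Fin m, P (ind (bd S)) (Y ω)) / (m : ℝ) ^ t)) / 2 := by
    rw [Finset.sum_add_distrib, ← Finset.mul_sum, ← Finset.sum_div, Finset.sum_add_distrib,
      ← Finset.sum_div, ← Finset.mul_sum]
    ring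
  rw [hsplit, e1, e2, e3]
  have h9 : (t : ℝ) * (P^[t - 1] (ind (bd S))) z / Real.sqrt t
      = Real.sqrt t * (P^[t - 1] (ind (bd S))) z := by
    rw [div_eq_iff hst.ne', mul_right_comm, Real.mul_self_sqrt ht0.le]
  rw [h9]
  ring

end Pool.Agent.H.MP_b23ae3_co.Asy
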