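import Pool.Agent.H.MP_b23ae3_co.asy.Base

set_option autoImplicit false

open Finset

namespace Pool.Agent.H.MP_b23ae3_co.Asy

variable {m : ℕ}

/-! ### M7 Mixing.lean
Proof: `Q f = (f + P f)/2 = (1/m) ∑ E_i f`, `E_i f x = (f x + f (x + e i))/2`.
`osc_i f = max |f x - f (x + e i)|`, `osc_i (Q f) ≤ (1 - 1/m) osc_i f`,
`|f x - mean f| ≤ ∑_i osc_i f`; so `(P^{s0} Q^n 1_S) z ≤ mean + m (1-1/m)^n`, and
`P^{s0} Q^n` is a convex combination of `P^{s0+k}`, `k ≤ n`.
-/

/-- the lazy walk operator -/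
noncomputable def mixQ (f : Cube m → ℝ) : Cube m → ℝ := fun x => 1 / 2 * f x + 1 / 2 * P f x

theorem mixQ_osc (hm : 0 < m) (f : Cube m → ℝ) (c : ℝ)
    (h : ∀ x i, |f x - f (x + e i)| ≤ c) (x : Cube m) (i : Fin m) :
    |mixQ f x - mixQ f (x + e i)| ≤ (1 - 1 / (m : ℝ)) * c := by
  have hm' : (0 : ℝ) < m := by exact_mod_cast hm
  have h1 : mixQ f x - mixQ f (x + e i) =
      (∑ j, (1 / 2 * (f x - f (x + e i)) + 1 / 2 * (f (x + e j) - f (x + e i + e j)))) / m := by
    unfold mixQ P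
    rw [Finset.sum_add_distrib, ← Finset.mul_sum, ← Finset.mul_sum, Finset.sum_sub_distrib,
      Finset.sum_sub_distrib, Finset.sum_const, Finset.sum_const, Finset.card_univ,
      Fintype.card_fin, nsmul_eq_mul, nsmul_eq_mul]
    field_simp
    ring
  have h2 : ∀ j, |1 / 2 * (f x - f (x + e i)) + 1 / 2 * (f (x + e j) - f (x + e i + e j))| ≤
      if j = i then 0 else c := by
    intro j
    split_ifs with hj
    · subst hj
      rw [add_e_add_e]
      have : 1 / 2 * (f x - f (x + e j)) + 1 / 2 * (f (x + e j) - f x) = 0 := by ring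
      rw [this, abs_zero]
    · have h3 := h x i
      have h4 := h (x + e j) i
      have h5 : x + e j + e i = x + e i + e j := by rw [add_assoc, add_comm (e j), ← add_assoc]
      rw [h5] at h4
      rw [abs_le] at h3 h4 ⊢
      constructor <;> linarith [h3.1, h3.2, h4.1, h4.2]
  rw [h1, abs_div, abs_of_pos hm', div_le_iff₀ hm']
  refine (Finset.abs_sum_le_sum_abs _ _).trans ((Finset.sum_le_sum fun j _ => h2 j).trans ?_)
  have h6 : ∑ j : Fin m, (if j = i then (0 : ℝ) else c) = (m - 1) * c := by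
    have h7 : ∀ j : Fin m, (if j = i then (0 : ℝ) else c) = c - (if j = i then c else 0) := by
      intro j; split_ifs <;> ring
    simp only [h7, Finset.sum_sub_distrib, Finset.sum_const, Finset.card_univ, Fintype.card_fin,
      nsmul_eq_mul, Finset.sum_ite_eq', Finset.mem_univ, if_true]
    ring
  rw [h6]
  have h8 : (1 - 1 / (m : ℝ)) * c * m = (m - 1) * c := by
    field_simp
  rw [h8]

theorem mixQ_it_osc (hm : 0 < m) (f : Cube m → ℝ) (h : ∀ x i, |f x - f (x + e i)| ≤ 1) (n : ℕ) :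
    ∀ x i, |(mixQ^[n] f) x - (mixQ^[n] f) (x + e i)| ≤ (1 - 1 / (m : ℝ)) ^ n := by
  induction n with
  | zero => simpa using h
  | succ n ih =>
    intro x i
    rw [Function.iterate_succ_apply', pow_succ']
    exact mixQ_osc hm _ _ ih x i

theorem mix_osc_set (f : Cube m → ℝ) (c : ℝ) (h : ∀ x i, |f x - f (x + e i)| ≤ c)
    (T : Finset (Fin m)) (x : Cube m) : |f x - f (x + ∑ i ∈ T, e i)| ≤ T.card * c := by
  induction T using Finset.induction_on generalizing x with
  | empty => simp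
  | insert a s ha ih =>
    rw [Finset.sum_insert ha, Finset.card_insert_of_notMem ha]
    have h1 := h x a
    have h2 := ih (x + e a)
    rw [← add_assoc]
    rw [abs_le] at h1 h2 ⊢
    push_cast
    constructor <;> nlinarith [h1.1, h1.2, h2.1, h2.2]

theorem mix_repr (x : Cube m) : x = ∑ i ∈ univ.filter (fun i => x i ≠ 0), (e i : Cube m) := by
  funext j
  rw [Finset.sum_apply]
  unfold e
  simp only [Pi.single_apply]
  have h2 : ∀ a : ZMod 2, a ≠ 0 → a = 1 := by decide
  by_cases hj : x j = 0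
  · rw [hj, Finset.sum_eq_zero]
    intro i hi
    rw [if_neg]
    rintro rfl
    exact (Finset.mem_filter.1 hi).2 hj
  · rw [Finset.sum_eq_single j]
    · rw [if_pos rfl]; exact h2 _ hj
    · intro b _ hb; rw [if_neg (fun h => hb h.symm)]
    · intro hj'
      exact absurd (Finset.mem_filter.2 ⟨Finset.mem_univ j, hj⟩) hj'

theorem mix_osc_all (f : Cube m → ℝ) (c : ℝ) (hc : 0 ≤ c)
    (h : ∀ x i, |f x - f (x + e i)| ≤ c) (x y : Cube m) : f x ≤ f y + m * c := by
  have h1 := mix_osc_set f c h (univ.filter (fun i => (x + y) i ≠ 0)) x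
  rw [← mix_repr, ← add_assoc, add_self, zero_add] at h1
  have h2 : ((univ.filter (fun i => (x + y) i ≠ 0)).card : ℝ) ≤ m := by
    have := Finset.card_le_univ (univ.filter (fun i : Fin m => (x + y) i ≠ 0))
    rw [Fintype.card_fin] at this
    exact_mod_cast this
  have h3 := (abs_le.1 h1).2
  nlinarith

theorem mix_mean (f : Cube m → ℝ) (c : ℝ) (hc : 0 ≤ c)
    (h : ∀ x i, |f x - f (x + e i)| ≤ c) (x : Cube m) : f x ≤ (∑ y, f y) / 2 ^ m + m * c := by
  have h1 : ∑ _y : Cube m, f x ≤ ∑ y, (f y + m * c) :=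
    Finset.sum_le_sum fun y _ => mix_osc_all f c hc h x y
  rw [Finset.sum_add_distrib, Finset.sum_const, Finset.sum_const, Finset.card_univ,
    Fintype.card_fun, ZMod.card, Fintype.card_fin, nsmul_eq_mul, nsmul_eq_mul] at h1
  push_cast at h1
  have h2 : (0 : ℝ) < 2 ^ m := by positivity
  have h3 : f x * 2 ^ m ≤ ((∑ y, f y) / 2 ^ m + m * c) * 2 ^ m := by
    rw [add_mul, div_mul_cancel₀ _ h2.ne']
    linarith
  exact le_of_mul_le_mul_right h3 h2

theorem mix_sum (hm : 0 < m) (f : Cube m → ℝ) (n : ℕ) : ∑ x, (mixQ^[n] f) x = ∑ x, f x := by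
  induction n with
  | zero => rfl
  | succ n ih =>
    rw [Function.iterate_succ_apply', ← ih]
    unfold mixQ
    rw [Finset.sum_add_distrib, ← Finset.mul_sum, ← Finset.mul_sum, sum_P hm]
    ring

theorem mix_convex (z : Cube m) (C : ℝ) (n : ℕ) (s0 : ℕ) (f : Cube m → ℝ)
    (h : ∀ s, s0 ≤ s → s ≤ s0 + n → C < (P^[s] f) z) : C < (P^[s0] (mixQ^[n] f)) z := by
  induction n generalizing f with
  | zero => exact h s0 le_rfl le_rfl
  | succ n ih =>
    rw [Function.iterate_succ_apply]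
    refine ih (mixQ f) fun s h1 h2 => ?_
    have h3 : P^[s] (mixQ f) = fun x => 1 / 2 * (P^[s] f) x + 1 / 2 * (P^[s] (P f)) x := by
      unfold mixQ
      rw [Pit_add (fun x => 1 / 2 * f x) (fun x => 1 / 2 * P f x), Pit_smul, Pit_smul]
    rw [h3]
    show C < 1 / 2 * (P^[s] f) z + 1 / 2 * (P^[s] (P f)) z
    rw [← Function.iterate_succ_apply]
    have h4 := h s h1 (by omega)
    have h5 := h (s + 1) (by omega) (by omega)
    linarith

theorem mixing (hm : 0 < m) (S : Finset (Cube m)) (z : Cube m) (s0 n : ℕ) :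
    ∃ s, s0 ≤ s ∧ s ≤ s0 + n ∧
      (P^[s] (ind S)) z ≤ (S.card : ℝ) / 2 ^ m + m * (1 - 1 / (m : ℝ)) ^ n := by
  by_contra hcon
  push Not at hcon
  have h1 := mix_convex z _ n s0 (ind S) hcon
  have hm' : (1 : ℝ) ≤ m := by exact_mod_cast hm
  have hc : 0 ≤ (1 - 1 / (m : ℝ)) ^ n := by
    apply pow_nonneg
    rw [sub_nonneg, div_le_one (by linarith)]
    exact hm'
  have h01 : ∀ x i, |ind S x - ind S (x + e i)| ≤ 1 := by
    intro x i
    unfold ind
    split_ifs <;> norm_num
  have h2 : ∀ x, (mixQ^[n] (ind S)) x ≤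
      (S.card : ℝ) / 2 ^ m + m * (1 - 1 / (m : ℝ)) ^ n := by
    intro x
    have h3 := mix_mean (mixQ^[n] (ind S)) _ hc (mixQ_it_osc hm (ind S) h01 n) x
    rw [mix_sum hm] at h3
    have h4 : ∑ y : Cube m, ind S y = S.card := by
      unfold ind
      rw [Finset.sum_boole]
      simp
    rw [h4] at h3
    exact h3
  have h5 := Pit_mono h2 s0 z
  rw [Pit_const hm] at h5
  linarith

end Pool.Agent.H.MP_b23ae3_co.Asy
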