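import Pool.Agent.H.MP_b23ae3_co.asy.Base
import Pool.Agent.H.MP_b23ae3_co.asy.IsoCube
import Pool.Agent.H.MP_b23ae3_co.asy.Mixing

set_option autoImplicit false

open Finset

namespace Pool.Agent.H.MP_b23ae3_co.Asy

variable {m : ℕ}

/-! ### M8 Small.lean : the set has small density at all scales
Proof: `D t = (P^t 1_S) z`, `p t = (P^t 1_{bd S}) z`.  `|D (t+1) - D t| ≤ max (p t) (p (t+1))`
(a step from outside `S` into `S` starts in `bd S`).  `iso_cube` gives `D(1-D) ≤ 150 L √t / min t m`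
(`p 0 = 0`), so for `(1200 L)^2 ≤ t ≤ m + n` one has `D t ≤ 0.15` or `D t ≥ 0.85`;
`mixing` gives a time `s ∈ [m, m+n]` with `D s ≤ 0.6`; go down from `s`.
-/

theorem small_ind_nonneg (S : Finset (Cube m)) : ∀ x, 0 ≤ ind S x := by
  intro x
  unfold ind
  split_ifs <;> norm_num

theorem small_ind_union (S : Finset (Cube m)) :
    (ind (S ∪ bd S) : Cube m → ℝ) = fun x => ind S x + ind (bd S) x := by
  funext x
  unfold ind
  by_cases h1 : x ∈ S
  · have h2 : x ∉ bd S := fun h => (mem_bd.1 h).1 h1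
    rw [if_pos (mem_union_left _ h1), if_pos h1, if_neg h2]
    norm_num
  · by_cases h2 : x ∈ bd S
    · rw [if_pos (mem_union_right _ h2), if_neg h1, if_pos h2]
      norm_num
    · rw [if_neg (fun h => (mem_union.1 h).elim h1 h2), if_neg h1, if_neg h2]
      norm_num

theorem small_ind_le (hm : 0 < m) (S : Finset (Cube m)) :
    ∀ x, ind S x ≤ P (ind (S ∪ bd S)) x := by
  intro x
  by_cases h1 : x ∈ S
  · have h2 : P (ind (S ∪ bd S)) x = 1 := by
      unfold P
      have h3 : ∀ i : Fin m, ind (S ∪ bd S) (x + e i) = (1 : ℝ) := by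
        intro i
        unfold ind
        rw [if_pos (add_e_mem h1 i)]
      simp only [h3]
      rw [Finset.sum_const, Finset.card_univ, Fintype.card_fin, nsmul_eq_mul, mul_one]
      exact div_self (by exact_mod_cast hm.ne')
    rw [h2]
    unfold ind
    split_ifs <;> norm_num
  · have h2 : ind S x = 0 := by
      unfold ind
      rw [if_neg h1]
    rw [h2]
    exact P_nonneg (small_ind_nonneg _) x

/-- going down one step -/
theorem small_down (hm : 0 < m) (S : Finset (Cube m)) (z : Cube m) (s : ℕ) :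
    (P^[s] (ind S)) z ≤ (P^[s + 1] (ind S)) z + (P^[s + 1] (ind (bd S))) z := by
  have h1 := Pit_mono (small_ind_le hm S) s z
  rw [← Function.iterate_succ_apply, small_ind_union, Pit_add] at h1
  exact h1

theorem small_p_zero (S : Finset (Cube m)) (z : Cube m) (hz : z ∈ S) :
    (P^[0] (ind (bd S))) z = 0 := by
  show ind (bd S) z = 0
  unfold ind
  rw [if_neg (fun h => (mem_bd.1 h).1 hz)]

/-- `D (1 - D) ≤ 150 L √s / min s m` -/
theorem small_iso (hm : 2 ≤ m) (z : Cube m) (S : Finset (Cube m)) (hz : z ∈ S)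
    (L : ℝ) (hL : 1 ≤ L) (n : ℕ)
    (hp : ∀ t, 1 ≤ t → t ≤ m + n + 1 → (P^[t] (ind (bd S))) z ≤ 48 * L / (min t m : ℕ))
    (s : ℕ) (hs1 : 1 ≤ s) (hs2 : s ≤ m + n) :
    (P^[s] (ind S)) z * (1 - (P^[s] (ind S)) z) ≤ 150 * L * Real.sqrt s / (min s m : ℕ) := by
  have h0 := iso_cube (by omega) hs1 z S
  have hm1 : (1 : ℝ) ≤ ((min s m : ℕ) : ℝ) := by
    exact_mod_cast (le_min hs1 (by omega) : 1 ≤ min s m)
  have hL0 : 0 < L := by linarith
  have hsq : 0 ≤ Real.sqrt s := Real.sqrt_nonneg _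
  have hA : (P^[s] (ind (bd S))) z ≤ 48 * L / (min s m : ℕ) := hp s hs1 (by omega)
  have hB : (P^[s + 1] (ind (bd S))) z ≤ 48 * L / (min s m : ℕ) := by
    refine (hp (s + 1) (by omega) (by omega)).trans ?_
    refine div_le_div_of_nonneg_left (by positivity) (by linarith) ?_
    exact_mod_cast (min_le_min (Nat.le_succ s) le_rfl : min s m ≤ min (s + 1) m)
  have hC : (P^[s - 1] (ind (bd S))) z ≤ 96 * L / (min s m : ℕ) := by
    rcases Nat.lt_or_ge s 2 with h | h
    · have h1 : s = 1 := by omega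
      subst h1
      have h2 : (P^[1 - 1] (ind (bd S))) z = 0 := small_p_zero S z hz
      rw [h2]
      positivity
    · refine (hp (s - 1) (by omega) (by omega)).trans ?_
      have h3 : min s m ≤ 2 * min (s - 1) m := by
        rcases le_total (s - 1) m with h4 | h4
        · rw [min_eq_left h4]
          have := min_le_left s m
          omega
        · rw [min_eq_right h4]
          have := min_le_right s m
          omega
      have h5 : 1 ≤ min (s - 1) m := le_min (by omega) (by omega)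
      have h6 : (1 : ℝ) ≤ ((min (s - 1) m : ℕ) : ℝ) := by exact_mod_cast h5
      have h7 : ((min s m : ℕ) : ℝ) ≤ 2 * ((min (s - 1) m : ℕ) : ℝ) := by exact_mod_cast h3
      rw [div_le_div_iff₀ (by linarith) (by linarith)]
      nlinarith [mul_le_mul_of_nonneg_left h7 hL0.le]
  set M : ℝ := ((min s m : ℕ) : ℝ) with hM
  have h1 : (P^[s] (ind (bd S))) z + ((P^[s - 1] (ind (bd S))) z + (P^[s + 1] (ind (bd S))) z) / 2
      ≤ 120 * L / M := by
    have h2 : 120 * L / M = 48 * L / M + (96 * L / M + 48 * L / M) / 2 := by ring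
    rw [h2]
    linarith
  have h3 : Real.sqrt s * ((P^[s] (ind (bd S))) z
      + ((P^[s - 1] (ind (bd S))) z + (P^[s + 1] (ind (bd S))) z) / 2)
      ≤ Real.sqrt s * (120 * L / M) := mul_le_mul_of_nonneg_left h1 hsq
  have h4 : Real.sqrt s * (120 * L / M) = (4 / 5 : ℝ) * (150 * L * Real.sqrt s / M) := by ring
  rw [h4] at h3
  have h5 := h0.trans h3
  nlinarith [h5]

theorem D_small (hm : 2 ≤ m) (z : Cube m) (S : Finset (Cube m)) (hz : z ∈ S)
    (hS : 2 * S.card ≤ 2 ^ m) (L : ℝ) (hL : 1 ≤ L) (n : ℕ)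
    (hp : ∀ t, 1 ≤ t → t ≤ m + n + 1 → (P^[t] (ind (bd S))) z ≤ 48 * L / (min t m : ℕ))
    (h1 : (m : ℝ) * (1 - 1 / (m : ℝ)) ^ n ≤ 1 / 10)
    (h2 : 1200 * L * Real.sqrt ((m : ℝ) + n) ≤ m) (t : ℕ) (ht1 : (1200 * L) ^ 2 ≤ t)
    (ht2 : t ≤ m) : (P^[t] (ind (S ∪ bd S))) z ≤ 228 * L / Real.sqrt t := by
  have hL0 : 0 < L := by linarith
  have hm0 : (0 : ℝ) < m := by exact_mod_cast (by omega : 0 < m)
  have htbig : (1440000 : ℝ) ≤ t := by nlinarith
  have htpos : (0 : ℝ) < t := by linarith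
  have ht1' : 1 ≤ t := by exact_mod_cast (by linarith : (1 : ℝ) ≤ t)
  have hst : 1200 * L ≤ Real.sqrt t := by
    rw [← Real.sqrt_sq (by positivity : (0 : ℝ) ≤ 1200 * L)]
    exact Real.sqrt_le_sqrt ht1
  have hst0 : 0 < Real.sqrt t := by nlinarith
  have hmt : (t : ℝ) ≤ m := by exact_mod_cast ht2
  -- dichotomy
  have hdich : ∀ s, t ≤ s → s ≤ m + n →
      (P^[s] (ind S)) z * (1 - (P^[s] (ind S)) z) ≤ 1 / 8 := by
    intro s hs1 hs2
    refine (small_iso hm z S hz L hL n hp s (by omega) hs2).trans ?_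
    have hs0 : (0 : ℝ) < s := by
      have : (t : ℝ) ≤ s := by exact_mod_cast hs1
      linarith
    rcases le_total s m with h | h
    · rw [min_eq_left h]
      have h3 : 1200 * L ≤ Real.sqrt s :=
        hst.trans (Real.sqrt_le_sqrt (by exact_mod_cast hs1))
      rw [div_le_iff₀ hs0]
      have h4 : Real.sqrt s * Real.sqrt s = s := Real.mul_self_sqrt hs0.le
      have h5 : 1200 * L * Real.sqrt s ≤ Real.sqrt s * Real.sqrt s :=
        mul_le_mul_of_nonneg_right h3 (Real.sqrt_nonneg _)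
      rw [h4] at h5
      linarith
    · rw [min_eq_right h]
      rw [div_le_iff₀ hm0]
      have h3 : Real.sqrt s ≤ Real.sqrt ((m : ℝ) + n) := by
        apply Real.sqrt_le_sqrt
        exact_mod_cast hs2
      have h4 : 1200 * L * Real.sqrt s ≤ 1200 * L * Real.sqrt ((m : ℝ) + n) :=
        mul_le_mul_of_nonneg_left h3 (by positivity)
      linarith
  -- a good time
  obtain ⟨s, hs1, hs2, hs3⟩ := mixing (by omega) S z m n
  have hSc : (S.card : ℝ) / 2 ^ m ≤ 1 / 2 := by
    rw [div_le_iff₀ (by positivity)]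
    have : (2 : ℝ) * S.card ≤ 2 ^ m := by exact_mod_cast hS
    linarith
  have hDs : (P^[s] (ind S)) z ≤ 15 / 100 := by
    have h3 : (P^[s] (ind S)) z ≤ 6 / 10 := by linarith
    have h4 := hdich s (by omega) hs2
    nlinarith
  -- go down
  have hgo : ∀ k, k ≤ s - t → (P^[s - k] (ind S)) z ≤ 15 / 100 := by
    intro k
    induction k with
    | zero => intro _; simpa using hDs
    | succ k ih =>
      intro hk
      have h3 := ih (by omega)
      have h4 := small_down (by omega) S z (s - (k + 1))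
      have h5 : s - (k + 1) + 1 = s - k := by omega
      rw [h5] at h4
      have h6 : (P^[s - k] (ind (bd S))) z ≤ 48 * L / (min (s - k) m : ℕ) :=
        hp (s - k) (by omega) (by omega)
      have h7 : 48 * L / ((min (s - k) m : ℕ) : ℝ) ≤ 1 / 25 := by
        have h8 : (t : ℝ) ≤ ((min (s - k) m : ℕ) : ℝ) := by
          exact_mod_cast (le_min (by omega) ht2 : t ≤ min (s - k) m)
        rw [div_le_iff₀ (by linarith)]
        nlinarith
      have h9 : (P^[s - (k + 1)] (ind S)) z ≤ 19 / 100 := by linarith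
      have h10 := hdich (s - (k + 1)) (by omega) (by omega)
      nlinarith
  have hDt : (P^[t] (ind S)) z ≤ 15 / 100 := by
    have h3 := hgo (s - t) le_rfl
    have h4 : s - (s - t) = t := by omega
    rwa [h4] at h3
  have hD0 : 0 ≤ (P^[t] (ind S)) z := Pit_nonneg (small_ind_nonneg S) t z
  have hiso := small_iso hm z S hz L hL n hp t ht1' (by omega)
  rw [min_eq_left ht2] at hiso
  have hpt := hp t ht1' (by omega)
  rw [min_eq_left ht2] at hpt
  have hsplit : (P^[t] (ind (S ∪ bd S))) z = (P^[t] (ind S)) z + (P^[t] (ind (bd S))) z := by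
    rw [small_ind_union, Pit_add]
  rw [hsplit]
  have hss : Real.sqrt t * Real.sqrt t = t := Real.mul_self_sqrt htpos.le
  have e1 : 150 * L * Real.sqrt t / (t : ℝ) = 150 * L / Real.sqrt t := by
    rw [div_eq_div_iff htpos.ne' hst0.ne']
    rw [mul_assoc, hss]
  rw [e1] at hiso
  have e2 : 48 * L / (t : ℝ) ≤ 48 * L / Real.sqrt t := by
    refine div_le_div_of_nonneg_left (by positivity) hst0 ?_
    nlinarith
  set Q : ℝ := L / Real.sqrt t with hQ
  have hQ0 : 0 ≤ Q := by positivity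
  have e3 : 150 * L / Real.sqrt t = 150 * Q := by rw [hQ]; ring
  have e4 : 48 * L / Real.sqrt t = 48 * Q := by rw [hQ]; ring
  have e5 : 228 * L / Real.sqrt t = 228 * Q := by rw [hQ]; ring
  rw [e3] at hiso
  rw [e4] at e2
  rw [e5]
  have h11 : (P^[t] (ind S)) z * (85 / 100) ≤ 150 * Q := by
    refine le_trans ?_ hiso
    exact mul_le_mul_of_nonneg_left (by linarith) hD0
  linarith

end Pool.Agent.H.MP_b23ae3_co.Asy
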