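import Pool.Agent.H.MP_b23ae3_co.asy.Base

set_option autoImplicit false

open Finset

namespace Pool.Agent.H.MP_b23ae3_co.Asy

variable {m : ℕ}

/-! ### M9 Block.lean : exchangeability
Proof: `κ y = (P^t (dl 0)) y` is a probability on the group, `P^{qt} g z = ∑_{y : Fin q → Cube}
∏ κ (y b) g (z + ∑ y b)`.  With `N(y) = #{b : z + y b ∈ A}`, symmetry gives
`q ρ = E[N g]`.  For every `a > 0`: `N ≤ e^N / a + log a - 1`, and `E[e^N] = (1 + (e-1) α)^q
≤ e^{2 α q}`; take `a = e^{2 α q}/γ`: `E[N g] ≤ γ (2 α q + log (1/γ))`, `γ ≥ ρ ≥ e^{-Λ}`.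
-/

theorem Pit_translate (f : Cube m → ℝ) (z : Cube m) (t : ℕ) (x : Cube m) :
    (P^[t] (fun y => f (z + y))) x = (P^[t] f) (z + x) := by
  induction t generalizing x with
  | zero => rfl
  | succ t ih =>
    rw [Function.iterate_succ_apply', Function.iterate_succ_apply']
    simp only [P]
    congr 1
    refine Finset.sum_congr rfl fun i _ => ?_
    rw [ih, add_assoc]

/-- the law of the walk at time `t` started at the origin -/
noncomputable def kp (m t : ℕ) : Cube m → ℝ := P^[t] (dl 0)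

theorem kp_nonneg (t : ℕ) (y : Cube m) : 0 ≤ kp m t y :=
  Pit_nonneg (fun x => by unfold dl; split_ifs <;> norm_num) t y

theorem Pit_eq_kp (f : Cube m → ℝ) (t : ℕ) (z : Cube m) :
    (P^[t] f) z = ∑ y, kp m t y * f (z + y) := by
  have h := Pit_eq_sum (fun y => f (z + y)) t (0 : Cube m)
  rw [Pit_translate, add_zero] at h
  exact h

theorem sum_kp (hm : 0 < m) (t : ℕ) : ∑ y, kp m t y = 1 := by
  have h := Pit_eq_kp (fun _ : Cube m => (1 : ℝ)) t 0
  rw [Pit_const hm] at h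
  simpa using h.symm

/-- expectation for `q` independent blocks -/
noncomputable def Eq (t q : ℕ) (F : (Fin q → Cube m) → ℝ) : ℝ :=
  ∑ y : Fin q → Cube m, (∏ b, kp m t (y b)) * F y

theorem Eq_mono (t q : ℕ) (F G : (Fin q → Cube m) → ℝ) (h : ∀ y, F y ≤ G y) :
    Eq t q F ≤ Eq t q G :=
  Finset.sum_le_sum fun y _ =>
    mul_le_mul_of_nonneg_left (h y) (Finset.prod_nonneg fun b _ => kp_nonneg t (y b))

theorem Eq_add (t q : ℕ) (F G : (Fin q → Cube m) → ℝ) :
    Eq t q (fun y => F y + G y) = Eq t q F + Eq t q G := by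
  unfold Eq
  rw [← Finset.sum_add_distrib]
  exact Finset.sum_congr rfl fun y _ => by ring

theorem Eq_smul (t q : ℕ) (c : ℝ) (F : (Fin q → Cube m) → ℝ) :
    Eq t q (fun y => c * F y) = c * Eq t q F := by
  unfold Eq
  rw [Finset.mul_sum]
  exact Finset.sum_congr rfl fun y _ => by ring

theorem Eq_sum {ι : Type*} (t q : ℕ) (s : Finset ι) (F : ι → (Fin q → Cube m) → ℝ) :
    Eq t q (fun y => ∑ i ∈ s, F i y) = ∑ i ∈ s, Eq t q (F i) := by
  unfold Eq
  rw [Finset.sum_comm]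
  exact Finset.sum_congr rfl fun y _ => by rw [Finset.mul_sum]

theorem Eq_succ (t q : ℕ) (F : (Fin (q + 1) → Cube m) → ℝ) :
    Eq t (q + 1) F = ∑ y0, kp m t y0 * Eq t q (fun y => F (Fin.cons y0 y)) := by
  unfold Eq
  rw [← (Fin.consEquiv (fun _ : Fin (q + 1) => Cube m)).sum_comp, Fintype.sum_prod_type]
  refine Finset.sum_congr rfl fun y0 _ => ?_
  rw [Finset.mul_sum]
  refine Finset.sum_congr rfl fun y _ => ?_
  have hc : (Fin.consEquiv (fun _ : Fin (q + 1) => Cube m)) (y0, y) = Fin.cons y0 y := rfl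
  rw [hc]
  simp only [Fin.prod_univ_succ, Fin.cons_zero, Fin.cons_succ]
  ring

theorem Eq_perm (t q : ℕ) (σ : Equiv.Perm (Fin q)) (F : (Fin q → Cube m) → ℝ) :
    Eq t q (fun y => F (fun b => y (σ b))) = Eq t q F := by
  unfold Eq
  rw [← (Equiv.arrowCongr σ.symm (Equiv.refl (Cube m))).sum_comp
    (fun y : Fin q → Cube m => (∏ b, kp m t (y b)) * F y)]
  refine Finset.sum_congr rfl fun y _ => ?_
  have h1 : ((Equiv.arrowCongr σ.symm (Equiv.refl (Cube m))) y) = fun b => y (σ b) := by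
    funext b
    simp [Equiv.arrowCongr]
  rw [h1]
  congr 1
  exact (Equiv.prod_comp σ (fun b => kp m t (y b))).symm

theorem Eq_prod (t q : ℕ) (u : Cube m → ℝ) :
    Eq t q (fun y => ∏ b, u (y b)) = (∑ y, kp m t y * u y) ^ q := by
  unfold Eq
  rw [Fintype.sum_pow]
  exact Finset.sum_congr rfl fun y _ => (Finset.prod_mul_distrib).symm

theorem Eq_walk (g : Cube m → ℝ) (t q : ℕ) (z : Cube m) :
    Eq t q (fun y => g (z + ∑ b, y b)) = (P^[q * t] g) z := by
  induction q generalizing z with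
  | zero => simp [Eq]
  | succ q ih =>
    rw [Eq_succ, Nat.add_mul, Nat.one_mul, Nat.add_comm (q * t) t, Function.iterate_add_apply,
      Pit_eq_kp]
    refine Finset.sum_congr rfl fun y0 _ => ?_
    rw [← ih]
    congr 2
    funext y
    rw [Fin.sum_univ_succ]
    simp only [Fin.cons_zero, Fin.cons_succ]
    rw [add_assoc]

theorem Eq_first (g : Cube m → ℝ) (A : Finset (Cube m)) (t q : ℕ) (z : Cube m) :
    Eq t (q + 1) (fun y => ind A (z + y 0) * g (z + ∑ b, y b)) =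
      (P^[t] (fun y => ind A y * (P^[q * t] g) y)) z := by
  rw [Eq_succ, Pit_eq_kp]
  refine Finset.sum_congr rfl fun y0 _ => ?_
  rw [← Eq_walk]
  congr 1
  rw [← Eq_smul]
  congr 1
  funext y
  rw [Fin.sum_univ_succ]
  simp only [Fin.cons_zero, Fin.cons_succ]
  rw [add_assoc]

theorem Eq_any (g : Cube m → ℝ) (A : Finset (Cube m)) (t q : ℕ) (z : Cube m)
    (b : Fin (q + 1)) :
    Eq t (q + 1) (fun y => ind A (z + y b) * g (z + ∑ c, y c)) =
      (P^[t] (fun y => ind A y * (P^[q * t] g) y)) z := by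
  rw [← Eq_first, ← Eq_perm t (q + 1) (Equiv.swap 0 b)
    (fun y => ind A (z + y 0) * g (z + ∑ c, y c))]
  congr 1
  funext y
  show ind A (z + y b) * g (z + ∑ c, y c) =
    ind A (z + y (Equiv.swap 0 b 0)) * g (z + ∑ c, y (Equiv.swap 0 b c))
  rw [Equiv.swap_apply_left, Equiv.sum_comp (Equiv.swap 0 b) y]

theorem ind_nonneg (A : Finset (Cube m)) (x : Cube m) : 0 ≤ ind A x := by
  unfold ind; split_ifs <;> norm_num

theorem ind_le_one (A : Finset (Cube m)) (x : Cube m) : ind A x ≤ 1 := by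
  unfold ind; split_ifs <;> norm_num

theorem exp_ind (A : Finset (Cube m)) (x : Cube m) :
    Real.exp (ind A x) = 1 + (Real.exp 1 - 1) * ind A x := by
  unfold ind; split_ifs <;> simp

theorem Eq_exp (hm : 0 < m) (A : Finset (Cube m)) (t q : ℕ) (z : Cube m) :
    Eq t q (fun y => Real.exp (∑ b, ind A (z + y b))) ≤
      Real.exp (2 * (P^[t] (ind A)) z * q) := by
  have h1 : Eq t q (fun y => Real.exp (∑ b, ind A (z + y b))) =
      (∑ y, kp m t y * Real.exp (ind A (z + y))) ^ q := by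
    rw [← Eq_prod]
    congr 1
    funext y
    rw [Real.exp_sum]
  have h2 : ∑ y, kp m t y * Real.exp (ind A (z + y)) =
      1 + (Real.exp 1 - 1) * (P^[t] (ind A)) z := by
    rw [Pit_eq_kp, Finset.mul_sum]
    have h5 : ∀ y : Cube m, kp m t y * Real.exp (ind A (z + y)) =
        kp m t y + (Real.exp 1 - 1) * (kp m t y * ind A (z + y)) := by
      intro y; rw [exp_ind]; ring
    simp only [h5]
    rw [Finset.sum_add_distrib, sum_kp hm t]
  have h0 : 0 ≤ (P^[t] (ind A)) z := Pit_nonneg (ind_nonneg A) t z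
  have he : Real.exp 1 < 2.7182818286 := Real.exp_one_lt_d9
  have he1 : 1 ≤ Real.exp 1 := by
    have := Real.add_one_le_exp (1 : ℝ); linarith
  rw [h1, h2]
  have h3 : 1 + (Real.exp 1 - 1) * (P^[t] (ind A)) z ≤ Real.exp (2 * (P^[t] (ind A)) z) := by
    have h4 := Real.add_one_le_exp (2 * (P^[t] (ind A)) z)
    nlinarith
  calc (1 + (Real.exp 1 - 1) * (P^[t] (ind A)) z) ^ q
      ≤ (Real.exp (2 * (P^[t] (ind A)) z)) ^ q := by
        apply pow_le_pow_left₀ _ h3
        have : 0 ≤ (Real.exp 1 - 1) * (P^[t] (ind A)) z :=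
          mul_nonneg (by linarith) h0
        linarith
    _ = Real.exp (2 * (P^[t] (ind A)) z * q) := by
        rw [← Real.exp_nat_mul]; congr 1; ring

theorem block (hm : 0 < m) (g : Cube m → ℝ) (hg0 : ∀ x, 0 ≤ g x) (hg1 : ∀ x, g x ≤ 1)
    (A : Finset (Cube m)) (z : Cube m) (q t : ℕ) (hq : 1 ≤ q) (Λ : ℝ)
    (hΛ : Real.exp (-Λ) ≤ (P^[t] (fun y => ind A y * (P^[q * t - t] g) y)) z) :
    (P^[t] (fun y => ind A y * (P^[q * t - t] g) y)) z ≤
      (P^[q * t] g) z * (2 * (P^[t] (ind A)) z + Λ / q) := by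
  obtain ⟨q', rfl⟩ : ∃ q', q = q' + 1 := ⟨q - 1, by omega⟩
  have hsub : (q' + 1) * t - t = q' * t := by
    rw [Nat.add_mul, Nat.one_mul, Nat.add_sub_cancel]
  rw [hsub] at hΛ ⊢
  set ρ := (P^[t] (fun y => ind A y * (P^[q' * t] g) y)) z with hρ
  set γ := (P^[(q' + 1) * t] g) z with hγ
  set α := (P^[t] (ind A)) z with hα
  have hργ : ρ ≤ γ := by
    rw [hρ, hγ, Nat.add_mul, Nat.one_mul, Nat.add_comm (q' * t) t, Function.iterate_add_apply]
    refine Pit_mono (fun x => ?_) t z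
    have h1 := Pit_nonneg hg0 (q' * t) x
    have h2 := ind_le_one A x
    nlinarith
  have hγ0 : 0 < γ := lt_of_lt_of_le (Real.exp_pos _) (hΛ.trans hργ)
  have hlog : -Λ ≤ Real.log γ := by
    rw [Real.le_log_iff_exp_le hγ0]
    exact hΛ.trans hργ
  have hq0 : (0 : ℝ) < ((q' + 1 : ℕ) : ℝ) := by positivity
  -- the number of blocks ending in `A`
  have h1 : ((q' + 1 : ℕ) : ℝ) * ρ =
      Eq t (q' + 1) (fun y => (∑ b, ind A (z + y b)) * g (z + ∑ c, y c)) := by
    have h2 : (fun y : Fin (q' + 1) → Cube m =>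
        (∑ b, ind A (z + y b)) * g (z + ∑ c, y c)) =
        fun y => ∑ b, ind A (z + y b) * g (z + ∑ c, y c) := by
      funext y; rw [Finset.sum_mul]
    rw [h2, Eq_sum]
    simp only [Eq_any]
    rw [Finset.sum_const, Finset.card_univ, Fintype.card_fin, nsmul_eq_mul]
  set a := Real.exp (2 * α * ((q' + 1 : ℕ) : ℝ)) / γ with ha
  have ha0 : 0 < a := div_pos (Real.exp_pos _) hγ0
  have hloga : Real.log a = 2 * α * ((q' + 1 : ℕ) : ℝ) - Real.log γ := by
    rw [ha, Real.log_div (Real.exp_pos _).ne' hγ0.ne', Real.log_exp]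
  have h3 : Eq t (q' + 1) (fun y => (∑ b, ind A (z + y b)) * g (z + ∑ c, y c)) ≤
      (1 / a) * Eq t (q' + 1) (fun y => Real.exp (∑ b, ind A (z + y b))) +
        (Real.log a - 1) * γ := by
    rw [hγ, ← Eq_walk, ← Eq_smul, ← Eq_smul, ← Eq_add]
    refine Eq_mono _ _ _ _ fun y => ?_
    set N := ∑ b, ind A (z + y b) with hN
    have hg0' := hg0 (z + ∑ b, y b)
    have hg1' := hg1 (z + ∑ b, y b)
    have h4 : N ≤ 1 / a * Real.exp N + (Real.log a - 1) := by
      have h5 := Real.add_one_le_exp (N - Real.log a)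
      rw [Real.exp_sub, Real.exp_log ha0] at h5
      have h6 : 1 / a * Real.exp N = Real.exp N / a := by ring
      linarith
    have h7 : 0 ≤ 1 / a * Real.exp N := by positivity
    have h8 : 1 / a * Real.exp N * g (z + ∑ b, y b) ≤ 1 / a * Real.exp N :=
      mul_le_of_le_one_right h7 hg1'
    nlinarith
  have h4 := Eq_exp hm A t (q' + 1) z
  have h5 : (1 / a) * Eq t (q' + 1) (fun y => Real.exp (∑ b, ind A (z + y b))) ≤ γ := by
    calc (1 / a) * Eq t (q' + 1) (fun y => Real.exp (∑ b, ind A (z + y b)))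
        ≤ (1 / a) * Real.exp (2 * α * ((q' + 1 : ℕ) : ℝ)) :=
          mul_le_mul_of_nonneg_left h4 (by positivity)
      _ = γ := by
          rw [ha]
          have := (Real.exp_pos (2 * α * ((q' + 1 : ℕ) : ℝ))).ne'
          field_simp
  have h6 : ((q' + 1 : ℕ) : ℝ) * ρ ≤ γ * (2 * α * ((q' + 1 : ℕ) : ℝ) + Λ) := by
    rw [h1]
    refine h3.trans ?_
    rw [hloga]
    nlinarith
  have h7 : γ * (2 * α + Λ / ((q' + 1 : ℕ) : ℝ)) =
      (γ * (2 * α * ((q' + 1 : ℕ) : ℝ) + Λ)) / ((q' + 1 : ℕ) : ℝ) := by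
    field_simp
  rw [h7, le_div_iff₀ hq0]
  linarith

end Pool.Agent.H.MP_b23ae3_co.Asy
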