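import Pool.Agent.H.MP_b23ae3_co.asy.Base
import Pool.Agent.H.MP_b23ae3_co.asy.Block

set_option autoImplicit false

open Finset

namespace Pool.Agent.H.MP_b23ae3_co.Asy

variable {m : ℕ}

/-! ### M9b Tail.lean : three scales, from `block` (twice) and `al ≤ P^.. (1_A P^.. (1_A ..))`
-/

/-- one step of the killed walk -/
noncomputable def Kop (A : Finset (Cube m)) (f : Cube m → ℝ) : Cube m → ℝ :=
  fun w => if w ∈ A then P f w else 0

theorem al_eq_Kop (A : Finset (Cube m)) (z : Cube m) (t : ℕ) :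
    al A z t = (Kop A)^[t] (dl z) := by
  induction t with
  | zero => rfl
  | succ t ih => rw [Function.iterate_succ_apply', ← ih]; rfl

theorem Kop_nonneg (A : Finset (Cube m)) (f : Cube m → ℝ) (h : ∀ x, 0 ≤ f x) :
    ∀ x, 0 ≤ Kop A f x := by
  intro x
  unfold Kop
  split_ifs
  · exact P_nonneg h x
  · exact le_refl 0

theorem Kit_nonneg (A : Finset (Cube m)) (f : Cube m → ℝ) (h : ∀ x, 0 ≤ f x) (t : ℕ) :
    ∀ x, 0 ≤ ((Kop A)^[t] f) x := by
  induction t with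
  | zero => exact h
  | succ t ih =>
    intro x
    rw [Function.iterate_succ_apply']
    exact Kop_nonneg A _ ih x

theorem Kop_ind (A : Finset (Cube m)) (f : Cube m → ℝ) (x : Cube m) :
    Kop A f x = ind A x * P f x := by
  unfold Kop ind
  split_ifs <;> simp

theorem Kit_le (A : Finset (Cube m)) (f g : Cube m → ℝ) (hf : ∀ x, 0 ≤ f x)
    (hfg : ∀ x, f x ≤ g x) (hs : ∀ x, f x = ind A x * f x) (t : ℕ) :
    ∀ x, ((Kop A)^[t] f) x ≤ ind A x * (P^[t] g) x := by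
  have h1 : ∀ x, ((Kop A)^[t] f) x ≤ (P^[t] g) x := by
    induction t with
    | zero => exact hfg
    | succ t ih =>
      intro x
      rw [Function.iterate_succ_apply', Function.iterate_succ_apply', Kop_ind]
      have h2 := P_mono ih x
      have h3 := P_nonneg (Kit_nonneg A f hf t) x
      have h4 := ind_le_one A x
      calc ind A x * P ((Kop A)^[t] f) x ≤ P ((Kop A)^[t] f) x :=
            mul_le_of_le_one_left h3 h4
        _ ≤ _ := h2
  have h2 : ∀ x, ((Kop A)^[t] f) x = ind A x * ((Kop A)^[t] f) x := by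
    intro x
    cases t with
    | zero => exact hs x
    | succ t =>
      rw [Function.iterate_succ_apply', Kop_ind]
      unfold ind
      split_ifs <;> simp
  intro x
  rw [h2 x]
  exact mul_le_mul_of_nonneg_left (h1 x) (ind_nonneg A x)

theorem Kit_supp (A : Finset (Cube m)) (f : Cube m → ℝ)
    (hs : ∀ x, f x = ind A x * f x) (t : ℕ) :
    ∀ x, ((Kop A)^[t] f) x = ind A x * ((Kop A)^[t] f) x := by
  intro x
  cases t with
  | zero => exact hs x
  | succ t =>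
    rw [Function.iterate_succ_apply', Kop_ind]
    unfold ind
    split_ifs <;> simp

theorem al_sum_le (A : Finset (Cube m)) (z : Cube m) (hz : z ∈ A) (t1 s2 s3 : ℕ) :
    ∑ w ∈ A, al A z (s3 + (s2 + t1)) w ≤
      (P^[t1] (fun y => ind A y * (P^[s2] (fun y => ind A y * (P^[s3] (ind A)) y)) y)) z := by
  have hd0 : ∀ x, 0 ≤ dl z x := fun x => by unfold dl; split_ifs <;> norm_num
  have hds : ∀ x, dl z x = ind A x * dl z x := by
    intro x
    unfold dl ind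
    by_cases h : x = z
    · subst h; simp [hz]
    · simp [h]
  set f1 := (Kop A)^[t1] (dl z) with hf1
  set F1 : Cube m → ℝ := fun x => ind A x * (P^[t1] (dl z)) x with hF1
  have h1 : ∀ x, f1 x ≤ F1 x := Kit_le A _ _ hd0 (fun x => le_refl _) hds t1
  have h1n : ∀ x, 0 ≤ f1 x := Kit_nonneg A _ hd0 t1
  have h1s : ∀ x, f1 x = ind A x * f1 x := Kit_supp A _ hds t1
  set f2 := (Kop A)^[s2] f1 with hf2
  set F2 : Cube m → ℝ := fun x => ind A x * (P^[s2] F1) x with hF2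
  have h2 : ∀ x, f2 x ≤ F2 x := Kit_le A _ _ h1n h1 h1s s2
  have h2n : ∀ x, 0 ≤ f2 x := Kit_nonneg A _ h1n s2
  have h2s : ∀ x, f2 x = ind A x * f2 x := Kit_supp A _ h1s s2
  have h3 : ∀ x, ((Kop A)^[s3] f2) x ≤ ind A x * (P^[s3] F2) x := Kit_le A _ _ h2n h2 h2s s3
  have hal : al A z (s3 + (s2 + t1)) = (Kop A)^[s3] f2 := by
    rw [al_eq_Kop, Function.iterate_add_apply, Function.iterate_add_apply]
  rw [hal]
  have hA : ∑ w ∈ A, ((Kop A)^[s3] f2) w ≤ ∑ w, ind A w * (P^[s3] F2) w := by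
    have h4 : ∑ w ∈ A, ((Kop A)^[s3] f2) w ≤ ∑ w ∈ A, ind A w * (P^[s3] F2) w :=
      Finset.sum_le_sum fun w _ => h3 w
    refine h4.trans (le_of_eq ?_)
    refine Finset.sum_subset (Finset.subset_univ A) fun w _ hw => ?_
    unfold ind
    simp [hw]
  refine hA.trans (le_of_eq ?_)
  rw [sum_mul_Pit]
  have e2 : ∑ w, (P^[s3] (ind A)) w * F2 w =
      ∑ w, (fun y => ind A y * (P^[s3] (ind A)) y) w * (P^[s2] F1) w := by
    refine Finset.sum_congr rfl fun w _ => ?_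
    simp only [hF2]
    ring
  rw [e2, sum_mul_Pit, Pit_eq_sum]
  refine Finset.sum_congr rfl fun w _ => ?_
  simp only [hF1]
  ring

theorem Pit_le_one (hm : 0 < m) (f : Cube m → ℝ) (h : ∀ x, f x ≤ 1) (t : ℕ) (x : Cube m) :
    (P^[t] f) x ≤ 1 := by
  have h1 := Pit_mono (f := f) (g := fun _ => 1) h t x
  rw [Pit_const hm] at h1
  exact h1

theorem tail (hm : 0 < m) (A : Finset (Cube m)) (z : Cube m) (hz : z ∈ A) (q1 q2 t1 : ℕ)
    (hq1 : 1 ≤ q1) (hq2 : 1 ≤ q2) (Λ : ℝ)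
    (hΛ : Real.exp (-Λ) ≤ ∑ w ∈ A, al A z (q2 * (q1 * t1)) w) :
    ∑ w ∈ A, al A z (q2 * (q1 * t1)) w ≤
      (P^[q2 * (q1 * t1)] (ind A)) z * (2 * (P^[q1 * t1] (ind A)) z + Λ / q2)
        * (2 * (P^[t1] (ind A)) z + Λ / q1) := by
  set T1 := q1 * t1 with hT1
  have hle1 : t1 ≤ T1 := by rw [hT1]; exact Nat.le_mul_of_pos_left t1 hq1
  have hle2 : T1 ≤ q2 * T1 := Nat.le_mul_of_pos_left T1 hq2
  have hsplit : q2 * T1 = (q2 * T1 - T1) + ((T1 - t1) + t1) := by omega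
  have h1 := al_sum_le A z hz t1 (T1 - t1) (q2 * T1 - T1)
  rw [← hsplit] at h1
  set g : Cube m → ℝ := fun y => ind A y * (P^[q2 * T1 - T1] (ind A)) y with hg
  have hP0 : ∀ x, 0 ≤ (P^[q2 * T1 - T1] (ind A)) x := Pit_nonneg (ind_nonneg A) _
  have hP1 : ∀ x, (P^[q2 * T1 - T1] (ind A)) x ≤ 1 := Pit_le_one hm _ (ind_le_one A) _
  have hg0 : ∀ x, 0 ≤ g x := fun x => mul_nonneg (ind_nonneg A x) (hP0 x)
  have hg1 : ∀ x, g x ≤ 1 := fun x =>
    (mul_le_of_le_one_left (hP0 x) (ind_le_one A x)).trans (hP1 x)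
  have hb1 := block hm g hg0 hg1 A z q1 t1 hq1 Λ (hΛ.trans h1)
  rw [← hT1] at hb1
  -- the middle quantity
  have hρ1 : (P^[t1] (fun y => ind A y * (P^[T1 - t1] g) y)) z ≤ (P^[T1] g) z := by
    have h2 : ∀ x, ind A x * (P^[T1 - t1] g) x ≤ (P^[T1 - t1] g) x := fun x =>
      mul_le_of_le_one_left (Pit_nonneg hg0 _ x) (ind_le_one A x)
    have h3 := Pit_mono h2 t1 z
    have h4 : (P^[t1] (fun y => (P^[T1 - t1] g) y)) z = (P^[T1] g) z := by
      have : T1 = t1 + (T1 - t1) := by omega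
      conv_rhs => rw [this, Function.iterate_add_apply]
    exact h3.trans (le_of_eq h4)
  have hρ2 : Real.exp (-Λ) ≤ (P^[T1] g) z := (hΛ.trans h1).trans hρ1
  have hb2 := block hm (ind A) (ind_nonneg A) (ind_le_one A) A z q2 T1 hq2 Λ hρ2
  have hΛ0 : 0 ≤ Λ := by
    have h5 : (P^[T1] g) z ≤ 1 := Pit_le_one hm g hg1 T1 z
    have h6 : Real.exp (-Λ) ≤ 1 := hρ2.trans h5
    have h7 := Real.exp_le_one_iff.1 h6
    linarith
  have hfac : 0 ≤ 2 * (P^[t1] (ind A)) z + Λ / q1 := by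
    have h8 := Pit_nonneg (ind_nonneg A) t1 z
    have h9 : 0 ≤ Λ / (q1 : ℝ) := div_nonneg hΛ0 (Nat.cast_nonneg _)
    linarith
  calc ∑ w ∈ A, al A z (q2 * T1) w
      ≤ (P^[t1] (fun y => ind A y * (P^[T1 - t1] g) y)) z := h1
    _ ≤ (P^[T1] g) z * (2 * (P^[t1] (ind A)) z + Λ / q1) := hb1
    _ ≤ _ := mul_le_mul_of_nonneg_right hb2 hfac

end Pool.Agent.H.MP_b23ae3_co.Asy
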