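import Pool.Agent.H.MP_b23ae3_co.asy.Base
import Pool.Agent.H.MP_b23ae3_co.asy.Principle
import Pool.Agent.H.MP_b23ae3_co.asy.Sharp
import Pool.Agent.H.MP_b23ae3_co.asy.Maximal
import Pool.Agent.H.MP_b23ae3_co.asy.Pt
import Pool.Agent.H.MP_b23ae3_co.asy.Small
import Pool.Agent.H.MP_b23ae3_co.asy.Tail

set_option autoImplicit false

open Finset

namespace Pool.Agent.H.MP_b23ae3_co.Asy

variable {m : ℕ}

/-! ### M10 LowerStatic.lean : assembly
-/

theorem ls_near_card (v : Cube m) : (univ.filter (fun w => Near v w)).card = m + 1 := by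
  have h := sharpN_eq (fun _ : Cube m => (1 : ℝ)) v
  rw [← Finset.sum_filter] at h
  simp only [Finset.sum_const, nsmul_eq_mul, mul_one, sharpN, card_univ, Fintype.card_fin] at h
  have : ((univ.filter (fun w => Near v w)).card : ℝ) = ((m + 1 : ℕ) : ℝ) := by
    push_cast; rw [h]; ring
  exact_mod_cast this

theorem ls_near_comm {x y : Cube m} : Near x y ↔ Near y x := ⟨Near.symm', Near.symm'⟩

theorem ls_near_card' (v : Cube m) : (univ.filter (fun w => Near w v)).card = m + 1 := by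
  rw [← ls_near_card v]
  congr 1
  ext w
  simp only [mem_filter, mem_univ, true_and]
  exact ls_near_comm

/-- truncated multiplicities -/
def trn (n : Cube m → ℕ) (v : Cube m) : ℕ := min (n v) (m + 1)

theorem ls_jn_zero {n : Cube m → ℕ} {w : Cube m} (h : jn (trn n) w = 0) : jn n w = 0 := by
  unfold jn at *
  rw [Finset.sum_eq_zero_iff] at *
  intro v hv
  have h1 := h v hv
  by_cases h2 : Near v w
  · simp only [h2, if_true, trn] at h1 ⊢
    omega
  · simp [h2]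

theorem ls_jn_le (n : Cube m → ℕ) (w : Cube m) : jn (trn n) w ≤ (m + 1) ^ 2 := by
  unfold jn
  rw [← Finset.sum_filter]
  calc ∑ v ∈ univ.filter (fun v => Near v w), trn n v
      ≤ ∑ _v ∈ univ.filter (fun v => Near v w), (m + 1) :=
        Finset.sum_le_sum fun v _ => min_le_right _ _
    _ = (m + 1) ^ 2 := by
        rw [Finset.sum_const, ls_near_card', smul_eq_mul, sq]

theorem ls_sum_jn (n : Cube m → ℕ) : ∑ w, jn n w = (m + 1) * ∑ v, n v := by
  unfold jn
  rw [Finset.sum_comm, Finset.mul_sum]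
  refine Finset.sum_congr rfl fun v _ => ?_
  rw [← Finset.sum_filter, Finset.sum_const, ls_near_card, smul_eq_mul]

theorem ls_threat {n : Cube m → ℕ} {S : Finset (Cube m)} (h : Threat n S) :
    Threat (trn n) S := by
  obtain ⟨h1, c, h2, h3⟩ := h
  refine ⟨h1, c, h2, fun v => le_min (h3 v) ?_⟩
  calc ((bd S).filter (fun x => c x = v)).card
      ≤ (univ.filter (fun w => Near w v)).card := by
        apply Finset.card_le_card
        intro x hx
        rw [mem_filter] at hx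
        simp only [mem_filter, mem_univ, true_and]
        have := h2 x hx.1
        rwa [hx.2] at this
    _ = m + 1 := ls_near_card' v

theorem ls_guard {n : Cube m → ℕ} {S : Finset (Cube m)} {c : Cube m → Cube m}
    (h3 : ∀ v, ((bd S).filter (fun x => c x = v)).card ≤ n v) (w : Cube m) :
    (∑ x ∈ bd S, if Near (c x) w then (1 : ℝ) else 0) ≤ (jn n w : ℝ) := by
  have h1 : ∑ x ∈ bd S, (if Near (c x) w then (1 : ℝ) else 0)
      = ∑ v, ∑ x ∈ (bd S).filter (fun x => c x = v), (if Near v w then (1 : ℝ) else 0) := by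
    rw [← Finset.sum_fiberwise (s := bd S) (g := c)]
    refine Finset.sum_congr rfl fun v _ => Finset.sum_congr rfl fun x hx => ?_
    rw [(mem_filter.1 hx).2]
  rw [h1]
  unfold jn
  push_cast
  apply Finset.sum_le_sum
  intro v _
  rw [Finset.sum_const, nsmul_eq_mul]
  by_cases h : Near v w
  · simp only [h, if_true, mul_one]
    exact_mod_cast h3 v
  · simp [h]

theorem ls_al_le (A : Finset (Cube m)) (z : Cube m) (K : ℕ) (x : Cube m) :
    ∑ t ∈ range (K + 1), al A z t x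
      ≤ dl z x + P (fun y => ∑ t ∈ range (K + 1), al A z t y) x := by
  have h1 : P (fun y => ∑ t ∈ range (K + 1), al A z t y) x
      = ∑ t ∈ range (K + 1), P (al A z t) x := by
    have := congrFun (Pit_sum (range (K + 1)) (fun t => al A z t) 1) x
    simpa using this
  rw [h1, Finset.sum_range_succ', add_comm]
  have h2 : al A z 0 x = dl z x := rfl
  rw [h2]
  gcongr
  have h3 : ∑ t ∈ range K, al A z (t + 1) x ≤ ∑ t ∈ range K, P (al A z t) x := by
    apply Finset.sum_le_sum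
    intro t _
    simp only [al]
    split_ifs
    · exact le_refl _
    · exact P_nonneg (sharp_al_nonneg A z t) x
  refine h3.trans ?_
  rw [Finset.sum_range_succ]
  have := P_nonneg (sharp_al_nonneg A z K) x
  linarith

/-- the numerical conditions -/
structure Num (ε : ℝ) (l : ℕ) : Prop where
  two : 2 ≤ l
  mix : ((l : ℝ) + 1) ^ 73 * Real.exp (-l) ≤ 1 / 10
  big : 1200 ^ 2 * (l : ℝ) ^ 2 * (1 + l) ≤ (l : ℝ) ^ 73
  t1 : (1200 * (l : ℝ)) ^ 2 ≤ (l : ℝ) ^ 32
  pol : ((l : ℝ) ^ 72 + 1) * (228 * 457 ^ 2 / (l : ℝ) ^ 73) ≤ ε / 2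
  ex : ((l : ℝ) ^ 72 + 1) * Real.exp (-l) ≤ ε / 2
  fin : (1 + 2 / (l : ℝ)) * ((1 + 1 / (l : ℝ)) * (1 - ε))
    + 2 * (1 + 2 * (2 * (73 * Real.logb 2 (l + 2) + 1))) / l < 1 - ε / 2

theorem ls_num (ε : ℝ) (hε : 0 < ε) : ∃ l0 : ℕ, ∀ l : ℕ, l0 ≤ l → Num ε l := by
  have hinv : Filter.Tendsto (fun l : ℕ => 1 / (l : ℝ)) Filter.atTop (nhds 0) :=
    tendsto_one_div_atTop_nhds_zero_nat
  have hshift : Filter.Tendsto (fun l : ℕ => (l : ℝ) + 1) Filter.atTop Filter.atTop :=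
    Filter.tendsto_atTop_add_const_right _ _ tendsto_natCast_atTop_atTop
  have hmix : Filter.Tendsto (fun l : ℕ => ((l : ℝ) + 1) ^ 73 * Real.exp (-l)) Filter.atTop
      (nhds 0) := by
    have h1 := (Real.tendsto_pow_mul_exp_neg_atTop_nhds_zero 73).comp hshift
    have h2 := h1.mul_const (Real.exp 1)
    rw [zero_mul] at h2
    refine h2.congr fun l => ?_
    simp only [Function.comp_apply]
    rw [mul_assoc, ← Real.exp_add]
    congr 2
    ring
  have hex : Filter.Tendsto (fun l : ℕ => ((l : ℝ) ^ 72 + 1) * Real.exp (-l)) Filter.atTop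
      (nhds 0) := by
    have h1 := (Real.tendsto_pow_mul_exp_neg_atTop_nhds_zero 72).comp
      (tendsto_natCast_atTop_atTop (R := ℝ))
    have h2 := (Real.tendsto_pow_mul_exp_neg_atTop_nhds_zero 0).comp
      (tendsto_natCast_atTop_atTop (R := ℝ))
    have h3 := h1.add h2
    rw [add_zero] at h3
    refine h3.congr fun l => ?_
    simp only [Function.comp_apply]
    ring
  have hlog : Filter.Tendsto (fun l : ℕ => Real.logb 2 (l + 2) / l) Filter.atTop (nhds 0) := by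
    have hs : Filter.Tendsto (fun l : ℕ => (l : ℝ) + 2) Filter.atTop Filter.atTop :=
      Filter.tendsto_atTop_add_const_right _ _ tendsto_natCast_atTop_atTop
    have h1 : Filter.Tendsto (fun x : ℝ => Real.log x / x) Filter.atTop (nhds 0) :=
      Real.isLittleO_log_id_atTop.tendsto_div_nhds_zero
    have h2 := h1.comp hs
    have h3 : Filter.Tendsto (fun l : ℕ => ((l : ℝ) + 2) / l) Filter.atTop (nhds 1) := by
      have h4 := (tendsto_const_nhds (x := (1 : ℝ))).add (hinv.const_mul 2)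
      rw [mul_zero, add_zero] at h4
      refine h4.congr' ?_
      filter_upwards [Filter.eventually_gt_atTop 0] with l hl
      have : (l : ℝ) ≠ 0 := by exact_mod_cast hl.ne'
      field_simp
    have h5 := (h2.mul h3).mul_const (1 / Real.log 2)
    rw [zero_mul, zero_mul] at h5
    refine h5.congr fun l => ?_
    simp only [Function.comp_apply, Real.logb]
    have : (l : ℝ) + 2 ≠ 0 := by positivity
    field_simp
  have hfin : Filter.Tendsto (fun l : ℕ => (1 + 2 / (l : ℝ)) * ((1 + 1 / (l : ℝ)) * (1 - ε))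
    + 2 * (1 + 2 * (2 * (73 * Real.logb 2 (l + 2) + 1))) / l) Filter.atTop
      (nhds ((1 + 2 * 0) * ((1 + 0) * (1 - ε)) + (10 * 0 + 584 / 2 * 2 * 0))) := by
    have h1 : Filter.Tendsto (fun l : ℕ => (1 + 2 * (1 / (l : ℝ)))
        * ((1 + 1 / (l : ℝ)) * (1 - ε))
        + (10 * (1 / (l : ℝ)) + 584 / 2 * 2 * (Real.logb 2 (l + 2) / l))) Filter.atTop
        (nhds ((1 + 2 * 0) * ((1 + 0) * (1 - ε)) + (10 * 0 + 584 / 2 * 2 * 0))) :=
      ((tendsto_const_nhds.add (hinv.const_mul 2)).mul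
        ((tendsto_const_nhds.add hinv).mul_const _)).add
        ((hinv.const_mul _).add (hlog.const_mul _))
    refine h1.congr fun l => ?_
    ring
  have hlt : (1 + 2 * 0) * ((1 + 0) * (1 - ε)) + (10 * 0 + 584 / 2 * 2 * 0) < 1 - ε / 2 := by
    linarith
  have hC : Filter.Tendsto (fun l : ℕ => (2 * (228 * 457 ^ 2)) * (1 / (l : ℝ))) Filter.atTop
      (nhds 0) := by
    have := hinv.const_mul (2 * (228 * 457 ^ 2) : ℝ)
    rwa [mul_zero] at this
  have hall : ∀ᶠ l : ℕ in Filter.atTop, Num ε l := by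
    filter_upwards [hmix.eventually_le_const (show (0 : ℝ) < 1 / 10 by norm_num),
      hex.eventually_le_const (show (0 : ℝ) < ε / 2 by linarith),
      hC.eventually_le_const (show (0 : ℝ) < ε / 2 by linarith),
      hfin.eventually_lt_const hlt, Filter.eventually_ge_atTop 1200] with l h1 h2 h3 h4 h5
    have hl : (1200 : ℝ) ≤ l := by exact_mod_cast h5
    have hl1 : (1 : ℝ) ≤ l := by linarith
    refine ⟨by omega, h1, ?_, ?_, ?_, h2, h4⟩
    · calc (1200 : ℝ) ^ 2 * (l : ℝ) ^ 2 * (1 + l) ≤ (l : ℝ) ^ 2 * (l : ℝ) ^ 2 * (l ^ 2) := by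
            gcongr
            nlinarith
        _ = (l : ℝ) ^ 6 := by ring
        _ ≤ (l : ℝ) ^ 73 := pow_le_pow_right₀ hl1 (by norm_num)
    · calc (1200 * (l : ℝ)) ^ 2 ≤ (l * (l : ℝ)) ^ 2 := by gcongr
        _ = (l : ℝ) ^ 4 := by ring
        _ ≤ (l : ℝ) ^ 32 := pow_le_pow_right₀ hl1 (by norm_num)
    · have h6 : (1 : ℝ) ≤ (l : ℝ) ^ 72 := one_le_pow₀ hl1
      calc ((l : ℝ) ^ 72 + 1) * (228 * 457 ^ 2 / (l : ℝ) ^ 73)
          ≤ ((l : ℝ) ^ 72 + (l : ℝ) ^ 72) * (228 * 457 ^ 2 / (l : ℝ) ^ 73) := by gcongr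
        _ = (2 * (228 * 457 ^ 2)) * (1 / (l : ℝ)) := by
            have : (l : ℝ) ≠ 0 := by positivity
            field_simp
            norm_num
        _ ≤ ε / 2 := h3
  obtain ⟨l0, h⟩ := Filter.eventually_atTop.1 hall
  exact ⟨l0, h⟩

theorem ls_pow_sqrt (l : ℕ) (k : ℕ) : Real.sqrt ((((l : ℕ) ^ (2 * k) : ℕ)) : ℝ) = (l : ℝ) ^ k := by
  have h : (((l : ℕ) ^ (2 * k) : ℕ) : ℝ) = ((l : ℝ) ^ k) ^ 2 := by
    push_cast
    ring
  rw [h]
  exact Real.sqrt_sq (by positivity)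

theorem ls_mass (ε : ℝ) (l : ℕ) (hl : Num ε l) (hm1 : l ^ 73 ≤ m)
    (hm2 : m < (l + 1) ^ 73) {z : Cube m} {S : Finset (Cube m)} (hz : z ∈ S)
    (hS : 2 * S.card ≤ 2 ^ m) (c : Cube m → Cube m) (hc : ∀ x ∈ bd S, Near x (c x))
    (jj : Cube m → ℝ)
    (hj : ∀ w, (∑ x ∈ bd S, if Near (c x) w then (1 : ℝ) else 0) ≤ jj w)
    (hJ : ∀ t, t ≤ m + m * l + 2 → (P^[t] jj) z ≤ l) :
    ((l : ℝ) ^ 72 + 1) * ∑ w ∈ S, al (S ∪ bd S) z (l ^ 72) w ≤ ε / 2 := by
  have hl2 := hl.two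
  have hl0 : (0 : ℝ) < l := by
    have : 0 < l := by omega
    exact_mod_cast this
  have hl1 : (1 : ℝ) ≤ l := by
    have : 1 ≤ l := by omega
    exact_mod_cast this
  have hlm : l ≤ m := le_trans (Nat.le_self_pow (by norm_num) l) hm1
  have hm : 2 ≤ m := by omega
  have hm0 : (0 : ℝ) < m := by
    have : 0 < m := by omega
    exact_mod_cast this
  have hmR : (l : ℝ) ^ 73 ≤ m := by exact_mod_cast hm1
  have h6 : (m : ℝ) ≤ ((l : ℝ) + 1) ^ 73 := by
    have : m ≤ (l + 1) ^ 73 := hm2.le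
    exact_mod_cast this
  have hpw : ∀ k, k ≤ 73 → l ^ k ≤ m := fun k hk =>
    le_trans (Nat.pow_le_pow_right (by omega) hk) hm1
  clear hm1 hm2
  have hzA : z ∈ S ∪ bd S := mem_union_left _ hz
  have hp : ∀ t, 1 ≤ t → t ≤ m + m * l + 1 →
      (P^[t] (ind (bd S))) z ≤ 48 * l / (min t m : ℕ) := by
    intro t ht1 ht2
    exact p_bound hm ht1 z S c hc jj hj l hl1 (hJ t (by omega)) (hJ (t + 1) (by omega))
  have h1 : (m : ℝ) * (1 - 1 / (m : ℝ)) ^ (m * l) ≤ 1 / 10 := by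
    have h2 : (1 - 1 / (m : ℝ)) ^ m ≤ Real.exp (-1) := by
      have h3 : 1 - 1 / (m : ℝ) ≤ Real.exp (-(1 / (m : ℝ))) := by
        have := Real.add_one_le_exp (-(1 / (m : ℝ)))
        linarith
      have h4 : 0 ≤ 1 - 1 / (m : ℝ) := by
        rw [sub_nonneg, div_le_one hm0]
        have : 1 ≤ m := by omega
        exact_mod_cast this
      calc (1 - 1 / (m : ℝ)) ^ m ≤ (Real.exp (-(1 / (m : ℝ)))) ^ m := pow_le_pow_left₀ h4 h3 m
        _ = Real.exp (-1) := by
            rw [← Real.exp_nat_mul]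
            congr 1
            field_simp
    have h4 : 0 ≤ 1 - 1 / (m : ℝ) := by
      rw [sub_nonneg, div_le_one hm0]
      have : 1 ≤ m := by omega
      exact_mod_cast this
    have h5 : (1 - 1 / (m : ℝ)) ^ (m * l) ≤ Real.exp (-l) := by
      rw [pow_mul]
      calc ((1 - 1 / (m : ℝ)) ^ m) ^ l ≤ (Real.exp (-1)) ^ l :=
            pow_le_pow_left₀ (pow_nonneg h4 m) h2 l
        _ = Real.exp (-l) := by
            rw [← Real.exp_nat_mul]
            congr 1
            ring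
    have h7 : 0 ≤ (1 - 1 / (m : ℝ)) ^ (m * l) := pow_nonneg h4 _
    have h8 := hl.mix
    have h9 : (m : ℝ) * (1 - 1 / (m : ℝ)) ^ (m * l) ≤ (m : ℝ) * Real.exp (-l) :=
      mul_le_mul_of_nonneg_left h5 hm0.le
    have h10 : (m : ℝ) * Real.exp (-l) ≤ ((l : ℝ) + 1) ^ 73 * Real.exp (-l) :=
      mul_le_mul_of_nonneg_right h6 (Real.exp_pos _).le
    exact h9.trans (h10.trans h8)
  have h2 : 1200 * (l : ℝ) * Real.sqrt ((m : ℝ) + (m * l : ℕ)) ≤ m := by
    apply (pow_le_pow_iff_left₀ (by positivity) hm0.le two_ne_zero).1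
    rw [mul_pow, Real.sq_sqrt (by positivity)]
    push_cast
    calc (1200 * (l : ℝ)) ^ 2 * ((m : ℝ) + m * l)
        = (1200 ^ 2 * (l : ℝ) ^ 2 * (1 + l)) * m := by ring
      _ ≤ (l : ℝ) ^ 73 * m := by
          apply mul_le_mul_of_nonneg_right hl.big hm0.le
      _ ≤ m * m := mul_le_mul_of_nonneg_right hmR hm0.le
      _ = (m : ℝ) ^ 2 := by ring
  have hD : ∀ k, 16 ≤ k → 2 * k ≤ 72 →
      (P^[l ^ (2 * k)] (ind (S ∪ bd S))) z ≤ 228 * l / (l : ℝ) ^ k := by
    intro k hk1 hk2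
    have h3 := D_small hm z S hz hS l hl1 (m * l) hp h1 h2 (l ^ (2 * k)) (by
      push_cast
      refine hl.t1.trans ?_
      exact pow_le_pow_right₀ hl1 (by omega)) (by
      exact hpw (2 * k) (by omega))
    rwa [ls_pow_sqrt] at h3
  have hA1 := hD 16 (by omega) (by omega)
  have hA2 := hD 24 (by omega) (by omega)
  have hA3 := hD 36 (by omega) (by omega)
  rw [show 2 * 16 = 32 by omega] at hA1
  rw [show 2 * 24 = 48 by omega] at hA2
  rw [show 2 * 36 = 72 by omega] at hA3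
  have hSA : ∑ w ∈ S, al (S ∪ bd S) z (l ^ 72) w ≤ ∑ w ∈ S ∪ bd S, al (S ∪ bd S) z (l ^ 72) w :=
    Finset.sum_le_sum_of_subset_of_nonneg subset_union_left
      fun w _ _ => sharp_al_nonneg _ _ _ _
  by_cases hs : Real.exp (-(l : ℝ)) ≤ ∑ w ∈ S ∪ bd S, al (S ∪ bd S) z (l ^ 72) w
  · have hK : l ^ 24 * (l ^ 16 * l ^ 32) = l ^ 72 := by ring
    have hK2 : l ^ 16 * l ^ 32 = l ^ 48 := by ring
    have ht := tail (by omega : 0 < m) (S ∪ bd S) z hzA (l ^ 16) (l ^ 24) (l ^ 32)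
      (Nat.one_le_pow _ _ (by omega)) (Nat.one_le_pow _ _ (by omega)) l
      (by rw [hK]; exact hs)
    rw [hK, hK2] at ht
    have hn1 := Pit_nonneg (f := ind (S ∪ bd S))
      (fun x => by simp only [ind]; split_ifs <;> norm_num) (l ^ 32) z
    have hn2 := Pit_nonneg (f := ind (S ∪ bd S))
      (fun x => by simp only [ind]; split_ifs <;> norm_num) (l ^ 48) z
    have hn3 := Pit_nonneg (f := ind (S ∪ bd S))
      (fun x => by simp only [ind]; split_ifs <;> norm_num) (l ^ 72) z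
    push_cast at ht
    have hq : ∀ k : ℕ, (l : ℝ) / (l : ℝ) ^ (k + 1) = 1 / (l : ℝ) ^ k := by
      intro k
      rw [pow_succ', div_mul_eq_div_div, div_self hl0.ne']
    have h7 : (P^[l ^ 72] (ind (S ∪ bd S))) z ≤ 228 * (1 / (l : ℝ) ^ 35) := by
      rw [← hq, ← mul_div_assoc]; exact hA3
    have h8 : 2 * (P^[l ^ 48] (ind (S ∪ bd S))) z + (l : ℝ) / (l : ℝ) ^ 24
        ≤ 457 * (1 / (l : ℝ) ^ 23) := by
      have h9 : (l : ℝ) / (l : ℝ) ^ 24 = 1 / (l : ℝ) ^ 23 := hq 23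
      have h10 : 228 * (l : ℝ) / (l : ℝ) ^ 24 = 228 * (1 / (l : ℝ) ^ 23) := by
        rw [mul_div_assoc, h9]
      rw [h10] at hA2
      rw [h9]
      linarith
    have h9 : 2 * (P^[l ^ 32] (ind (S ∪ bd S))) z + (l : ℝ) / (l : ℝ) ^ 16
        ≤ 457 * (1 / (l : ℝ) ^ 15) := by
      have h9 : (l : ℝ) / (l : ℝ) ^ 16 = 1 / (l : ℝ) ^ 15 := hq 15
      have h10 : 228 * (l : ℝ) / (l : ℝ) ^ 16 = 228 * (1 / (l : ℝ) ^ 15) := by
        rw [mul_div_assoc, h9]
      rw [h10] at hA1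
      rw [h9]
      linarith
    have h5 : (P^[l ^ 72] (ind (S ∪ bd S))) z * (2 * (P^[l ^ 48] (ind (S ∪ bd S))) z
        + (l : ℝ) / (l : ℝ) ^ 24) * (2 * (P^[l ^ 32] (ind (S ∪ bd S))) z
        + (l : ℝ) / (l : ℝ) ^ 16)
        ≤ (228 * (1 / (l : ℝ) ^ 35)) * (457 * (1 / (l : ℝ) ^ 23))
          * (457 * (1 / (l : ℝ) ^ 15)) := by
      have hq0 : 0 ≤ (l : ℝ) / (l : ℝ) ^ 24 := by positivity
      have hq1 : 0 ≤ (l : ℝ) / (l : ℝ) ^ 16 := by positivity
      exact mul_le_mul (mul_le_mul h7 h8 (by linarith) (by positivity)) h9 (by linarith)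
        (by positivity)
    have h6 : (228 * (1 / (l : ℝ) ^ 35)) * (457 * (1 / (l : ℝ) ^ 23))
          * (457 * (1 / (l : ℝ) ^ 15)) = 228 * 457 ^ 2 / (l : ℝ) ^ 73 := by
      have h11 : (l : ℝ) ^ 73 = (l : ℝ) ^ 35 * (l : ℝ) ^ 23 * (l : ℝ) ^ 15 := by
        rw [← pow_add, ← pow_add]
      rw [h11]
      generalize (l : ℝ) ^ 35 = a1
      generalize (l : ℝ) ^ 23 = a2
      generalize (l : ℝ) ^ 15 = a3
      rw [mul_one_div, mul_one_div, mul_one_div, div_mul_div_comm, div_mul_div_comm]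
      norm_num
    calc ((l : ℝ) ^ 72 + 1) * ∑ w ∈ S, al (S ∪ bd S) z (l ^ 72) w
        ≤ ((l : ℝ) ^ 72 + 1) * (228 * 457 ^ 2 / (l : ℝ) ^ 73) := by
          apply mul_le_mul_of_nonneg_left _ (by positivity)
          linarith
      _ ≤ ε / 2 := hl.pol
  · push Not at hs
    calc ((l : ℝ) ^ 72 + 1) * ∑ w ∈ S, al (S ∪ bd S) z (l ^ 72) w
        ≤ ((l : ℝ) ^ 72 + 1) * Real.exp (-(l : ℝ)) := by
          apply mul_le_mul_of_nonneg_left _ (by positivity)
          linarith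
      _ ≤ ε / 2 := hl.ex

theorem ls_dl_sum (z : Cube m) (f : Cube m → ℝ) : ∑ x, dl z x * f x = f z := by
  simp [dl]

theorem ls_main (ε : ℝ) (hε : 0 < ε) (l : ℕ) (hl : Num ε l) (hm1 : l ^ 73 ≤ m)
    (hm2 : m < (l + 1) ^ 73) (n : Cube m → ℕ)
    (hk : ((∑ v, n v : ℕ) : ℝ) * m ≤ (1 - ε) * 2 ^ m) :
    ∃ z, jn n z = 0 ∧ ∀ S : Finset (Cube m), z ∈ S → ¬ Threat n S := by
  classical
  by_contra hcon
  push Not at hcon
  have hl2 := hl.two
  have hl0 : (0 : ℝ) < l := by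
    have : 0 < l := by omega
    exact_mod_cast this
  have hl1 : (1 : ℝ) ≤ l := by
    have : 1 ≤ l := by omega
    exact_mod_cast this
  have hlm : l ≤ m := le_trans (Nat.le_self_pow (by norm_num) l) hm1
  have hm : 2 ≤ m := by omega
  have hmp : 0 < m := by omega
  have hm0 : (0 : ℝ) < m := by exact_mod_cast hmp
  have hKm : l ^ 72 ≤ m := le_trans (Nat.pow_le_pow_right (by omega) (by norm_num)) hm1
  have hKl : ((l ^ 72 : ℕ) : ℝ) / m ≤ 1 / l := by
    rw [div_le_div_iff₀ hm0 hl0, one_mul]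
    have : l ^ 72 * l ≤ m := by rw [← pow_succ]; exact hm1
    exact_mod_cast this
  have hmass := fun (z : Cube m) (S : Finset (Cube m)) (hz : z ∈ S) (hS : 2 * S.card ≤ 2 ^ m)
    (c : Cube m → Cube m) (hc : ∀ x ∈ bd S, Near x (c x)) (jj : Cube m → ℝ)
    (hj : ∀ w, (∑ x ∈ bd S, if Near (c x) w then (1 : ℝ) else 0) ≤ jj w)
    (hJ : ∀ t, t ≤ m + m * l + 2 → (P^[t] jj) z ≤ l) =>
    ls_mass ε l hl hm1 hm2 hz hS c hc jj hj hJ
  have hlogb : (Nat.log 2 (m + 1) : ℝ) ≤ 73 * Real.logb 2 (l + 2) := by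
    have h1 : (Nat.log 2 (m + 1) : ℝ) ≤ Real.logb 2 ((m + 1 : ℕ) : ℝ) := Real.natLog_le_logb _ _
    refine h1.trans ?_
    have h2 : ((m + 1 : ℕ) : ℝ) ≤ ((l : ℝ) + 2) ^ 73 := by
      have h3 : m + 1 ≤ (l + 2) ^ 73 :=
        le_trans (Nat.succ_le_of_lt hm2) (Nat.pow_le_pow_left (by omega) 73)
      exact_mod_cast h3
    have h4 := Real.logb_le_logb_of_le (b := 2) (by norm_num)
      (by exact_mod_cast Nat.succ_pos m) h2
    rw [Real.logb_pow] at h4
    exact_mod_cast h4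
  clear hm1 hm2
  set κ : ℕ := 2 * Nat.log 2 (m + 1) + 1 with hκ
  have hκ1 : (m + 1) ^ 2 < 2 ^ (κ + 1) := by
    have h1 : m + 1 < 2 ^ (Nat.log 2 (m + 1) + 1) := Nat.lt_pow_succ_log_self (by norm_num) _
    calc (m + 1) ^ 2 < (2 ^ (Nat.log 2 (m + 1) + 1)) ^ 2 := Nat.pow_lt_pow_left h1 (by norm_num)
      _ = 2 ^ (κ + 1) := by
          rw [← pow_mul, hκ]
          congr 1
          ring
  set jj : Cube m → ℝ := fun w => (jn (trn n) w : ℝ) with hjj
  have hjj0 : ∀ w, 0 ≤ jj w := fun w => Nat.cast_nonneg _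
  have hjjB : ∀ w, jj w ≤ ((m : ℝ) + 1) ^ 2 := by
    intro w
    have := ls_jn_le n w
    show ((jn (trn n) w : ℕ) : ℝ) ≤ _
    exact_mod_cast this
  have hκR : ((m : ℝ) + 1) ^ 2 < 2 ^ (κ + 1) := by exact_mod_cast hκ1
  have hjj1 : ∀ w, jj w < 2 ^ (κ + 1) := fun w => (hjjB w).trans_lt hκR
  have hP0 : ∀ w, 0 ≤ P jj w := P_nonneg hjj0
  have hP1 : ∀ w, P jj w < 2 ^ (κ + 1) := by
    intro w
    have h1 := P_mono hjjB w
    rw [P_const hmp] at h1
    exact h1.trans_lt hκR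
  obtain ⟨U1, hU1, hU1s⟩ := maximal hmp jj hjj0 κ hjj1 (m + m * l + 2)
  obtain ⟨U2, hU2, hU2s⟩ := maximal hmp (P jj) hP0 κ hP1 (m + m * l + 2)
  rw [sum_P hmp] at hU2s
  set k : ℝ := ((∑ v, n v : ℕ) : ℝ) with hkdef
  have hk0 : 0 ≤ k := Nat.cast_nonneg _
  have hJs : ∑ w, jj w ≤ (m + 1) * k := by
    have h1 : ∑ w, jj w = (((m + 1) * ∑ v, trn n v : ℕ) : ℝ) := by
      rw [← ls_sum_jn]
      push_cast
      rfl
    rw [h1]
    push_cast
    have h2 : (∑ v, (trn n v : ℝ)) ≤ k := by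
      rw [hkdef]
      push_cast
      exact Finset.sum_le_sum fun v _ => by exact_mod_cast min_le_left _ _
    exact mul_le_mul_of_nonneg_left h2 (by positivity)
  have h2m : (0 : ℝ) < 2 ^ m := by positivity
  have hkm0 : 0 ≤ k * m := by positivity
  have hJs1 : ∑ w, jj w ≤ (1 + 1 / (l : ℝ)) * (1 - ε) * 2 ^ m := by
    have h1 : ((m : ℝ) + 1) * k = (1 + 1 / (m : ℝ)) * (k * m) := by
      field_simp
    have h2 : 1 / (m : ℝ) ≤ 1 / l := by
      apply one_div_le_one_div_of_le hl0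
      exact_mod_cast hlm
    calc ∑ w, jj w ≤ (1 + 1 / (m : ℝ)) * (k * m) := by rw [← h1]; exact hJs
      _ ≤ (1 + 1 / (l : ℝ)) * (k * m) := by
          apply mul_le_mul_of_nonneg_right _ hkm0
          linarith
      _ ≤ (1 + 1 / (l : ℝ)) * ((1 - ε) * 2 ^ m) :=
          mul_le_mul_of_nonneg_left hk (by positivity)
      _ = _ := by ring
  have hJs2 : ∑ w, jj w ≤ 2 * 2 ^ m := by
    have h1 : ((m : ℝ) + 1) * k ≤ 2 * (k * m) := by
      have : (1 : ℝ) ≤ m := by exact_mod_cast hmp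
      nlinarith
    have h2 : (1 - ε) * 2 ^ m ≤ 2 ^ m := by nlinarith
    linarith
  -- the exceptional set
  set E : Finset (Cube m) := univ.filter (fun z => (l : ℝ) < U1 z ∨ (l : ℝ) < U2 z) with hE
  have hU1n : ∀ z, 0 ≤ U1 z := fun z => (hjj0 z).trans (by simpa using hU1 0 (Nat.zero_le _) z)
  have hU2n : ∀ z, 0 ≤ U2 z := fun z => (hP0 z).trans (by simpa using hU2 0 (Nat.zero_le _) z)
  have hEc : (E.card : ℝ) ≤ 2 * (1 + 2 * (2 * (73 * Real.logb 2 (l + 2) + 1))) / l * 2 ^ m := by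
    have h1 : (E.card : ℝ) * l ≤ ∑ z, (U1 z + U2 z) := by
      calc (E.card : ℝ) * l = ∑ _z ∈ E, (l : ℝ) := by rw [Finset.sum_const, nsmul_eq_mul]
        _ ≤ ∑ z ∈ E, (U1 z + U2 z) := by
            apply Finset.sum_le_sum
            intro z hz
            have h2 := hU1n z
            have h3 := hU2n z
            rcases (mem_filter.1 hz).2 with h | h <;> linarith
        _ ≤ _ := Finset.sum_le_sum_of_subset_of_nonneg (subset_univ _)
            fun z _ _ => add_nonneg (hU1n z) (hU2n z)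
    rw [Finset.sum_add_distrib] at h1
    have h2 : ((κ : ℝ) + 1) * ∑ z, jj z ≤ ((κ : ℝ) + 1) * (2 * 2 ^ m) :=
      mul_le_mul_of_nonneg_left hJs2 (by positivity)
    have h3 : (κ : ℝ) + 1 ≤ 2 * (73 * Real.logb 2 (l + 2) + 1) := by
      rw [hκ]
      push_cast
      linarith
    have h4 : (E.card : ℝ) * l ≤ 2 * (1 + 2 * ((κ : ℝ) + 1)) * 2 ^ m := by
      calc (E.card : ℝ) * l ≤ (2 ^ m + ((κ : ℝ) + 1) * ∑ z, jj z)
            + (2 ^ m + ((κ : ℝ) + 1) * ∑ z, jj z) := by linarith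
        _ ≤ (2 ^ m + ((κ : ℝ) + 1) * (2 * 2 ^ m)) + (2 ^ m + ((κ : ℝ) + 1) * (2 * 2 ^ m)) := by
            linarith
        _ = _ := by ring
    rw [div_mul_eq_mul_div, le_div_iff₀ hl0]
    refine h4.trans ?_
    apply mul_le_mul_of_nonneg_right _ h2m.le
    linarith
  have hEJ : ∀ z, z ∉ E → ∀ t, t ≤ m + m * l + 2 → (P^[t] jj) z ≤ l := by
    intro z hz t ht
    rw [hE, mem_filter] at hz
    push Not at hz
    have hz2 := hz (mem_univ _)
    rcases Nat.even_or_odd' t with ⟨a, rfl | rfl⟩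
    · exact (hU1 a (by omega) z).trans hz2.1
    · rw [Function.iterate_succ_apply]
      exact (hU2 a (by omega) z).trans hz2.2
  -- the principle
  have hprin := principle hmp (fun x => (1 + 2 * ((l ^ 72 : ℕ) : ℝ) / m) * jj x - 1 + ε / 2
    + (if x ∈ E then 1 else 0)) (by
    intro z
    by_cases hz : z ∈ E ∨ 1 ≤ jn (trn n) z
    · refine ⟨dl z, ?_, ?_, ?_, ?_⟩
      · intro x; simp only [dl]; split_ifs <;> norm_num
      · intro x
        have : 0 ≤ P (dl z) x :=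
          P_nonneg (fun y => by simp only [dl]; split_ifs <;> norm_num) x
        linarith
      · simp [dl]
      · rw [ls_dl_sum z (fun x => (1 + 2 * ((l ^ 72 : ℕ) : ℝ) / m) * jj x - 1 + ε / 2
          + (if x ∈ E then 1 else 0))]
        have h1 : 0 ≤ 2 * ((l ^ 72 : ℕ) : ℝ) / m * jj z :=
          mul_nonneg (div_nonneg (mul_nonneg (by norm_num) (Nat.cast_nonneg _)) hm0.le) (hjj0 z)
        rcases hz with hz | hz
        · simp only [hz, if_true]
          have := hjj0 z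
          linarith
        · have h2 : (1 : ℝ) ≤ jj z := by
            have h3 : ((1 : ℕ) : ℝ) ≤ ((jn (trn n) z : ℕ) : ℝ) := Nat.cast_le.2 hz
            rw [Nat.cast_one] at h3
            exact h3
          have h3 : (0 : ℝ) ≤ if z ∈ E then 1 else 0 := by split_ifs <;> norm_num
          linarith
    · push Not at hz
      obtain ⟨hzE, hz1⟩ := hz
      obtain ⟨S, hzS, hT⟩ := hcon z (ls_jn_zero (by omega))
      obtain ⟨hS, c, hc, hf⟩ := ls_threat hT
      have hj := fun w => ls_guard hf w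
      have hma := hmass z S hzS hS c hc jj hj (hEJ z hzE)
      have hsh := sharp hmp hKm S hzS c hc
      set a := al (S ∪ bd S) z with ha
      have ha0 : ∀ t w, 0 ≤ a t w := sharp_al_nonneg _ _
      refine ⟨fun x => ∑ t ∈ range (l ^ 72 + 1), a t x, ?_, ?_, ?_, ?_⟩
      · intro x; exact Finset.sum_nonneg fun t _ => ha0 t x
      · intro x; exact ls_al_le _ _ _ _
      · have h1 : ∑ x, a 0 x = 1 := by rw [ha]; simp [al, dl]
        have h2 : ∑ x, a 0 x ≤ ∑ x, ∑ t ∈ range (l ^ 72 + 1), a t x := by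
          apply Finset.sum_le_sum
          intro x _
          exact Finset.single_le_sum (f := fun t => a t x) (fun t _ => ha0 t x)
            (mem_range.2 (Nat.succ_pos _))
        linarith
      · set μ : Cube m → ℝ := fun x => ∑ t ∈ range (l ^ 72 + 1), a t x with hμ
        have hμ0 : ∀ x, 0 ≤ μ x := fun x => Finset.sum_nonneg fun t _ => ha0 t x
        have hμ1 : 1 ≤ ∑ x, μ x := by
          have h1 : ∑ x, a 0 x = 1 := by rw [ha]; simp [al, dl]
          have h2 : ∑ x, a 0 x ≤ ∑ x, ∑ t ∈ range (l ^ 72 + 1), a t x := by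
            apply Finset.sum_le_sum
            intro x _
            exact Finset.single_le_sum (f := fun t => a t x) (fun t _ => ha0 t x)
              (mem_range.2 (Nat.succ_pos _))
          linarith
        have h1 : ∑ t ∈ range (l ^ 72 + 1), ∑ w, a t w = ∑ x, μ x := Finset.sum_comm
        have h2 : ∑ t ∈ range (l ^ 72 + 1), ∑ x ∈ bd S, ∑ w, (if Near (c x) w then a t w else 0)
            ≤ ∑ w, μ w * jj w := by
          have h3 : ∀ t, ∑ x ∈ bd S, ∑ w, (if Near (c x) w then a t w else 0)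
              ≤ ∑ w, a t w * jj w := by
            intro t
            rw [Finset.sum_comm]
            apply Finset.sum_le_sum
            intro w _
            calc ∑ x ∈ bd S, (if Near (c x) w then a t w else 0)
                = a t w * ∑ x ∈ bd S, (if Near (c x) w then (1 : ℝ) else 0) := by
                  rw [Finset.mul_sum]
                  apply Finset.sum_congr rfl
                  intro x _
                  split_ifs <;> simp
              _ ≤ a t w * jj w := mul_le_mul_of_nonneg_left (hj w) (ha0 t w)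
          calc _ ≤ ∑ t ∈ range (l ^ 72 + 1), ∑ w, a t w * jj w :=
                Finset.sum_le_sum fun t _ => h3 t
            _ = ∑ w, μ w * jj w := by
                rw [Finset.sum_comm]
                apply Finset.sum_congr rfl
                intro w _
                rw [hμ, Finset.sum_mul]
        rw [h1] at hsh
        have h4 : ∑ x, μ x * ((1 + 2 * ((l ^ 72 : ℕ) : ℝ) / m) * jj x - 1 + ε / 2
            + (if x ∈ E then 1 else 0))
            = (1 + 2 * ((l ^ 72 : ℕ) : ℝ) / m) * ∑ w, μ w * jj w - (1 - ε / 2) * ∑ x, μ x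
              + ∑ x, μ x * (if x ∈ E then 1 else 0) := by
          rw [Finset.mul_sum, Finset.mul_sum, ← Finset.sum_sub_distrib,
            ← Finset.sum_add_distrib]
          apply Finset.sum_congr rfl
          intro x _
          ring
        have h5 : 0 ≤ ∑ x, μ x * (if x ∈ E then (1 : ℝ) else 0) :=
          Finset.sum_nonneg fun x _ => mul_nonneg (hμ0 x) (by split_ifs <;> norm_num)
        have h6 : 0 ≤ 1 + 2 * ((l ^ 72 : ℕ) : ℝ) / m :=
          add_nonneg zero_le_one (div_nonneg (mul_nonneg (by norm_num) (Nat.cast_nonneg _))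
            hm0.le)
        have h7 := mul_le_mul_of_nonneg_left h2 h6
        have h8 : (((l ^ 72 : ℕ) : ℝ) + 1) * ∑ w ∈ S, a (l ^ 72) w ≤ ε / 2 := by
          push_cast
          exact hma
        have h9 : ε / 2 ≤ ε / 2 * ∑ x, μ x := by nlinarith
        rw [h4]
        linarith)
  have hfin := hl.fin
  have h1 : ∑ x, ((1 + 2 * ((l ^ 72 : ℕ) : ℝ) / m) * jj x - 1 + ε / 2
      + (if x ∈ E then (1 : ℝ) else 0))
      = (1 + 2 * ((l ^ 72 : ℕ) : ℝ) / m) * ∑ w, jj w - (1 - ε / 2) * 2 ^ m + E.card := by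
    rw [Finset.sum_add_distrib, Finset.sum_add_distrib, Finset.sum_sub_distrib,
      ← Finset.mul_sum, Finset.sum_const, Finset.sum_const]
    have h2 : (univ : Finset (Cube m)).card = 2 ^ m := by
      rw [card_univ, Fintype.card_fun, ZMod.card, Fintype.card_fin]
    rw [h2]
    simp only [Finset.sum_ite_mem, univ_inter, Finset.sum_const, nsmul_eq_mul]
    push_cast
    ring
  rw [h1] at hprin
  have h2 : (1 + 2 * ((l ^ 72 : ℕ) : ℝ) / m) * ∑ w, jj w
      ≤ (1 + 2 / (l : ℝ)) * ((1 + 1 / (l : ℝ)) * (1 - ε) * 2 ^ m) := by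
    have h3 : 2 * ((l ^ 72 : ℕ) : ℝ) / m ≤ 2 / l := by
      have : 2 * ((l ^ 72 : ℕ) : ℝ) / m = 2 * (((l ^ 72 : ℕ) : ℝ) / m) := by ring
      rw [this]
      have h4 : 2 / (l : ℝ) = 2 * (1 / l) := by ring
      rw [h4]
      linarith
    have h5 : 0 ≤ ∑ w, jj w := Finset.sum_nonneg fun w _ => hjj0 w
    calc (1 + 2 * ((l ^ 72 : ℕ) : ℝ) / m) * ∑ w, jj w
        ≤ (1 + 2 / (l : ℝ)) * ∑ w, jj w := mul_le_mul_of_nonneg_right (by linarith) h5
      _ ≤ _ := mul_le_mul_of_nonneg_left hJs1 (by positivity)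
  have h3 : 0 ≤ ((1 + 2 / (l : ℝ)) * ((1 + 1 / (l : ℝ)) * (1 - ε))
      + 2 * (1 + 2 * (2 * (73 * Real.logb 2 (l + 2) + 1))) / l - (1 - ε / 2)) * 2 ^ m := by
    calc (0 : ℝ) ≤ (1 + 2 / (l : ℝ)) * ((1 + 1 / (l : ℝ)) * (1 - ε) * 2 ^ m)
          - (1 - ε / 2) * 2 ^ m
          + 2 * (1 + 2 * (2 * (73 * Real.logb 2 (l + 2) + 1))) / l * 2 ^ m := by linarith
      _ = _ := by ring
  have h4 : ((1 + 2 / (l : ℝ)) * ((1 + 1 / (l : ℝ)) * (1 - ε))
      + 2 * (1 + 2 * (2 * (73 * Real.logb 2 (l + 2) + 1))) / l - (1 - ε / 2)) * 2 ^ m < 0 :=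
    mul_neg_of_neg_of_pos (by linarith) h2m
  linarith

theorem lower_static (ε : ℝ) (hε : 0 < ε) : ∃ m0 : ℕ, ∀ m : ℕ, m0 ≤ m → ∀ n : Cube m → ℕ,
    ((∑ v, n v : ℕ) : ℝ) * m ≤ (1 - ε) * 2 ^ m →
    ∃ z, jn n z = 0 ∧ ∀ S : Finset (Cube m), z ∈ S → ¬ Threat n S := by
  obtain ⟨l0, hl0⟩ := ls_num ε hε
  refine ⟨(l0 + 1) ^ 73, fun m hm n hk => ?_⟩
  have hex : ∃ l, m < (l + 1) ^ 73 := ⟨m, by
    calc m < m + 1 := Nat.lt_succ_self _
      _ ≤ (m + 1) ^ 73 := Nat.le_self_pow (by norm_num) _⟩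
  classical
  set l := Nat.find hex with hl
  have h1 : m < (l + 1) ^ 73 := Nat.find_spec hex
  have h2 : l0 + 1 < l + 1 := by
    by_contra hc
    push Not at hc
    have : (l + 1) ^ 73 ≤ (l0 + 1) ^ 73 := Nat.pow_le_pow_left hc 73
    omega
  have h3 : l ^ 73 ≤ m := by
    have h4 : ¬ (m < (l - 1 + 1) ^ 73) := Nat.find_min hex (by omega)
    have h5 : l - 1 + 1 = l := by omega
    rw [h5] at h4
    omega
  exact ls_main ε hε l (hl0 l (by omega)) h3 h1 n hk

end Pool.Agent.H.MP_b23ae3_co.Asy
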