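import Mathlib

set_option autoImplicit false

open Finset

namespace Pool.Agent.H.MP_b23ae3_co.Asy

/-- the vertices of the cube, as a group of exponent two -/
abbrev Cube (m : ℕ) := Fin m → ZMod 2

/-- the `i`-th unit vector -/
def e {m : ℕ} (i : Fin m) : Cube m := Pi.single i 1

/-- the averaging operator of the simple random walk -/
noncomputable def P {m : ℕ} (f : Cube m → ℝ) : Cube m → ℝ := fun x => (∑ i, f (x + e i)) / m

/-- indicator function -/
def ind {m : ℕ} (S : Finset (Cube m)) : Cube m → ℝ := fun x => if x ∈ S then 1 else 0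

/-- point mass -/
def dl {m : ℕ} (z : Cube m) : Cube m → ℝ := fun x => if x = z then 1 else 0

/-- `y` is in the closed neighbourhood of `x` -/
def Near {m : ℕ} (x y : Cube m) : Prop := y = x ∨ ∃ i, y = x + e i

instance {m : ℕ} (x y : Cube m) : Decidable (Near x y) := by unfold Near; infer_instance

/-- the outer vertex boundary -/
def bd {m : ℕ} (S : Finset (Cube m)) : Finset (Cube m) :=
  univ.filter (fun x => x ∉ S ∧ ∃ i, x + e i ∈ S)

/-- the walk from `z` killed outside `A`: `al A z t w` is the probability to be alive at time `t`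
and at `w` -/
noncomputable def al {m : ℕ} (A : Finset (Cube m)) (z : Cube m) : ℕ → Cube m → ℝ
  | 0 => dl z
  | t + 1 => fun w => if w ∈ A then P (al A z t) w else 0

/-- number of cops in the closed neighbourhood of `w`, when `n v` cops stand on `v` -/
def jn {m : ℕ} (n : Cube m → ℕ) (w : Cube m) : ℕ := ∑ v, if Near v w then n v else 0

/-- threatened sets -/
def Threat {m : ℕ} (n : Cube m → ℕ) (S : Finset (Cube m)) : Prop :=
  2 * S.card ≤ 2 ^ m ∧ ∃ c : Cube m → Cube m, (∀ x ∈ bd S, Near x (c x)) ∧
    ∀ v, ((bd S).filter (fun x => c x = v)).card ≤ n v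

variable {m : ℕ}

theorem e_add_e (i : Fin m) : e i + e i = 0 := by
  unfold e
  rw [← Pi.single_add]
  have : (1 : ZMod 2) + 1 = 0 := by decide
  rw [this, Pi.single_zero]

theorem add_e_add_e (x : Cube m) (i : Fin m) : x + e i + e i = x := by
  rw [add_assoc, e_add_e, add_zero]

theorem add_self (x : Cube m) : x + x = 0 := by
  funext i
  have : ∀ a : ZMod 2, a + a = 0 := by decide
  exact this (x i)

theorem e_injective : Function.Injective (e : Fin m → Cube m) := by
  intro i j h
  by_contra hij
  have h1 := congrFun h i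
  unfold e at h1
  rw [Pi.single_eq_same, Pi.single_eq_of_ne hij] at h1
  exact one_ne_zero h1

theorem e_ne_zero (i : Fin m) : e i ≠ 0 := by
  intro h
  have h1 := congrFun h i
  unfold e at h1
  rw [Pi.single_eq_same] at h1
  exact one_ne_zero h1

theorem Near.symm' {x y : Cube m} (h : Near x y) : Near y x := by
  rcases h with h | ⟨i, h⟩
  · exact Or.inl h.symm
  · exact Or.inr ⟨i, by rw [h, add_e_add_e]⟩

theorem mem_bd {S : Finset (Cube m)} {x : Cube m} :
    x ∈ bd S ↔ x ∉ S ∧ ∃ i, x + e i ∈ S := by
  simp [bd]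

theorem add_e_mem {S : Finset (Cube m)} {y : Cube m} (h : y ∈ S) (i : Fin m) :
    y + e i ∈ S ∪ bd S := by
  by_cases h1 : y + e i ∈ S
  · exact mem_union_left _ h1
  · refine mem_union_right _ (mem_bd.2 ⟨h1, i, ?_⟩)
    rw [add_e_add_e]; exact h

/-! ### the operator `P` -/

theorem P_mono {f g : Cube m → ℝ} (h : ∀ x, f x ≤ g x) : ∀ x, P f x ≤ P g x := fun x =>
  div_le_div_of_nonneg_right (Finset.sum_le_sum fun i _ => h _) (Nat.cast_nonneg _)

theorem P_nonneg {f : Cube m → ℝ} (h : ∀ x, 0 ≤ f x) : ∀ x, 0 ≤ P f x := fun x =>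
  div_nonneg (Finset.sum_nonneg fun i _ => h _) (Nat.cast_nonneg _)

theorem P_add (f g : Cube m → ℝ) : P (fun x => f x + g x) = fun x => P f x + P g x := by
  funext x
  simp only [P, Finset.sum_add_distrib, add_div]

theorem P_sub (f g : Cube m → ℝ) : P (fun x => f x - g x) = fun x => P f x - P g x := by
  funext x
  simp only [P, Finset.sum_sub_distrib, sub_div]

theorem P_smul (c : ℝ) (f : Cube m → ℝ) : P (fun x => c * f x) = fun x => c * P f x := by
  funext x
  simp only [P, ← Finset.mul_sum, mul_div_assoc]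

theorem P_const (hm : 0 < m) (c : ℝ) : P (fun _ : Cube m => c) = fun _ => c := by
  funext x
  have : (m : ℝ) ≠ 0 := by exact_mod_cast hm.ne'
  simp only [P, Finset.sum_const, Finset.card_univ, Fintype.card_fin, nsmul_eq_mul]
  field_simp

theorem sum_shift (f : Cube m → ℝ) (i : Fin m) : ∑ x, f (x + e i) = ∑ x, f x :=
  Equiv.sum_comp (Equiv.addRight (e i)) f

/-- `P` is symmetric -/
theorem sum_mul_P (f g : Cube m → ℝ) : ∑ x, f x * P g x = ∑ x, P f x * g x := by
  have h1 : ∀ x, f x * P g x = ∑ i, f x * g (x + e i) / m := by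
    intro x; simp only [P, Finset.sum_div, Finset.mul_sum, mul_div_assoc]
  have h2 : ∀ x, P f x * g x = ∑ i, f (x + e i) * g x / m := by
    intro x
    simp only [P, Finset.sum_div, Finset.sum_mul]
    exact Finset.sum_congr rfl fun i _ => by ring
  simp only [h1, h2]
  rw [Finset.sum_comm, Finset.sum_comm (s := univ (α := Cube m))]
  refine Finset.sum_congr rfl fun i _ => ?_
  rw [← sum_shift (fun x => f x * g (x + e i) / m) i]
  refine Finset.sum_congr rfl fun x _ => ?_
  rw [add_e_add_e]

theorem sum_P (hm : 0 < m) (f : Cube m → ℝ) : ∑ x, P f x = ∑ x, f x := by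
  have := sum_mul_P (fun _ => (1 : ℝ)) f
  rw [P_const hm] at this
  simpa using this

/-! ### iterates -/

theorem Pit_mono {f g : Cube m → ℝ} (h : ∀ x, f x ≤ g x) (t : ℕ) :
    ∀ x, (P^[t] f) x ≤ (P^[t] g) x := by
  induction t with
  | zero => simpa using h
  | succ t ih =>
    intro x
    rw [Function.iterate_succ_apply', Function.iterate_succ_apply']
    exact P_mono ih x

theorem Pit_nonneg {f : Cube m → ℝ} (h : ∀ x, 0 ≤ f x) (t : ℕ) : ∀ x, 0 ≤ (P^[t] f) x := by
  induction t with
  | zero => simpa using h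
  | succ t ih =>
    intro x
    rw [Function.iterate_succ_apply']
    exact P_nonneg ih x

theorem Pit_add (f g : Cube m → ℝ) (t : ℕ) :
    P^[t] (fun x => f x + g x) = fun x => (P^[t] f) x + (P^[t] g) x := by
  induction t with
  | zero => rfl
  | succ t ih => rw [Function.iterate_succ_apply', ih, P_add, Function.iterate_succ_apply',
      Function.iterate_succ_apply']

theorem Pit_sub (f g : Cube m → ℝ) (t : ℕ) :
    P^[t] (fun x => f x - g x) = fun x => (P^[t] f) x - (P^[t] g) x := by
  induction t with
  | zero => rfl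
  | succ t ih => rw [Function.iterate_succ_apply', ih, P_sub, Function.iterate_succ_apply',
      Function.iterate_succ_apply']

theorem Pit_smul (c : ℝ) (f : Cube m → ℝ) (t : ℕ) :
    P^[t] (fun x => c * f x) = fun x => c * (P^[t] f) x := by
  induction t with
  | zero => rfl
  | succ t ih => rw [Function.iterate_succ_apply', ih, P_smul, Function.iterate_succ_apply']

theorem Pit_const (hm : 0 < m) (c : ℝ) (t : ℕ) : P^[t] (fun _ : Cube m => c) = fun _ => c := by
  induction t with
  | zero => rfl
  | succ t ih => rw [Function.iterate_succ_apply', ih, P_const hm]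

theorem Pit_sum {ι : Type*} (s : Finset ι) (f : ι → Cube m → ℝ) (t : ℕ) :
    P^[t] (fun x => ∑ i ∈ s, f i x) = fun x => ∑ i ∈ s, (P^[t] (f i)) x := by
  classical
  induction s using Finset.induction_on with
  | empty =>
    simp only [Finset.sum_empty]
    induction t with
    | zero => rfl
    | succ t ih =>
      rw [Function.iterate_succ_apply', ih]
      funext x
      simp [P]
  | insert a s ha ih =>
    simp only [Finset.sum_insert ha]
    rw [Pit_add, ih]

theorem sum_mul_Pit (f g : Cube m → ℝ) (t : ℕ) :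
    ∑ x, f x * (P^[t] g) x = ∑ x, (P^[t] f) x * g x := by
  induction t generalizing f with
  | zero => rfl
  | succ t ih =>
    rw [Function.iterate_succ_apply', sum_mul_P, ih, ← Function.iterate_succ_apply]

/-- the heat kernel -/
theorem Pit_eq_sum (f : Cube m → ℝ) (t : ℕ) (z : Cube m) :
    (P^[t] f) z = ∑ w, (P^[t] (dl z)) w * f w := by
  rw [← sum_mul_Pit]
  simp [dl]

/-- the heat kernel as a count of sequences of directions -/
theorem Pit_eq_seq (f : Cube m → ℝ) (t : ℕ) (z : Cube m) :
    (P^[t] f) z = (∑ ω : Fin t → Fin m, f (z + ∑ r, e (ω r))) / (m : ℝ) ^ t := by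
  induction t generalizing z with
  | zero => simp
  | succ t ih =>
    rw [Function.iterate_succ_apply']
    show (∑ i, (P^[t] f) (z + e i)) / m = _
    simp only [ih]
    rw [← Finset.sum_div, div_div, ← pow_succ]
    congr 1
    rw [← (Fin.consEquiv (fun _ : Fin (t + 1) => Fin m)).sum_comp, Fintype.sum_prod_type]
    refine Finset.sum_congr rfl fun i _ => Finset.sum_congr rfl fun ω _ => ?_
    congr 1
    simp only [Fin.consEquiv_apply, Fin.sum_univ_succ, Fin.cons_zero, Fin.cons_succ]
    rw [add_assoc]

end Pool.Agent.H.MP_b23ae3_co.Asy
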