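import Pool.Agent.H.MP_b23ae3_co.asy.Base

set_option autoImplicit false

open Finset

namespace Pool.Agent.H.MP_b23ae3_co.Asy

variable {m : ℕ}

/-! ### U1 Colour.lean : a colouring of the cube in which every closed neighbourhood sees every
colour.  `F` = field with `p` elements, `t = p + 1` blocks, block = nonzero vectors of `F_2^a`,
`y_b` = syndrome of block `b`, `(s,r) : F_2^a → F × ZMod R` surjective (`p R ≤ 2^a`).
`Φ x = (∑_{α ∈ F} s(y_α), ∑_{α ∈ F} α s(y_α) + s(y_∞), ∑_b r(y_b))`.
To reach a target: if the first coordinate has to change by `Δ ≠ 0`, the second by `Δ'`, change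
block `α = Δ'/Δ`, else change block `∞`.
-/

/-- a colouring all of whose colours are seen from every vertex gives a small dominating set -/
theorem dom_of_colouring {Γ : Type*} [Fintype Γ] [DecidableEq Γ] [Nonempty Γ]
    (Φ : Cube m → Γ) (h : ∀ x c, ∃ y, Near x y ∧ Φ y = c) :
    ∃ D : Finset (Cube m), D.card * Fintype.card Γ ≤ 2 ^ m ∧ ∀ x, ∃ y ∈ D, Near x y := by
  obtain ⟨c, -, hc⟩ := Finset.exists_min_image (univ : Finset Γ)
    (fun c => (univ.filter (fun x => Φ x = c)).card) Finset.univ_nonempty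
  refine ⟨univ.filter (fun x => Φ x = c), ?_, ?_⟩
  · have h1 : (univ : Finset (Cube m)).card = ∑ c' : Γ, (univ.filter (fun x => Φ x = c')).card :=
      Finset.card_eq_sum_card_fiberwise (fun x _ => Finset.mem_coe.2 (Finset.mem_univ _))
    have h2 : (univ : Finset (Cube m)).card = 2 ^ m := by
      rw [Finset.card_univ, Fintype.card_fun, ZMod.card, Fintype.card_fin]
    rw [← h2, h1]
    calc (univ.filter (fun x => Φ x = c)).card * Fintype.card Γ
        = ∑ _c' : Γ, (univ.filter (fun x => Φ x = c)).card := by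
          rw [Finset.sum_const, Finset.card_univ, smul_eq_mul, mul_comm]
      _ ≤ _ := Finset.sum_le_sum fun c' hc' => hc c' hc'
  · intro x
    obtain ⟨y, hy1, hy2⟩ := h x c
    exact ⟨y, Finset.mem_filter.2 ⟨Finset.mem_univ _, hy2⟩, hy1⟩

section
variable {B : Type} [DecidableEq B] {a : ℕ}

/-- syndrome of block `b` -/
def syn (ι : B × {v : Cube a // v ≠ 0} → Fin m) (x : Cube m) (b : B) : Cube a :=
  ∑ v : {v : Cube a // v ≠ 0}, x (ι (b, v)) • (v : Cube a)

theorem syn_flip (ι : B × {v : Cube a // v ≠ 0} → Fin m) (hι : Function.Injective ι)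
    (x : Cube m) (b : B) (v : {v : Cube a // v ≠ 0}) (b' : B) :
    syn ι (x + e (ι (b, v))) b' = syn ι x b' + if b' = b then (v : Cube a) else 0 := by
  unfold syn
  simp only [Pi.add_apply, add_smul, Finset.sum_add_distrib]
  congr 1
  unfold e
  simp only [Pi.single_apply]
  by_cases hb : b' = b
  · subst hb
    rw [if_pos rfl, Finset.sum_eq_single v]
    · rw [if_pos rfl, one_smul]
    · intro w _ hw
      rw [if_neg, zero_smul]
      intro h
      exact hw (Prod.ext_iff.1 (hι h)).2
    · intro h; exact absurd (Finset.mem_univ v) h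
  · rw [if_neg hb, Finset.sum_eq_zero]
    intro w _
    rw [if_neg, zero_smul]
    intro h
    exact hb (Prod.ext_iff.1 (hι h)).1

/-- one can change the syndrome of one block to any value by moving inside the closed
neighbourhood -/
theorem exists_near_syn (ι : B × {v : Cube a // v ≠ 0} → Fin m) (hι : Function.Injective ι)
    (x : Cube m) (b : B) (w : Cube a) :
    ∃ y, Near x y ∧ syn ι y b = w ∧ ∀ b', b' ≠ b → syn ι y b' = syn ι x b' := by
  by_cases h : w = syn ι x b
  · exact ⟨x, Or.inl rfl, h.symm, fun _ _ => rfl⟩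
  · have hv : w - syn ι x b ≠ 0 := sub_ne_zero.2 h
    refine ⟨x + e (ι (b, ⟨_, hv⟩)), Or.inr ⟨_, rfl⟩, ?_, ?_⟩
    · rw [syn_flip ι hι, if_pos rfl, add_sub_cancel]
    · intro b' hb'
      rw [syn_flip ι hι, if_neg hb', add_zero]

end

theorem colour (p a R : ℕ) (F : Type) [Field F] [Fintype F] (hF : Fintype.card F = p)
    (hR : p * R ≤ 2 ^ a) (hR0 : 0 < R) (m : ℕ) (hm : (p + 1) * (2 ^ a - 1) ≤ m) :
    ∃ D : Finset (Cube m), D.card * (p * p * R) ≤ 2 ^ m ∧ ∀ x, ∃ y ∈ D, Near x y := by
  classical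
  have : NeZero R := ⟨hR0.ne'⟩
  have hcW : Fintype.card (Cube a) = 2 ^ a := by
    rw [Fintype.card_fun, ZMod.card, Fintype.card_fin]
  have hcV : Fintype.card {v : Cube a // v ≠ 0} = 2 ^ a - 1 := by
    rw [Fintype.card_subtype_compl, hcW, Fintype.card_subtype_eq]
  have hcI : Fintype.card (Option F × {v : Cube a // v ≠ 0}) ≤ Fintype.card (Fin m) := by
    rw [Fintype.card_prod, Fintype.card_option, hF, hcV, Fintype.card_fin]
    exact hm
  obtain ⟨ι⟩ := Function.Embedding.nonempty_of_card_le hcI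
  have hcS : Fintype.card (F × ZMod R) ≤ Fintype.card (Cube a) := by
    rw [Fintype.card_prod, hF, ZMod.card, hcW]
    exact hR
  obtain ⟨j⟩ := Function.Embedding.nonempty_of_card_le hcS
  let sr : Cube a → F × ZMod R := Function.invFun j
  have hsr : Function.Surjective sr := Function.invFun_surjective j.injective
  let Φ : Cube m → F × F × ZMod R := fun x =>
    (∑ α : F, (sr (syn ι x (some α))).1,
      ∑ α : F, α * (sr (syn ι x (some α))).1 + (sr (syn ι x none)).1,
      ∑ α : F, (sr (syn ι x (some α))).2 + (sr (syn ι x none)).2)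
  have hcol : ∀ x c, ∃ y, Near x y ∧ Φ y = c := by
    rintro x ⟨u, v, w⟩
    by_cases hu : u = (Φ x).1
    · obtain ⟨t, ht⟩ := hsr ((sr (syn ι x none)).1 + (v - (Φ x).2.1),
        (sr (syn ι x none)).2 + (w - (Φ x).2.2))
      obtain ⟨y, hy1, hy2, hy3⟩ := exists_near_syn ι ι.injective x none t
      have hy4 : ∀ α : F, syn ι y (some α) = syn ι x (some α) := fun α => hy3 _ (by simp)
      refine ⟨y, hy1, ?_⟩
      have e1 : (Φ x).1 = ∑ α : F, (sr (syn ι x (some α))).1 := rfl
      have e2 : (Φ x).2.1 = ∑ α : F, α * (sr (syn ι x (some α))).1 + (sr (syn ι x none)).1 := rfl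
      have e3 : (Φ x).2.2 = ∑ α : F, (sr (syn ι x (some α))).2 + (sr (syn ι x none)).2 := rfl
      show (_, _, _) = _
      simp only [hy4, hy2, ht]
      refine Prod.ext ?_ (Prod.ext ?_ ?_)
      · show _ = u
        rw [hu, e1]
      · show _ = v
        rw [e2]; ring
      · show _ = w
        rw [e3]; ring
    · set Δ : F := u - (Φ x).1 with hΔ
      have hΔ0 : Δ ≠ 0 := sub_ne_zero.2 hu
      set β : F := (v - (Φ x).2.1) / Δ with hβ
      obtain ⟨t, ht⟩ := hsr ((sr (syn ι x (some β))).1 + Δ,
        (sr (syn ι x (some β))).2 + (w - (Φ x).2.2))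
      obtain ⟨y, hy1, hy2, hy3⟩ := exists_near_syn ι ι.injective x (some β) t
      refine ⟨y, hy1, ?_⟩
      have hn : syn ι y none = syn ι x none := hy3 _ (by simp)
      have k1 : ∀ α : F, (sr (syn ι y (some α))).1 = (sr (syn ι x (some α))).1
          + if α = β then Δ else 0 := by
        intro α
        by_cases hα : α = β
        · subst hα; rw [hy2, ht, if_pos rfl]
        · rw [hy3 _ (by simpa using hα), if_neg hα, add_zero]
      have k2 : ∀ α : F, (sr (syn ι y (some α))).2 = (sr (syn ι x (some α))).2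
          + if α = β then (w - (Φ x).2.2) else 0 := by
        intro α
        by_cases hα : α = β
        · subst hα; rw [hy2, ht, if_pos rfl]
        · rw [hy3 _ (by simpa using hα), if_neg hα, add_zero]
      have e1 : (Φ x).1 = ∑ α : F, (sr (syn ι x (some α))).1 := rfl
      have e2 : (Φ x).2.1 = ∑ α : F, α * (sr (syn ι x (some α))).1 + (sr (syn ι x none)).1 := rfl
      have e3 : (Φ x).2.2 = ∑ α : F, (sr (syn ι x (some α))).2 + (sr (syn ι x none)).2 := rfl
      show (_, _, _) = _
      simp only [k1, k2, hn, mul_add, Finset.sum_add_distrib, mul_ite, mul_zero,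
        Finset.sum_ite_eq', Finset.mem_univ, if_true]
      refine Prod.ext ?_ (Prod.ext ?_ ?_)
      · show _ = u
        rw [hΔ, e1]; ring
      · show _ = v
        have : β * Δ = v - (Φ x).2.1 := by rw [hβ]; field_simp
        rw [this, e2]; ring
      · show _ = w
        rw [e3]; ring
  obtain ⟨D, hD1, hD2⟩ := dom_of_colouring Φ hcol
  refine ⟨D, ?_, hD2⟩
  rw [Fintype.card_prod, Fintype.card_prod, hF, ZMod.card] at hD1
  rw [mul_assoc p p R]
  exact hD1

end Pool.Agent.H.MP_b23ae3_co.Asy
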