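import Pool.Agent.H.MP_b23ae3_co.asy.Base

set_option autoImplicit false

open Finset

namespace Pool.Agent.H.MP_b23ae3_co.Asy

variable {m : ℕ}

/-! ### U2 Dense.lean : `3^b 2^a` is dense on the logarithmic scale
-/

theorem pow32_ne (p q : ℕ) (hp : 0 < p) :
    (p : ℝ) * Real.log 3 - (q : ℝ) * Real.log 2 ≠ 0 := by
  intro h
  have h1 : Real.log ((3 : ℝ) ^ p) = Real.log ((2 : ℝ) ^ q) := by
    rw [Real.log_pow, Real.log_pow]; linarith
  have h2 : (3 : ℝ) ^ p = (2 : ℝ) ^ q :=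
    Real.log_injOn_pos (Set.mem_Ioi.2 (by positivity)) (Set.mem_Ioi.2 (by positivity)) h1
  have h3 : 3 ^ p = 2 ^ q := by exact_mod_cast h2
  have h4 : Odd (3 ^ p) := Odd.pow (by decide)
  rcases Nat.eq_zero_or_pos q with h5 | h5
  · rw [h5, pow_zero] at h3
    have : 1 < 3 ^ p := Nat.one_lt_pow hp.ne' (by norm_num)
    omega
  · have h6 : Even (2 ^ q) := (Nat.even_pow.2 ⟨by decide, h5.ne'⟩)
    rw [← h3] at h6
    exact (Nat.not_even_iff_odd.2 h4) h6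

theorem near32 (δ : ℝ) (hδ : 0 < δ) : ∃ p q : ℕ, 0 < p ∧
    (p : ℝ) * Real.log 3 - (q : ℝ) * Real.log 2 ≠ 0 ∧
    |(p : ℝ) * Real.log 3 - (q : ℝ) * Real.log 2| ≤ δ := by
  have hl2 : 0 < Real.log 2 := Real.log_pos (by norm_num)
  have hl3 : Real.log 2 < Real.log 3 := Real.log_lt_log (by norm_num) (by norm_num)
  obtain ⟨N, hN⟩ := exists_nat_gt (Real.log 2 / δ)
  obtain ⟨j, k, hk0, hkN, hjk⟩ :=
    Real.exists_int_int_abs_mul_sub_le (Real.log 3 / Real.log 2) (n := N + 1) (by omega)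
  have hk1 : (1 : ℝ) ≤ k := by exact_mod_cast hk0
  have hx : 1 < Real.log 3 / Real.log 2 := (one_lt_div hl2).2 hl3
  have hN2 : 1 / ((N + 1 : ℕ) + 1 : ℝ) ≤ 1 / 2 := by
    apply one_div_le_one_div_of_le (by norm_num)
    push_cast
    have : (0 : ℝ) ≤ N := Nat.cast_nonneg _
    linarith
  have hj0 : 0 ≤ j := by
    by_contra hneg
    have hj1 : (j : ℝ) ≤ -1 := by exact_mod_cast (by omega : j ≤ -1)
    have h1 := (abs_le.1 hjk).2
    have h2 : 1 < (k : ℝ) * (Real.log 3 / Real.log 2) := by nlinarith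
    linarith
  obtain ⟨p, rfl⟩ := Int.eq_ofNat_of_zero_le hk0.le
  obtain ⟨q, rfl⟩ := Int.eq_ofNat_of_zero_le hj0
  have hp : 0 < p := by exact_mod_cast hk0
  refine ⟨p, q, hp, pow32_ne p q hp, ?_⟩
  have h3 : (p : ℝ) * Real.log 3 - (q : ℝ) * Real.log 2 =
      Real.log 2 * ((p : ℝ) * (Real.log 3 / Real.log 2) - q) := by
    field_simp
  rw [h3, abs_mul, abs_of_pos hl2]
  push_cast at hjk
  have h4 : Real.log 2 * |(p : ℝ) * (Real.log 3 / Real.log 2) - q| ≤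
      Real.log 2 * (1 / ((N : ℝ) + 1 + 1)) := mul_le_mul_of_nonneg_left hjk hl2.le
  refine h4.trans ?_
  have hNp : (0 : ℝ) ≤ N := Nat.cast_nonneg _
  rw [mul_one_div, div_le_iff₀ (by linarith)]
  rw [div_lt_iff₀ hδ] at hN
  nlinarith

theorem core32 (δ : ℝ) (hδ : 0 < δ) (c : ℕ) : ∃ b1 : ℕ, ∃ Y : ℝ, ∀ y : ℝ, Y ≤ y →
    ∃ a b : ℕ, c ≤ b ∧ b ≤ b1 ∧ (b : ℝ) * Real.log 3 + (a : ℝ) * Real.log 2 ≤ y ∧
      y ≤ (b : ℝ) * Real.log 3 + (a : ℝ) * Real.log 2 + δ := by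
  have hl2 : 0 < Real.log 2 := Real.log_pos (by norm_num)
  obtain ⟨p, q, hp, hne, hle⟩ := near32 δ hδ
  obtain ⟨K, hK⟩ := exists_nat_gt (Real.log 2 / |(p : ℝ) * Real.log 3 - (q : ℝ) * Real.log 2|)
  have habs : 0 < |(p : ℝ) * Real.log 3 - (q : ℝ) * Real.log 2| := abs_pos.2 hne
  rw [div_lt_iff₀ habs] at hK
  rcases lt_or_gt_of_ne hne with hneg | hpos
  · -- negative difference
    rw [abs_of_neg hneg] at hK hle
    refine ⟨c + K * p, ((c + K * p : ℕ) : ℝ) * Real.log 3, fun y hy => ?_⟩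
    have h0 : 0 ≤ (y - ((c + K * p : ℕ) : ℝ) * Real.log 3) / Real.log 2 :=
      div_nonneg (by linarith) hl2.le
    obtain ⟨a0, ha0⟩ : ∃ a0 : ℕ, a0 = ⌊(y - ((c + K * p : ℕ) : ℝ) * Real.log 3) / Real.log 2⌋₊ :=
      ⟨_, rfl⟩
    have ha1 := Nat.floor_le h0
    have ha2 := Nat.lt_floor_add_one ((y - ((c + K * p : ℕ) : ℝ) * Real.log 3) / Real.log 2)
    rw [← ha0] at ha1 ha2
    rw [le_div_iff₀ hl2] at ha1
    rw [div_lt_iff₀ hl2] at ha2
    obtain ⟨s, hs⟩ : ∃ s : ℝ, s = y - ((c + K * p : ℕ) : ℝ) * Real.log 3 - a0 * Real.log 2 :=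
      ⟨_, rfl⟩
    have hs0 : 0 ≤ s := by rw [hs]; linarith
    have hs1 : s < Real.log 2 := by rw [hs]; linarith
    have hθ : 0 < (q : ℝ) * Real.log 2 - (p : ℝ) * Real.log 3 := by linarith
    obtain ⟨k, hk⟩ : ∃ k : ℕ, k = ⌊s / ((q : ℝ) * Real.log 2 - (p : ℝ) * Real.log 3)⌋₊ := ⟨_, rfl⟩
    have hk1 := Nat.floor_le (div_nonneg hs0 hθ.le)
    have hk2 := Nat.lt_floor_add_one (s / ((q : ℝ) * Real.log 2 - (p : ℝ) * Real.log 3))
    rw [← hk] at hk1 hk2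
    rw [le_div_iff₀ hθ] at hk1
    rw [div_lt_iff₀ hθ] at hk2
    have hkK : k ≤ K := by
      by_contra hcon
      have : (K : ℝ) + 1 ≤ k := by exact_mod_cast (by omega : K + 1 ≤ k)
      nlinarith
    have hle1 : k * p ≤ K * p := Nat.mul_le_mul_right _ hkK
    refine ⟨a0 + k * q, c + K * p - k * p, by omega, by omega, ?_, ?_⟩
    · have e1 : ((c + K * p - k * p : ℕ) : ℝ) = ((c + K * p : ℕ) : ℝ) - k * p := by
        rw [Nat.cast_sub (by omega)]; push_cast; ring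
      rw [e1]
      push_cast at hs ⊢
      nlinarith
    · have e1 : ((c + K * p - k * p : ℕ) : ℝ) = ((c + K * p : ℕ) : ℝ) - k * p := by
        rw [Nat.cast_sub (by omega)]; push_cast; ring
      rw [e1]
      push_cast at hs ⊢
      nlinarith
  · rw [abs_of_pos hpos] at hK hle
    refine ⟨c + K * p, (c : ℝ) * Real.log 3 + (K * q : ℕ) * Real.log 2, fun y hy => ?_⟩
    have hKq : (0 : ℝ) ≤ (K * q : ℕ) * Real.log 2 := mul_nonneg (Nat.cast_nonneg _) hl2.le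
    have h0 : 0 ≤ (y - (c : ℝ) * Real.log 3) / Real.log 2 :=
      div_nonneg (by linarith) hl2.le
    obtain ⟨a0, ha0⟩ : ∃ a0 : ℕ, a0 = ⌊(y - (c : ℝ) * Real.log 3) / Real.log 2⌋₊ := ⟨_, rfl⟩
    have ha1 := Nat.floor_le h0
    have ha2 := Nat.lt_floor_add_one ((y - (c : ℝ) * Real.log 3) / Real.log 2)
    have ha3 : K * q ≤ a0 := by
      rw [ha0]
      refine Nat.le_floor ?_
      rw [le_div_iff₀ hl2]
      linarith
    rw [← ha0] at ha1 ha2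
    rw [le_div_iff₀ hl2] at ha1
    rw [div_lt_iff₀ hl2] at ha2
    obtain ⟨s, hs⟩ : ∃ s : ℝ, s = y - (c : ℝ) * Real.log 3 - a0 * Real.log 2 := ⟨_, rfl⟩
    have hs0 : 0 ≤ s := by rw [hs]; linarith
    have hs1 : s < Real.log 2 := by rw [hs]; linarith
    obtain ⟨k, hk⟩ : ∃ k : ℕ, k = ⌊s / ((p : ℝ) * Real.log 3 - (q : ℝ) * Real.log 2)⌋₊ := ⟨_, rfl⟩
    have hk1 := Nat.floor_le (div_nonneg hs0 hpos.le)
    have hk2 := Nat.lt_floor_add_one (s / ((p : ℝ) * Real.log 3 - (q : ℝ) * Real.log 2))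
    rw [← hk] at hk1 hk2
    rw [le_div_iff₀ hpos] at hk1
    rw [div_lt_iff₀ hpos] at hk2
    have hkK : k ≤ K := by
      by_contra hcon
      have : (K : ℝ) + 1 ≤ k := by exact_mod_cast (by omega : K + 1 ≤ k)
      nlinarith
    have hle1 : k * p ≤ K * p := Nat.mul_le_mul_right _ hkK
    have hle2 : k * q ≤ K * q := Nat.mul_le_mul_right _ hkK
    refine ⟨a0 - k * q, c + k * p, by omega, by omega, ?_, ?_⟩
    · rw [Nat.cast_sub (by omega)]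
      push_cast at hs ⊢
      nlinarith
    · rw [Nat.cast_sub (by omega)]
      push_cast at hs ⊢
      nlinarith

theorem dense32 (ε : ℝ) (hε : 0 < ε) (b0 : ℕ) : ∃ b1 n0 : ℕ, ∀ n : ℕ, n0 ≤ n →
    ∃ a b : ℕ, b0 ≤ b ∧ b ≤ b1 ∧ (3 ^ b + 1) * (2 ^ a - 1) ≤ n ∧
      (n : ℝ) ≤ (1 + ε) * 3 ^ b * 2 ^ a ∧ (3 : ℝ) ^ b ≤ ε * 2 ^ a := by
  have hδ : 0 < Real.log (1 + ε) - Real.log (1 + ε / 2) := by
    have := Real.log_lt_log (by linarith : 0 < 1 + ε / 2) (by linarith : 1 + ε / 2 < 1 + ε)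
    linarith
  obtain ⟨c, hc⟩ : ∃ c : ℕ, 1 ≤ ε / 2 * (3 : ℝ) ^ c := by
    obtain ⟨c, hc⟩ := pow_unbounded_of_one_lt (2 / ε) (by norm_num : (1 : ℝ) < 3)
    refine ⟨c, ?_⟩
    rw [div_lt_iff₀ hε] at hc
    linarith
  obtain ⟨b1, Y, hY⟩ := core32 _ hδ (b0 + c)
  obtain ⟨n1, hn1⟩ := exists_nat_gt (Real.exp (Y + Real.log (1 + ε / 2)))
  obtain ⟨n2, hn2⟩ := exists_nat_gt ((1 + ε) * 3 ^ b1 * 3 ^ b1 / ε)
  refine ⟨b1, n1 + n2, fun n hn => ?_⟩
  have hn1' : (n1 : ℝ) ≤ n := by exact_mod_cast (by omega : n1 ≤ n)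
  have hn2' : (n2 : ℝ) ≤ n := by exact_mod_cast (by omega : n2 ≤ n)
  have hnpos : (0 : ℝ) < n := lt_of_lt_of_le (lt_trans (Real.exp_pos _) hn1) hn1'
  have hy : Y ≤ Real.log n - Real.log (1 + ε / 2) := by
    have := Real.log_le_log (Real.exp_pos _) (hn1.le.trans hn1')
    rw [Real.log_exp] at this
    linarith
  obtain ⟨a, b, hb0, hb1, h1, h2⟩ := hY _ hy
  have hlog : (b : ℝ) * Real.log 3 + (a : ℝ) * Real.log 2 = Real.log (3 ^ b * 2 ^ a) := by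
    rw [Real.log_mul (by positivity) (by positivity), Real.log_pow, Real.log_pow]
  rw [hlog] at h1 h2
  have hpos : (0 : ℝ) < 3 ^ b * 2 ^ a := by positivity
  have h3 : (1 + ε / 2) * (3 ^ b * 2 ^ a) ≤ n := by
    rw [← Real.log_le_log_iff (by positivity) hnpos, Real.log_mul (by positivity) hpos.ne']
    linarith
  have h4 : (n : ℝ) ≤ (1 + ε) * (3 ^ b * 2 ^ a) := by
    rw [← Real.log_le_log_iff hnpos (by positivity), Real.log_mul (by positivity) hpos.ne']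
    linarith
  have hbc : (3 : ℝ) ^ c ≤ 3 ^ b := pow_le_pow_right₀ (by norm_num) (by omega)
  have hbb : (3 : ℝ) ^ b ≤ 3 ^ b1 := pow_le_pow_right₀ (by norm_num) hb1
  refine ⟨a, b, by omega, hb1, ?_, by linarith, ?_⟩
  · have h5 : (((3 ^ b + 1) * 2 ^ a : ℕ) : ℝ) ≤ n := by
      push_cast
      have h2a : (0 : ℝ) < 2 ^ a := by positivity
      have : (1 : ℝ) ≤ ε / 2 * 3 ^ b := by nlinarith
      nlinarith
    have h6 : (3 ^ b + 1) * 2 ^ a ≤ n := by exact_mod_cast h5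
    exact le_trans (Nat.mul_le_mul_left _ (Nat.sub_le _ _)) h6
  · rw [div_lt_iff₀ hε] at hn2
    have h3b : (0 : ℝ) < 3 ^ b := by positivity
    have h3b1 : (0 : ℝ) < 3 ^ b1 := by positivity
    have h2a : (0 : ℝ) < 2 ^ a := by positivity
    have h7 : (1 + ε) * 3 ^ b1 * 3 ^ b1 < (1 + ε) * (3 ^ b * 2 ^ a) * ε := by
      calc (1 + ε) * 3 ^ b1 * 3 ^ b1 < n2 * ε := hn2
        _ ≤ n * ε := mul_le_mul_of_nonneg_right hn2' hε.le
        _ ≤ _ := mul_le_mul_of_nonneg_right h4 hε.le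
    have h8 : (1 + ε) * (3 ^ b * 2 ^ a) * ε ≤ (1 + ε) * (3 ^ b1 * 2 ^ a) * ε := by
      have := mul_le_mul_of_nonneg_right hbb h2a.le
      have h9 := mul_le_mul_of_nonneg_left this (by linarith : (0 : ℝ) ≤ 1 + ε)
      exact mul_le_mul_of_nonneg_right h9 hε.le
    have h10 : (1 + ε) * 3 ^ b1 * 3 ^ b1 < (1 + ε) * 3 ^ b1 * (ε * 2 ^ a) := by
      calc _ < _ := h7
        _ ≤ _ := h8
        _ = _ := by ring
    have h11 := lt_of_mul_lt_mul_left h10 (by positivity)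
    linarith

end Pool.Agent.H.MP_b23ae3_co.Asy
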