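import Pool.Agent.H.MP_b23ae3_co.asy.Base
import Pool.Agent.H.MP_b23ae3_co.asy.Colour
import Pool.Agent.H.MP_b23ae3_co.asy.Dense
import Pool.Agent.H.MP_b23ae3_co.Game

set_option autoImplicit false

open Finset

namespace Pool.Agent.H.MP_b23ae3_co.Asy

variable {m : ℕ}

/-! ### U3 UpperAsy.lean
-/

theorem dom_asy (ε : ℝ) (hε : 0 < ε) : ∃ m0 : ℕ, ∀ m : ℕ, m0 ≤ m →
    ∃ D : Finset (Cube m), (D.card : ℝ) * m ≤ (1 + ε) * 2 ^ m ∧ ∀ x, ∃ y ∈ D, Near x y := by
  classical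
  set δ : ℝ := min ε 1 / 4 with hδ
  have hδ0 : 0 < δ := by rw [hδ]; positivity
  have hδ1 : δ ≤ 1 / 4 := by
    rw [hδ]
    have := min_le_right ε 1
    linarith
  have hδ2 : δ ≤ ε / 4 := by
    rw [hδ]
    have := min_le_left ε 1
    linarith
  obtain ⟨b1, n0, hd⟩ := dense32 δ hδ0 1
  refine ⟨n0, fun m hm => ?_⟩
  obtain ⟨a, b, hb, -, hfit, hup, hsm⟩ := hd m hm
  have : Fact (Nat.Prime 3) := ⟨Nat.prime_three⟩
  let _ : Fintype (GaloisField 3 b) := Fintype.ofFinite _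
  have hF : Fintype.card (GaloisField 3 b) = 3 ^ b := by
    rw [← Nat.card_eq_fintype_card]
    exact GaloisField.card 3 b (by omega)
  set R : ℕ := 2 ^ a / 3 ^ b with hR
  have hp0 : (0 : ℝ) < 3 ^ b := by positivity
  have ha0 : (0 : ℝ) < 2 ^ a := by positivity
  have hle : 3 ^ b ≤ 2 ^ a := by
    have h1 : (3 : ℝ) ^ b ≤ 2 ^ a := by nlinarith
    exact_mod_cast h1
  have hR0 : 0 < R := Nat.div_pos hle (by positivity)
  have hRle : 3 ^ b * R ≤ 2 ^ a := Nat.mul_div_le _ _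
  obtain ⟨D, hD1, hD2⟩ := colour (3 ^ b) a R (GaloisField 3 b) hF hRle hR0 m hfit
  refine ⟨D, ?_, hD2⟩
  have h1 : (2 : ℝ) ^ a - 3 ^ b ≤ 3 ^ b * R := by
    have h2 : 2 ^ a < 3 ^ b * R + 3 ^ b := by
      have h3 := Nat.lt_mul_div_succ (2 ^ a) (show 0 < 3 ^ b by positivity)
      rw [← hR] at h3
      linarith
    have h4 : (2 : ℝ) ^ a < 3 ^ b * R + 3 ^ b := by exact_mod_cast h2
    linarith
  have h2 : (1 - δ) * 2 ^ a ≤ 3 ^ b * R := by nlinarith
  have h3 : (m : ℝ) ≤ (1 + ε) * (3 ^ b * 3 ^ b * R) := by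
    have h4 : (1 + δ) ≤ (1 + ε) * (1 - δ) := by nlinarith
    calc (m : ℝ) ≤ (1 + δ) * 3 ^ b * 2 ^ a := hup
      _ ≤ ((1 + ε) * (1 - δ)) * 3 ^ b * 2 ^ a := by gcongr
      _ = (1 + ε) * 3 ^ b * ((1 - δ) * 2 ^ a) := by ring
      _ ≤ (1 + ε) * 3 ^ b * (3 ^ b * R) := by gcongr
      _ = (1 + ε) * (3 ^ b * 3 ^ b * R) := by ring
  have h4 : (D.card : ℝ) * (3 ^ b * 3 ^ b * R) ≤ 2 ^ m := by exact_mod_cast hD1
  calc (D.card : ℝ) * m ≤ D.card * ((1 + ε) * (3 ^ b * 3 ^ b * R)) := by gcongr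
    _ = (1 + ε) * (D.card * (3 ^ b * 3 ^ b * R)) := by ring
    _ ≤ (1 + ε) * 2 ^ m := by gcongr

/-- the 0-1 vector as a Boolean vector -/
def upperasy_toBool (x : Cube m) : Fin m → Bool := fun i => decide (x i = 1)

theorem upperasy_adj (x : Cube m) (i : Fin m) :
    (hypercube m).Adj (upperasy_toBool (x + e i)) (upperasy_toBool x) := by
  show hammingDist (upperasy_toBool (x + e i)) (upperasy_toBool x) = 1
  unfold hammingDist
  have h1 : (univ.filter fun j => upperasy_toBool (x + e i) j ≠ upperasy_toBool x j) = {i} := by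
    ext j
    rw [mem_filter, mem_singleton]
    by_cases hj : j = i
    · subst hj
      have h2 : (e j : Cube m) j = 1 := by unfold e; rw [Pi.single_eq_same]
      have h3 : ∀ a : ZMod 2, decide (a + 1 = 1) ≠ decide (a = 1) := by decide
      refine ⟨fun _ => rfl, fun _ => ⟨mem_univ _, ?_⟩⟩
      show decide (x j + e j j = 1) ≠ decide (x j = 1)
      rw [h2]
      exact h3 (x j)
    · have h2 : (e i : Cube m) j = 0 := by unfold e; rw [Pi.single_eq_of_ne hj]
      refine ⟨fun h => absurd ?_ h.2, fun h => absurd h hj⟩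
      show decide (x j + e i j = 1) = decide (x j = 1)
      rw [h2, add_zero]
  rw [h1, Finset.card_singleton]

theorem dom_to_game (D : Finset (Cube m)) (hD : ∀ x, ∃ y ∈ D, Near x y) :
    ∃ σ : CopStrategy (hypercube m) D.card, Wins σ := by
  classical
  let en := D.equivFin
  refine wins_of_dominating (fun i => upperasy_toBool (en.symm i).1) ?_
  intro v
  set x : Cube m := fun i => if v i = true then 1 else 0 with hx
  have hxv : upperasy_toBool x = v := by
    funext i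
    unfold upperasy_toBool
    rw [hx]
    by_cases h : v i = true
    · simp [h]
    · simp only [Bool.not_eq_true] at h
      simp [h]
  obtain ⟨y, hyD, hy⟩ := hD x
  refine ⟨en ⟨y, hyD⟩, ?_⟩
  simp only [Equiv.symm_apply_apply]
  rcases hy with rfl | ⟨i, rfl⟩
  · exact Or.inl hxv
  · refine Or.inr ?_
    have := upperasy_adj x i
    rwa [hxv] at this

end Pool.Agent.H.MP_b23ae3_co.Asy
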