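import Pool.Agent.H.MP_b23ae3_co.asy.Base
import Pool.Agent.H.MP_b23ae3_co.asy.LowerStatic
import Pool.Agent.H.MP_b23ae3_co.asy.Haven
import Pool.Agent.H.MP_b23ae3_co.asy.UpperAsy

set_option autoImplicit false

open Finset

namespace Pool.Agent.H.MP_b23ae3_co.Asy

/-! ### M12 Final
-/

/-- both bounds for a single large `m` -/
theorem two_sided (ε : ℝ) (hε : 0 < ε) : ∃ m0 : ℕ, ∀ m : ℕ, m0 ≤ m →
    (1 - ε) * 2 ^ m < (copNumber (hypercube m) : ℝ) * m ∧
      (copNumber (hypercube m) : ℝ) * m ≤ (1 + ε) * 2 ^ m := by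
  obtain ⟨m1, h1⟩ := lower_static ε hε
  obtain ⟨m2, h2⟩ := dom_asy ε hε
  refine ⟨max (max m1 m2) 1, fun m hm => ?_⟩
  have hm1 : m1 ≤ m := (le_max_left _ _).trans ((le_max_left _ _).trans hm)
  have hm2 : m2 ≤ m := (le_max_right _ _).trans ((le_max_left _ _).trans hm)
  have hm0 : 0 < m := (le_max_right _ _).trans hm
  obtain ⟨D, hD1, hD2⟩ := h2 m hm2
  have hw := dom_to_game D hD2
  have hle : copNumber (hypercube m) ≤ D.card := Nat.sInf_le hw
  have hmem : copNumber (hypercube m) ∈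
      {k : ℕ | ∃ σ : CopStrategy (hypercube m) k, Wins σ} := Nat.sInf_mem ⟨_, hw⟩
  obtain ⟨σ, hσ⟩ := hmem
  constructor
  · by_contra hcon
    push Not at hcon
    refine static_to_game hm0 _ (fun n hn => h1 m hm1 n ?_) σ hσ
    rw [hn]
    exact hcon
  · refine le_trans ?_ hD1
    exact mul_le_mul_of_nonneg_right (by exact_mod_cast hle) (Nat.cast_nonneg _)

theorem asymptotic :
    Filter.Tendsto (fun m : ℕ => (copNumber (hypercube m) : ℝ) * m / 2 ^ m) Filter.atTop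
      (nhds 1) := by
  rw [Metric.tendsto_atTop]
  intro ε hε
  obtain ⟨m0, h⟩ := two_sided (ε / 2) (by positivity)
  refine ⟨m0, fun m hm => ?_⟩
  obtain ⟨h1, h2⟩ := h m hm
  have hp : (0 : ℝ) < 2 ^ m := by positivity
  have h3 : (1 - ε / 2) < (copNumber (hypercube m) : ℝ) * m / 2 ^ m := by
    rw [lt_div_iff₀ hp]; exact h1
  have h4 : (copNumber (hypercube m) : ℝ) * m / 2 ^ m ≤ (1 + ε / 2) := by
    rw [div_le_iff₀ hp]; exact h2
  rw [Real.dist_eq, abs_lt]
  constructor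
  · linarith
  · linarith

end Pool.Agent.H.MP_b23ae3_co.Asy
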